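import Mathlib
import Pool.Agent.D0H91.US.App

/-!
# Project UB: metric binary additive problems (`MP_778b46_nt`, `MP_4011c3_nt`)

Goal: let `a` have mean one up to all powers of the logarithm (weighted primes, primes with prime index, ...), `b` be an
ARBITRARY function of logarithmic growth. For almost every `α > 0`, for all but `N / (log N) ^ A` of the `n ≤ N`,
`|∑_{l < n} a (n - l) b ⌊α l ^ k⌋ - ∫_0^n b ⌊α u ^ k⌋ du| ≤ N / (log N) ^ A`.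
-/

set_option autoImplicit false

namespace Pool.Agent.D0H91.UB

open Finset MeasureTheory Filter
open scoped ENNReal
open Pool.Agent.H376R2.MR (er)
open Pool.Agent.D0H91.US (Ph JJ)

/-- (TWS) sums `∑ n ^ (i t) e ^ (i θ n)`, uniformly in the linear twist `θ`. -/
def S_TWS : Prop := ∀ K A : ℕ, ∃ B : ℕ, ∀ᶠ N : ℕ in atTop, ∀ θ t : ℝ, Real.log N ^ B ≤ |t| → |t| ≤ (N : ℝ) ^ K →
  ‖∑ n ∈ Icc 1 N, er θ n * er t (Real.log n)‖ ≤ N / Real.log N ^ A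

/-- (PAR) the additive convolution of a fixed sequence `a` and a random sequence `D w` all of whose Fourier sums are small
in mean square (Parseval for the circle, twice, and Tonelli). `er θ x = exp (i θ x)`. -/
def S_PAR : Prop := ∀ (N : ℕ) (Ω : Set ℝ), MeasurableSet Ω → ∀ (a : ℕ → ℂ) (D : ℝ → ℕ → ℂ),
  (∀ l, Measurable fun w => D w l) → ∀ M : ℝ, 0 ≤ M →
  (∀ θ : ℝ, ∫⁻ w in Ω, ‖∑ l ∈ Icc 1 N, er θ l * D w l‖ₑ ^ 2 ≤ ENNReal.ofReal M) →
  ∫⁻ w in Ω, ∑ n ∈ Icc 1 N, ‖∑ l ∈ Ico 1 n, a (n - l) * D w l‖ₑ ^ 2 ≤ ENNReal.ofReal (M * ∑ m ∈ Icc 1 N, ‖a m‖ ^ 2)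

/-- mean one, up to all powers of the logarithm -/
def Mean1 (a : ℕ → ℝ) : Prop := ∀ A : ℕ, ∃ C : ℝ, ∀ N : ℕ, 2 ≤ N → |∑ m ∈ Icc 1 N, a m - N| ≤ C * N / Real.log N ^ A

/-- (MTE) the main term. `Ph F δ y = ∫ s in 0..δ, F (y + s)`, `JJ F n w = ∫ u in 0..n, F (w + log u)`
(see `US/Det.lean`: `Ph_lip`, `Gn_avg`, `pointwise` give the sum over `l` without `a`). -/
def S_MTE : Prop := ∀ (a : ℕ → ℝ), Mean1 a → ∀ A B : ℕ, A < B →
  ∀ᶠ N : ℕ in atTop, ∀ F : ℝ → ℂ, Measurable F → (∀ y, ‖F y‖ ≤ 1) → ∀ w : ℝ, ∀ n ∈ Icc 1 N,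
    ‖∑ l ∈ Ico 1 n, (a (n - l) : ℂ) * (((Real.log N ^ B : ℝ) : ℂ) * Ph F (1 / Real.log N ^ B) (w + Real.log l)) -
      JJ F n w‖ ≤ N / Real.log N ^ A

/-- the weights of the `a`-primes: `log m` times the weight of the index of the prime `m` -/
noncomputable def WP : ℕ → ℕ → ℝ
  | 0, m => if m.Prime then Real.log m else 0
  | a + 1, m => if m.Prime then Real.log m * WP a (Nat.primeCounting m) else 0

/-- the `i`-th `a`-prime (as in `MP_778b46_nt.AlmostAllMultiples`) -/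
noncomputable def ip (a i : ℕ) : ℕ := Nat.iterate (fun k : ℕ => Nat.nth Nat.Prime (k - 1)) (a + 1) i

/-- (IPW) the weights have mean one (from the prime number theorem for `WP 0`, by induction and partial summation) -/
def S_IPW : Prop := Mean1 (WP 0) → ∀ a : ℕ, Mean1 (WP a) ∧ (∀ m, 0 ≤ WP a m) ∧
  (∀ m : ℕ, WP a m ≤ Real.log (m + 3) ^ (a + 1)) ∧ ∀ m : ℕ, WP a m ≠ 0 → ∃ i : ℕ, 0 < i ∧ ip a i = m

end Pool.Agent.D0H91.UB
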