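import Mathlib
import Pool.Agent.D0H91.UB.Stm
import Pool.Agent.D0H91.US.L6

/-! The main term. -/

set_option autoImplicit false

namespace Pool.Agent.D0H91.UB

open Finset MeasureTheory Filter Topology
open Pool.Agent.D0H91.MG
open Pool.Agent.D0H91.US

theorem mean_sup (a : ℕ → ℝ) (ha : Mean1 a) (A : ℕ) : ∀ᶠ N : ℕ in atTop, ∀ x : ℕ, x ≤ N →
    |∑ m ∈ Icc 1 x, (a m - 1)| ≤ N / Real.log N ^ A := by
  obtain ⟨C, hC⟩ := ha (A + 1)
  have hC0 : 0 ≤ C := by
    have h := (abs_nonneg _).trans (hC 2 le_rfl)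
    by_contra hc
    push Not at hc
    have h1 : 0 < Real.log ((2 : ℕ) : ℝ) := Real.log_pos (by norm_num)
    have h2 : C * ((2 : ℕ) : ℝ) / Real.log ((2 : ℕ) : ℝ) ^ (A + 1) < 0 := by
      apply div_neg_of_neg_of_pos _ (by positivity)
      norm_num
      linarith
    linarith
  obtain ⟨D, hD⟩ : ∃ D, D = C / Real.log 2 ^ (A + 1) + |a 1 - 1| := ⟨_, rfl⟩
  have hl2 : 0 < Real.log 2 := Real.log_pos (by norm_num)
  have hD0 : 0 ≤ D := by
    rw [hD]
    positivity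
  filter_upwards [ev_logge (C * 2 ^ (A + 1)), ev_logge 1, Pool.Agent.W301.SS.ev_log A (D + 1) (1 / 2) (by norm_num),
    eventually_ge_atTop 4] with N h1 h2 h3 hN x hx
  obtain ⟨L, hL⟩ : ∃ L, L = Real.log (N : ℝ) := ⟨_, rfl⟩
  rw [← hL] at h1 h2 h3
  rw [← hL]
  have hN4 : (4 : ℝ) ≤ N := by exact_mod_cast hN
  have hN0 : (0 : ℝ) < N := by linarith
  have hL0 : 0 < L := by linarith
  have hxN : (x : ℝ) ≤ N := by exact_mod_cast hx
  have hs : (N : ℝ) ^ (1 / 2 : ℝ) * (N : ℝ) ^ (1 / 2 : ℝ) = N := by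
    rw [← Real.rpow_add hN0]
    norm_num
  have hs1 : 1 ≤ (N : ℝ) ^ (1 / 2 : ℝ) := Real.one_le_rpow (by linarith) (by norm_num)
  have hsmall : ∀ y : ℝ, y ≤ D * (N : ℝ) ^ (1 / 2 : ℝ) → y ≤ N / L ^ A := by
    intro y hy
    rw [le_div_iff₀ (by positivity)]
    calc y * L ^ A ≤ (D * (N : ℝ) ^ (1 / 2 : ℝ)) * L ^ A := by gcongr
      _ = (N : ℝ) ^ (1 / 2 : ℝ) * (D * L ^ A) := by ring
      _ ≤ (N : ℝ) ^ (1 / 2 : ℝ) * ((D + 1) * L ^ A) := by
          gcongr
          linarith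
      _ ≤ (N : ℝ) ^ (1 / 2 : ℝ) * (N : ℝ) ^ (1 / 2 : ℝ) := by gcongr
      _ = N := hs
  have hsum : ∑ m ∈ Icc 1 x, (a m - 1) = ∑ m ∈ Icc 1 x, a m - x := by
    rw [Finset.sum_sub_distrib, Finset.sum_const, Nat.card_Icc, Nat.add_sub_cancel, nsmul_eq_mul, mul_one]
  rcases Nat.lt_or_ge x 2 with hx2 | hx2
  · have h01 : x = 0 ∨ x = 1 := by omega
    rcases h01 with rfl | rfl
    · simp only [Finset.Icc_eq_empty_of_lt Nat.zero_lt_one, Finset.sum_empty, abs_zero]
      positivity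
    · rw [Finset.Icc_self, Finset.sum_singleton]
      apply hsmall
      calc |a 1 - 1| ≤ D * 1 := by
            rw [hD, mul_one]
            have : 0 ≤ C / Real.log 2 ^ (A + 1) := by positivity
            linarith
        _ ≤ _ := mul_le_mul_of_nonneg_left hs1 hD0
  · have hx2' : (2 : ℝ) ≤ x := by exact_mod_cast hx2
    have hx0 : (0 : ℝ) < x := by linarith
    have hb := hC x hx2
    rw [← hsum] at hb
    rcases le_or_gt (x : ℝ) ((N : ℝ) ^ (1 / 2 : ℝ)) with h | h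
    · apply hsmall
      refine hb.trans ?_
      have e1 : C * x / Real.log x ^ (A + 1) ≤ C * x / Real.log 2 ^ (A + 1) := by
        apply div_le_div_of_nonneg_left (by positivity) (by positivity)
        exact pow_le_pow_left₀ hl2.le (Real.log_le_log (by norm_num) hx2') _
      calc _ ≤ C * x / Real.log 2 ^ (A + 1) := e1
        _ = C / Real.log 2 ^ (A + 1) * x := by ring
        _ ≤ D * (N : ℝ) ^ (1 / 2 : ℝ) := by
            apply mul_le_mul _ h hx0.le hD0
            rw [hD]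
            linarith [abs_nonneg (a 1 - 1)]
    · refine hb.trans ?_
      have e2 : L / 2 ≤ Real.log x := by
        have e3 := Real.log_le_log (by positivity) h.le
        rw [Real.log_rpow hN0, ← hL] at e3
        linarith
      calc C * x / Real.log x ^ (A + 1) ≤ C * N / (L / 2) ^ (A + 1) := by gcongr
        _ = N / L ^ A * (C * 2 ^ (A + 1) / L) := by
            rw [div_pow, pow_succ L A]
            field_simp
        _ ≤ N / L ^ A * 1 := by
            gcongr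
            rw [div_le_one hL0]
            exact h1
        _ = _ := mul_one _

theorem part_sum (a : ℕ → ℝ) (g : ℕ → ℂ) (n : ℕ) (S Λ : ℝ) (hS : ∀ x : ℕ, x ≤ n → |∑ m ∈ Icc 1 x, (a m - 1)| ≤ S)
    (hg : ∀ l : ℕ, 1 ≤ l → ‖g (l + 1) - g l‖ ≤ Λ * (Real.log ((l + 1 : ℕ) : ℝ) - Real.log l)) :
    ∀ j : ℕ, 1 ≤ j → j + 1 ≤ n → ‖∑ m ∈ Icc 1 j, ((a m - 1 : ℝ) : ℂ) * g (n - m) -
      ((∑ m ∈ Icc 1 j, (a m - 1) : ℝ) : ℂ) * g (n - j)‖ ≤ S * Λ * (Real.log ((n - 1 : ℕ) : ℝ) - Real.log ((n - j : ℕ) : ℝ)) := by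
  intro j hj
  have hS0 : 0 ≤ S := (abs_nonneg _).trans (hS 0 (Nat.zero_le _))
  induction j, hj using Nat.le_induction with
  | base =>
    intro _
    simp
  | succ j hj ih =>
    intro hjn
    have h1 := ih (by omega)
    rw [Finset.sum_Icc_succ_top (by omega), Finset.sum_Icc_succ_top (by omega)]
    obtain ⟨l, hl⟩ : ∃ l, l = n - (j + 1) := ⟨_, rfl⟩
    have hl1 : n - j = l + 1 := by omega
    have hl0 : 1 ≤ l := by omega
    rw [hl1] at h1
    rw [← hl]
    have h2 := hg l hl0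
    have h3 := hS j (by omega)
    obtain ⟨s, hs⟩ : ∃ s, s = ∑ m ∈ Icc 1 j, (a m - 1) := ⟨_, rfl⟩
    rw [← hs] at h1 h3
    rw [← hs]
    have e1 : ∑ m ∈ Icc 1 j, ((a m - 1 : ℝ) : ℂ) * g (n - m) + ((a (j + 1) - 1 : ℝ) : ℂ) * g l -
        ((s + (a (j + 1) - 1) : ℝ) : ℂ) * g l =
        (∑ m ∈ Icc 1 j, ((a m - 1 : ℝ) : ℂ) * g (n - m) - (s : ℂ) * g (l + 1)) + (s : ℂ) * (g (l + 1) - g l) := by
      push_cast
      ring
    rw [e1]
    refine (norm_add_le _ _).trans ?_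
    have h4 : ‖(s : ℂ) * (g (l + 1) - g l)‖ ≤ S * (Λ * (Real.log ((l + 1 : ℕ) : ℝ) - Real.log l)) := by
      rw [norm_mul, Complex.norm_real, Real.norm_eq_abs]
      exact mul_le_mul h3 h2 (norm_nonneg _) hS0
    calc _ ≤ S * Λ * (Real.log ((n - 1 : ℕ) : ℝ) - Real.log ((l + 1 : ℕ) : ℝ)) +
          S * (Λ * (Real.log ((l + 1 : ℕ) : ℝ) - Real.log l)) := add_le_add h1 h4
      _ = _ := by ring

theorem mte : S_MTE := by
  intro a ha A B hAB
  filter_upwards [mean_sup a ha (A + B + 3), ev_logge 24, Pool.Agent.W301.SS.ev_log (A + B + 1) 16 1 (by norm_num),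
    eventually_ge_atTop 2] with N h1 h2 h3 hN F hFm hFb w n hn
  rw [Finset.mem_Icc] at hn
  obtain ⟨L, hL⟩ : ∃ L, L = Real.log (N : ℝ) := ⟨_, rfl⟩
  rw [← hL] at h1 h2 h3
  rw [← hL]
  rw [Real.rpow_one] at h3
  have hN2 : (2 : ℝ) ≤ N := by exact_mod_cast hN
  have hN0 : (0 : ℝ) < N := by linarith
  have hL0 : 0 < L := by linarith
  have hL1 : 1 ≤ L := by linarith
  have hnN : (n : ℝ) ≤ N := by exact_mod_cast hn.2
  have hn1 : (1 : ℝ) ≤ n := by exact_mod_cast hn.1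
  obtain ⟨δ, hδ⟩ : ∃ δ, δ = 1 / L ^ B := ⟨_, rfl⟩
  have hδ0 : 0 < δ := by
    rw [hδ]
    positivity
  have hδ1 : δ ≤ 1 := by
    rw [hδ, div_le_one (by positivity)]
    exact one_le_pow₀ hL1
  have hδL : 1 / δ = L ^ B := by rw [hδ, one_div_one_div]
  rw [← hδ]
  obtain ⟨g, hg⟩ : ∃ g : ℕ → ℂ, g = fun l : ℕ => ((L ^ B : ℝ) : ℂ) * Ph F δ (w + Real.log l) := ⟨_, rfl⟩
  have hPb : ∀ y, ‖Ph F δ y‖ ≤ δ := by
    intro y
    unfold Ph
    have := intervalIntegral.norm_integral_le_of_norm_le_const (a := 0) (b := δ) (f := fun s => F (y + s)) (C := 1)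
      fun s _ => hFb _
    rwa [sub_zero, abs_of_pos hδ0, one_mul] at this
  have hgb : ∀ l, ‖g l‖ ≤ 1 := by
    intro l
    rw [hg]
    simp only
    rw [norm_mul, Complex.norm_real, Real.norm_eq_abs, abs_of_pos (by positivity)]
    calc L ^ B * ‖Ph F δ (w + Real.log l)‖ ≤ L ^ B * δ := mul_le_mul_of_nonneg_left (hPb _) (by positivity)
      _ = 1 := by
          rw [hδ]
          field_simp
  have hgl : ∀ l : ℕ, 1 ≤ l → ‖g (l + 1) - g l‖ ≤ (2 * L ^ B) * (Real.log ((l + 1 : ℕ) : ℝ) - Real.log l) := by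
    intro l hl
    rw [hg]
    simp only
    rw [← mul_sub, norm_mul, Complex.norm_real, Real.norm_eq_abs, abs_of_pos (by positivity)]
    have h4 := Ph_lip F hFm hFb δ (w + Real.log ((l + 1 : ℕ) : ℝ)) (w + Real.log l)
    have h5 : 0 ≤ Real.log ((l + 1 : ℕ) : ℝ) - Real.log l := by
      have : (0 : ℝ) < l := by exact_mod_cast hl
      have := Real.log_le_log this (show (l : ℝ) ≤ ((l + 1 : ℕ) : ℝ) by push_cast; linarith)
      linarith
    rw [add_sub_add_left_eq_sub, abs_of_nonneg h5] at h4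
    calc _ ≤ L ^ B * (2 * 1 * (Real.log ((l + 1 : ℕ) : ℝ) - Real.log l)) := mul_le_mul_of_nonneg_left h4 (by positivity)
      _ = _ := by ring
  have hsplit : ∑ l ∈ Ico 1 n, (a (n - l) : ℂ) * (((L ^ B : ℝ) : ℂ) * Ph F δ (w + Real.log l)) - JJ F n w =
      (∑ l ∈ Ico 1 n, ((a (n - l) - 1 : ℝ) : ℂ) * g l) + ((∑ l ∈ Icc 1 n, g l - JJ F n w) - g n) := by
    have e1 : Icc 1 n = insert n (Ico 1 n) := by
      ext l
      simp only [Finset.mem_Icc, Finset.mem_insert, Finset.mem_Ico]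
      omega
    rw [e1, Finset.sum_insert (by simp)]
    have e2 : ∑ l ∈ Ico 1 n, (a (n - l) : ℂ) * (((L ^ B : ℝ) : ℂ) * Ph F δ (w + Real.log l)) =
        (∑ l ∈ Ico 1 n, ((a (n - l) - 1 : ℝ) : ℂ) * g l) + ∑ l ∈ Ico 1 n, g l := by
      rw [← Finset.sum_add_distrib]
      refine Finset.sum_congr rfl fun l _ => ?_
      rw [hg]
      push_cast
      ring
    rw [e2]
    ring
  rw [hsplit]
  obtain ⟨S, hS⟩ : ∃ S, S = (N : ℝ) / L ^ (A + B + 3) := ⟨_, rfl⟩
  rw [← hS] at h1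
  have hS0 : 0 ≤ S := by
    rw [hS]
    positivity
  have b1 : ‖∑ l ∈ Ico 1 n, ((a (n - l) - 1 : ℝ) : ℂ) * g l‖ ≤ S * (1 + 2 * L ^ B * L) := by
    rcases Nat.lt_or_ge n 2 with hn2 | hn2
    · have : n = 1 := by omega
      rw [this]
      simp
      positivity
    · have hre : ∑ l ∈ Ico 1 n, ((a (n - l) - 1 : ℝ) : ℂ) * g l = ∑ m ∈ Icc 1 (n - 1), ((a m - 1 : ℝ) : ℂ) * g (n - m) := by
        refine Finset.sum_nbij' (fun l => n - l) (fun m => n - m) ?_ ?_ ?_ ?_ ?_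
        · intro l hl
          simp only [Finset.mem_Ico, Finset.mem_Icc] at hl ⊢
          omega
        · intro l hl
          simp only [Finset.mem_Ico, Finset.mem_Icc] at hl ⊢
          omega
        · intro l hl
          simp only [Finset.mem_Ico] at hl
          omega
        · intro l hl
          simp only [Finset.mem_Icc] at hl
          omega
        · intro l hl
          simp only [Finset.mem_Ico] at hl
          rw [show n - (n - l) = l by omega]
      have hp := part_sum a g n S (2 * L ^ B) (fun x hx => h1 x (hx.trans hn.2)) hgl (n - 1) (by omega) (by omega)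
      rw [show n - (n - 1) = 1 by omega, Nat.cast_one, Real.log_one, sub_zero] at hp
      rw [hre]
      have h5 : ‖((∑ m ∈ Icc 1 (n - 1), (a m - 1) : ℝ) : ℂ) * g 1‖ ≤ S * 1 := by
        rw [norm_mul, Complex.norm_real, Real.norm_eq_abs]
        exact mul_le_mul (h1 (n - 1) (by omega)) (hgb 1) (norm_nonneg _) hS0
      have h6 : Real.log ((n - 1 : ℕ) : ℝ) ≤ L := by
        rw [hL]
        apply Real.log_le_log
        · exact_mod_cast (by omega : 0 < n - 1)
        · exact_mod_cast (by omega : n - 1 ≤ N)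
      have h7 : S * (2 * L ^ B) * Real.log ((n - 1 : ℕ) : ℝ) ≤ S * (2 * L ^ B) * L :=
        mul_le_mul_of_nonneg_left h6 (by positivity)
      have h8 := norm_add_le (∑ m ∈ Icc 1 (n - 1), ((a m - 1 : ℝ) : ℂ) * g (n - m) -
        ((∑ m ∈ Icc 1 (n - 1), (a m - 1) : ℝ) : ℂ) * g 1) (((∑ m ∈ Icc 1 (n - 1), (a m - 1) : ℝ) : ℂ) * g 1)
      rw [sub_add_cancel] at h8
      calc _ ≤ _ := h8
        _ ≤ S * (2 * L ^ B) * L + S * 1 := add_le_add (hp.trans h7) h5
        _ = _ := by ring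
  have b2 : ‖∑ l ∈ Icc 1 n, g l - JJ F n w‖ ≤ 2 * (L + 1) * L ^ B + 6 * N / L ^ B := by
    have hp := pointwise F hFm hFb n hn.1 w δ hδ0 hδ1
    rw [Gn_avg F hFm hFb, hδL, Finset.mul_sum] at hp
    have e1 : ∑ l ∈ Icc 1 n, g l = ∑ l ∈ Icc 1 n, ((L ^ B : ℝ) : ℂ) * Ph F δ (w + Real.log l) := by
      rw [hg]
    rw [e1]
    refine hp.trans ?_
    have h6 : Real.log (n : ℝ) ≤ L := by
      rw [hL]
      exact Real.log_le_log (by linarith) hnN
    have e3 : 2 * 1 * (Real.log n + δ) / δ = 2 * (Real.log n + δ) * L ^ B := by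
      rw [← hδL]
      ring
    rw [e3, mul_one]
    have h7 : 2 * (Real.log n + δ) * L ^ B ≤ 2 * (L + 1) * L ^ B := by gcongr
    have h8 : 6 * δ * n ≤ 6 * N / L ^ B := by
      rw [hδ]
      calc 6 * (1 / L ^ B) * n ≤ 6 * (1 / L ^ B) * N := by gcongr
        _ = _ := by ring
    linarith
  have hQ : 0 < (N : ℝ) / L ^ A := by positivity
  have t1 : S * (1 + 2 * L ^ B * L) ≤ N / L ^ A * (1 / 4) := by
    have e1 : 1 + 2 * L ^ B * L ≤ 3 * (L ^ B * L) := by
      have : 1 ≤ L ^ B * L := one_le_mul_of_one_le_of_one_le (one_le_pow₀ hL1) hL1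
      linarith
    calc S * (1 + 2 * L ^ B * L) ≤ S * (3 * (L ^ B * L)) := mul_le_mul_of_nonneg_left e1 hS0
      _ = N / L ^ A * (12 / L ^ 2) * (1 / 4) := by
          have q : L ^ (A + B + 3) = L ^ A * L ^ B * L ^ 3 := by rw [pow_add, pow_add]
          rw [hS, q]
          field_simp
          ring
      _ ≤ N / L ^ A * 1 * (1 / 4) := by
          gcongr
          rw [div_le_one (by positivity)]
          nlinarith
      _ = _ := by ring
  have t2 : 2 * (L + 1) * L ^ B ≤ N / L ^ A * (1 / 4) := by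
    rw [div_mul_eq_mul_div, le_div_iff₀ (by positivity)]
    have q : L ^ (A + B + 1) = L ^ A * L ^ B * L := by rw [pow_add, pow_add, pow_one]
    rw [q] at h3
    have h9 : 2 * (L + 1) ≤ 4 * L := by linarith
    calc 2 * (L + 1) * L ^ B * L ^ A ≤ 4 * L * L ^ B * L ^ A := by gcongr
      _ = (16 * (L ^ A * L ^ B * L)) * (1 / 4) := by ring
      _ ≤ N * (1 / 4) := by gcongr
  have t3 : 6 * N / L ^ B ≤ N / L ^ A * (1 / 4) := by
    calc 6 * (N : ℝ) / L ^ B ≤ 6 * N / L ^ (A + 1) := by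
          apply div_le_div_of_nonneg_left (by positivity) (by positivity)
          exact pow_le_pow_right₀ hL1 (by omega)
      _ = N / L ^ A * (24 / L) * (1 / 4) := by
          rw [pow_succ]
          field_simp
          ring
      _ ≤ N / L ^ A * 1 * (1 / 4) := by
          gcongr
          rw [div_le_one hL0]
          exact h2
      _ = _ := by ring
  have t4 : (1 : ℝ) ≤ N / L ^ A * (1 / 4) := by
    rw [div_mul_eq_mul_div, le_div_iff₀ (by positivity)]
    have h9 : L ^ A ≤ L ^ (A + B + 1) := pow_le_pow_right₀ hL1 (by omega)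
    have h10 : 0 < L ^ A := by positivity
    linarith
  have h11 := norm_add_le (∑ l ∈ Ico 1 n, ((a (n - l) - 1 : ℝ) : ℂ) * g l) ((∑ l ∈ Icc 1 n, g l - JJ F n w) - g n)
  have h12 := norm_sub_le (∑ l ∈ Icc 1 n, g l - JJ F n w) (g n)
  have h13 := hgb n
  linarith

end Pool.Agent.D0H91.UB
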