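import Mathlib
import Pool.Agent.D0H91.UB.Mte
import Pool.Agent.D0H91.MG.Base

/-! The weights of iterated primes have mean one. -/

set_option autoImplicit false

namespace Pool.Agent.D0H91.UB

open Finset MeasureTheory Filter Topology
open Pool.Agent.D0H91.MG
open Pool.Agent.D0H91.US
open Pool.Agent.W301.SS (om)

theorem mean1_ev (a : ℕ → ℝ) (h : ∀ A : ℕ, ∀ᶠ N : ℕ in atTop, |∑ m ∈ Icc 1 N, a m - N| ≤ N / Real.log N ^ A) : Mean1 a := by
  intro A
  obtain ⟨N0, hN0⟩ := (h A).exists_forall_of_atTop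
  obtain ⟨D, hD⟩ : ∃ D : ℕ → ℝ, D = fun N : ℕ => |∑ m ∈ Icc 1 N, a m - N| * Real.log N ^ A := ⟨_, rfl⟩
  have hD0 : ∀ N, 0 ≤ D N := by
    intro N
    rw [hD]
    have := Real.log_natCast_nonneg N
    positivity
  refine ⟨1 + ∑ n ∈ range N0, D n, fun N hN => ?_⟩
  have hN2 : (2 : ℝ) ≤ N := by exact_mod_cast hN
  have hL : 0 < Real.log (N : ℝ) := Real.log_pos (by linarith)
  have hs : 0 ≤ ∑ n ∈ range N0, D n := Finset.sum_nonneg fun n _ => hD0 n
  rcases Nat.lt_or_ge N N0 with hlt | hge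
  · have h1 : D N ≤ ∑ n ∈ range N0, D n := Finset.single_le_sum (fun n _ => hD0 n) (Finset.mem_range.2 hlt)
    rw [le_div_iff₀ (by positivity)]
    have h2 : |∑ m ∈ Icc 1 N, a m - N| * Real.log N ^ A = D N := by rw [hD]
    rw [h2]
    nlinarith [hD0 N]
  · refine (hN0 N hge).trans ?_
    apply div_le_div_of_nonneg_right _ (by positivity)
    nlinarith

theorem pc_succ (x : ℕ) : Nat.primeCounting (x + 1) = Nat.primeCounting x + if (x + 1).Prime then 1 else 0 := by
  unfold Nat.primeCounting Nat.primeCounting'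
  rw [Nat.count_succ]

theorem pc_le (x : ℕ) : Nat.primeCounting x ≤ x := by
  induction x with
  | zero => simp
  | succ x ih =>
    rw [pc_succ]
    split_ifs <;> omega

theorem abel_wp (W : ℕ → ℝ) (S : ℝ) (N : ℕ) (hS : ∀ y : ℕ, y ≤ N → |∑ m ∈ Icc 1 y, (W m - 1)| ≤ S) :
    ∀ x : ℕ, 1 ≤ x → x ≤ N →
    |(∑ m ∈ Icc 1 x, (if m.Prime then Real.log m * (W (Nat.primeCounting m) - 1) else 0)) -
      Real.log x * ∑ m ∈ Icc 1 (Nat.primeCounting x), (W m - 1)| ≤ S * Real.log x := by
  intro x hx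
  have hS0 : 0 ≤ S := (abs_nonneg _).trans (hS 0 (Nat.zero_le _))
  induction x, hx using Nat.le_induction with
  | base =>
    intro _
    simp [Nat.not_prime_one]
  | succ x hx ih =>
    intro hxN
    have h1 := ih (by omega)
    obtain ⟨s, hs⟩ : ∃ s, s = ∑ m ∈ Icc 1 (Nat.primeCounting x), (W m - 1) := ⟨_, rfl⟩
    have h2 : |s| ≤ S := by
      rw [hs]
      exact hS _ ((pc_le x).trans (by omega))
    rw [← hs] at h1
    have h3 : ∑ m ∈ Icc 1 (Nat.primeCounting (x + 1)), (W m - 1) =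
        s + if (x + 1).Prime then (W (Nat.primeCounting (x + 1)) - 1) else 0 := by
      rw [pc_succ]
      split_ifs with hp
      · rw [Finset.sum_Icc_succ_top (by omega), hs]
      · rw [add_zero, add_zero, hs]
    rw [Finset.sum_Icc_succ_top (by omega), h3]
    have hx0 : (0 : ℝ) < x := by exact_mod_cast hx
    have h4 : 0 ≤ Real.log ((x + 1 : ℕ) : ℝ) - Real.log x := by
      have := Real.log_le_log hx0 (show (x : ℝ) ≤ ((x + 1 : ℕ) : ℝ) by push_cast; linarith)
      linarith
    obtain ⟨T, hT⟩ : ∃ T, T = ∑ m ∈ Icc 1 x, (if m.Prime then Real.log m * (W (Nat.primeCounting m) - 1) else 0) := ⟨_, rfl⟩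
    rw [← hT] at h1
    rw [← hT]
    have h5 : T + (if (x + 1).Prime then Real.log ((x + 1 : ℕ) : ℝ) * (W (Nat.primeCounting (x + 1)) - 1) else 0) -
        Real.log ((x + 1 : ℕ) : ℝ) * (s + if (x + 1).Prime then (W (Nat.primeCounting (x + 1)) - 1) else 0) =
        (T - Real.log x * s) - (Real.log ((x + 1 : ℕ) : ℝ) - Real.log x) * s := by
      split_ifs <;> ring
    rw [h5]
    refine (abs_sub _ _).trans ?_
    rw [abs_mul, abs_of_nonneg h4]
    have h6 : (Real.log ((x + 1 : ℕ) : ℝ) - Real.log x) * |s| ≤ (Real.log ((x + 1 : ℕ) : ℝ) - Real.log x) * S :=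
      mul_le_mul_of_nonneg_left h2 h4
    linarith

theorem wp_nonneg (a : ℕ) : ∀ m, 0 ≤ WP a m := by
  induction a with
  | zero =>
    intro m
    unfold WP
    split_ifs
    · exact Real.log_natCast_nonneg m
    · exact le_rfl
  | succ a ih =>
    intro m
    unfold WP
    split_ifs
    · exact mul_nonneg (Real.log_natCast_nonneg m) (ih _)
    · exact le_rfl

theorem wp_le (a : ℕ) : ∀ m : ℕ, WP a m ≤ Real.log (m + 3) ^ (a + 1) := by
  have hl : ∀ m : ℕ, m.Prime → Real.log m ≤ Real.log ((m : ℝ) + 3) := by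
    intro m hp
    have : (0 : ℝ) < m := by exact_mod_cast hp.pos
    exact Real.log_le_log this (by linarith)
  induction a with
  | zero =>
    intro m
    have h1 := one_le_log m
    unfold WP
    rw [zero_add, pow_one]
    split_ifs with hp
    · exact hl m hp
    · linarith
  | succ a ih =>
    intro m
    have h1 := one_le_log m
    unfold WP
    split_ifs with hp
    · rw [pow_succ, mul_comm]
      apply mul_le_mul _ (hl m hp) (Real.log_natCast_nonneg m) (by positivity)
      refine (ih _).trans ?_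
      apply pow_le_pow_left₀ (by linarith [one_le_log (Nat.primeCounting m)])
      apply Real.log_le_log (by positivity)
      have : (Nat.primeCounting m : ℝ) ≤ m := by exact_mod_cast pc_le m
      linarith
    · positivity

theorem nth_pc (m : ℕ) (hp : m.Prime) : 0 < Nat.primeCounting m ∧ Nat.nth Nat.Prime (Nat.primeCounting m - 1) = m := by
  have h1 : Nat.primeCounting m = Nat.primeCounting' m + 1 := by
    unfold Nat.primeCounting Nat.primeCounting'
    rw [Nat.count_succ, if_pos hp]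
  rw [h1]
  refine ⟨Nat.succ_pos _, ?_⟩
  rw [Nat.add_sub_cancel]
  unfold Nat.primeCounting'
  exact Nat.nth_count hp

theorem wp_supp (a : ℕ) : ∀ m : ℕ, WP a m ≠ 0 → ∃ i : ℕ, 0 < i ∧ ip a i = m := by
  induction a with
  | zero =>
    intro m hm
    unfold WP at hm
    split_ifs at hm with hp
    · obtain ⟨h1, h2⟩ := nth_pc m hp
      exact ⟨_, h1, h2⟩
    · exact absurd rfl hm
  | succ a ih =>
    intro m hm
    unfold WP at hm
    split_ifs at hm with hp
    · obtain ⟨h1, h2⟩ := nth_pc m hp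
      obtain ⟨i, hi0, hi⟩ := ih _ (right_ne_zero_of_mul hm)
      refine ⟨i, hi0, ?_⟩
      unfold ip at hi ⊢
      rw [Function.iterate_succ_apply', hi]
      exact h2
    · exact absurd rfl hm

theorem wp_mean (h0 : Mean1 (WP 0)) (a : ℕ) : Mean1 (WP a) := by
  induction a with
  | zero => exact h0
  | succ a ih =>
    apply mean1_ev
    intro A
    filter_upwards [mean_sup (WP a) ih (A + 2), mean_sup (WP 0) h0 (A + 1), ev_logge 3, eventually_ge_atTop 2] with
      N h1 h2 h3 hN
    have hN2 : (2 : ℝ) ≤ N := by exact_mod_cast hN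
    obtain ⟨L, hL⟩ : ∃ L, L = Real.log (N : ℝ) := ⟨_, rfl⟩
    rw [← hL] at h1 h2 h3
    rw [← hL]
    have hL0 : 0 < L := by linarith
    have h4 := abel_wp (WP a) _ N h1 N (by omega) le_rfl
    rw [← hL] at h4
    have h5 := h1 _ (pc_le N)
    have h6 := h2 N le_rfl
    have e1 : ∑ m ∈ Icc 1 N, WP (a + 1) m - N =
        (∑ m ∈ Icc 1 N, (if m.Prime then Real.log m * (WP a (Nat.primeCounting m) - 1) else 0)) +
        ∑ m ∈ Icc 1 N, (WP 0 m - 1) := by
      rw [Finset.sum_sub_distrib, Finset.sum_const, Nat.card_Icc, Nat.add_sub_cancel, nsmul_eq_mul, mul_one, ← add_sub_assoc,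
        ← Finset.sum_add_distrib]
      congr 1
      refine Finset.sum_congr rfl fun m _ => ?_
      simp only [WP]
      split_ifs
      · ring
      · ring
    rw [e1]
    obtain ⟨T, hT⟩ : ∃ T, T = ∑ m ∈ Icc 1 N, (if m.Prime then Real.log m * (WP a (Nat.primeCounting m) - 1) else 0) := ⟨_, rfl⟩
    obtain ⟨s, hs⟩ : ∃ s, s = ∑ m ∈ Icc 1 (Nat.primeCounting N), (WP a m - 1) := ⟨_, rfl⟩
    rw [← hT, ← hs] at h4
    rw [← hs] at h5
    rw [← hT]
    have h7 : |T| ≤ 2 * (N / L ^ (A + 2) * L) := by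
      have h8 : |T| ≤ |T - L * s| + |L * s| := by
        have := abs_add_le (T - L * s) (L * s)
        rwa [sub_add_cancel] at this
      have h9 : |L * s| ≤ L * (N / L ^ (A + 2)) := by
        rw [abs_mul, abs_of_pos hL0]
        exact mul_le_mul_of_nonneg_left h5 hL0.le
      linarith
    refine (abs_add_le _ _).trans ?_
    have h10 : 2 * (N / L ^ (A + 2) * L) + N / L ^ (A + 1) ≤ N / L ^ A := by
      have q1 : L ^ (A + 2) = L ^ A * L * L := by rw [pow_succ, pow_succ]
      have q2 : L ^ (A + 1) = L ^ A * L := pow_succ _ _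
      have e2 : 2 * (N / L ^ (A + 2) * L) + N / L ^ (A + 1) = N / L ^ A * (3 / L) := by
        rw [q1, q2]
        field_simp
        ring
      rw [e2]
      calc N / L ^ A * (3 / L) ≤ N / L ^ A * 1 := by
            gcongr
            rw [div_le_one hL0]
            exact h3
        _ = _ := mul_one _
    linarith

theorem ipw : S_IPW := fun h0 a => ⟨wp_mean h0 a, wp_nonneg a, wp_le a, wp_supp a⟩

theorem wp0 : Mean1 (WP 0) := by
  intro A
  obtain ⟨C, hC⟩ := tb_neg 0 A
  refine ⟨C, fun N hN => ?_⟩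
  have h := hC N 0 hN (by simp)
  refine le_trans (le_of_eq ?_) h
  have e1 : ∑ n ∈ Icc 1 N, tb n * Pool.Agent.H376R2.MR.er 0 (Real.log n) = ((∑ m ∈ Icc 1 N, WP 0 m - N : ℝ) : ℂ) := by
    have e2 : ∑ m ∈ Icc 1 N, WP 0 m - N = ∑ m ∈ Icc 1 N, (om m - 1) := by
      rw [Finset.sum_sub_distrib, Finset.sum_const, Nat.card_Icc, Nat.add_sub_cancel, nsmul_eq_mul, mul_one]
      rfl
    rw [e2]
    push_cast
    refine Finset.sum_congr rfl fun n _ => ?_
    unfold tb Pool.Agent.H376R2.MR.er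
    simp
  rw [e1, Complex.norm_real, Real.norm_eq_abs]

end Pool.Agent.D0H91.UB
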