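import Mathlib
import Pool.Agent.D0H91.UB.Stm

/-! The mean square of the difference `F(u) - F(u + s)`, general coefficients. -/

set_option autoImplicit false

namespace Pool.Agent.D0H91.UB

open Finset MeasureTheory FourierTransform
open scoped ENNReal
open Pool.Agent.H376R2.MR (er)
open Pool.Agent.D0H91.MG
open Pool.Agent.Y957.VK (Dn Gn Gn_int four_Gn tail_int four_fsum four_smulc)
open Pool.Agent.Y957.AD (four_shift)
open Pool.Agent.Y957.AD (memLp_of_bdd)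

/-- the mean square of `F(u) - F(u + s)`, `F(u) = ∑_{n ≤ N} B (u + log n)` -/
theorem l2diffc (c : ℕ → ℂ) (hc : ∀ n, ‖c n‖ ≤ 1) (N : ℕ) (B : ℝ → ℂ) (hBi : Integrable B) (bb : ℝ) (hBb : ∀ y, ‖B y‖ ≤ bb) (s T V W L2B : ℝ)
    (hT : 1 ≤ T) (hV : 0 ≤ V) (hL : 0 ≤ L2B)
    (h1 : ∀ ξ : ℝ, |ξ| ≤ T → ‖SD c N (2 * Real.pi * ξ)‖ * ‖1 - er (2 * Real.pi * ξ) s‖ ≤ V)
    (h2 : ∀ ξ : ℝ, T < |ξ| → ‖𝓕 B ξ‖ ≤ W / |ξ|) (h3 : ∫⁻ y, ‖B y‖ₑ ^ 2 ≤ ENNReal.ofReal L2B) :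
    ∫⁻ u, ‖Gn c B 1 N u - Gn c B 1 N (u + s)‖ₑ ^ 2 ≤ ENNReal.ofReal (V ^ 2 * L2B + N ^ 2 * (8 * W ^ 2) / T) := by
  have hT0 : 0 < T := by linarith
  have hFc : Continuous (𝓕 B) := VectorFourier.fourierIntegral_continuous Real.continuous_fourierChar
      (by exact continuous_inner) hBi
  have hFm : Measurable (fun ξ => ‖𝓕 B ξ‖ₑ ^ 2) := hFc.measurable.enorm.pow_const 2
  obtain ⟨C, hC⟩ : ∃ C : ℝ → ℂ, C = fun y => B y - B (y + s) := ⟨_, rfl⟩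
  have hBs : Integrable (fun y => B (y + s)) := hBi.comp_add_right s
  have hCi : Integrable C := by
    rw [hC]
    exact hBi.sub hBs
  have hCb : ∀ y, ‖C y‖ ≤ bb + bb := by
    intro y
    rw [hC]
    exact (norm_sub_le _ _).trans (add_le_add (hBb _) (hBb _))
  have hG : ∀ u, Gn c B 1 N u - Gn c B 1 N (u + s) = Gn c C 1 N u := by
    intro u
    unfold Gn
    rw [← Finset.sum_sub_distrib]
    refine Finset.sum_congr rfl fun n _ => ?_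
    rw [hC]
    simp only
    rw [mul_sub]
    congr 3
    ring
  simp only [hG]
  rw [← Pool.Agent.TH794.QD.plancherel _ (Gn_int c hCi 1 N)
    (memLp_of_bdd (Gn_int c hCi 1 N) (Gn_bdd c hc hCb 1 N))]
  have hFC : ∀ ξ, 𝓕 C ξ = (1 - er (2 * Real.pi * ξ) s) * 𝓕 B ξ := by
    intro ξ
    have e1 : C = fun y => ∑ i : Fin 2, (fun y => (if i = 0 then (1 : ℂ) else -1) * B (y + (if i = 0 then 0 else s))) y := by
      funext y
      rw [hC, Fin.sum_univ_two]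
      simp
      ring
    rw [e1, four_fsum Finset.univ _ (fun i _ => (hBi.comp_add_right _).const_mul _), Fin.sum_univ_two, four_smulc, four_smulc,
      four_shift, four_shift]
    simp only [if_true, one_ne_zero, if_false]
    unfold er
    simp
    ring
  have hSD : ∀ ξ, ‖𝓕 (Gn c C 1 N) ξ‖ = ‖SD c N (2 * Real.pi * ξ)‖ * ‖1 - er (2 * Real.pi * ξ) s‖ * ‖𝓕 B ξ‖ := by
    intro ξ
    rw [four_Gn _ hCi, norm_mul, Dn_eq, hFC, norm_mul]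
    ring
  have her2 : ∀ ξ : ℝ, ‖1 - er (2 * Real.pi * ξ) s‖ ≤ 2 := by
    intro ξ
    refine (norm_sub_le _ _).trans ?_
    rw [norm_one, er_nrm]
    norm_num
  obtain ⟨K, hK⟩ : ∃ K, K = (N : ℝ) ^ 2 * (8 * W ^ 2) := ⟨_, rfl⟩
  have hK0 : 0 ≤ K := by
    rw [hK]
    positivity
  have hpt : ∀ ξ : ℝ, ‖𝓕 (Gn c C 1 N) ξ‖ₑ ^ 2 ≤ ENNReal.ofReal (V ^ 2) * ‖𝓕 B ξ‖ₑ ^ 2 +
      (Set.Iic T)ᶜ.indicator (fun x => ENNReal.ofReal (K / 2 * (x ^ 2)⁻¹)) |ξ| := by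
    intro ξ
    have e2 : ‖𝓕 (Gn c C 1 N) ξ‖ₑ ^ 2 =
        ENNReal.ofReal ((‖SD c N (2 * Real.pi * ξ)‖ * ‖1 - er (2 * Real.pi * ξ) s‖ * ‖𝓕 B ξ‖) ^ 2) := by
      rw [← hSD, ENNReal.ofReal_pow (norm_nonneg _), ofReal_norm]
    have e3 : ‖𝓕 B ξ‖ₑ ^ 2 = ENNReal.ofReal (‖𝓕 B ξ‖ ^ 2) := by
      rw [ENNReal.ofReal_pow (norm_nonneg _), ofReal_norm]
    rw [e2, e3]
    obtain ⟨E, hE⟩ : ∃ E, E = ‖SD c N (2 * Real.pi * ξ)‖ * ‖1 - er (2 * Real.pi * ξ) s‖ := ⟨_, rfl⟩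
    have hE0 : 0 ≤ E := by
      rw [hE]
      positivity
    obtain ⟨F, hF⟩ : ∃ F, F = ‖𝓕 B ξ‖ := ⟨_, rfl⟩
    have hF0 : 0 ≤ F := by
      rw [hF]
      exact norm_nonneg _
    by_cases hξ : |ξ| ≤ T
    · rw [Set.indicator_of_notMem (by simpa using hξ), add_zero, ← ENNReal.ofReal_mul (by positivity)]
      apply ENNReal.ofReal_le_ofReal
      have s1 := h1 ξ hξ
      rw [← hE] at s1
      rw [← hE, ← hF, mul_pow]
      exact mul_le_mul_of_nonneg_right (pow_le_pow_left₀ hE0 s1 2) (by positivity)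
    · have hξ1 : T < |ξ| := not_le.1 hξ
      have hξ0 : 0 < |ξ| := by linarith
      refine le_add_left ?_
      rw [Set.indicator_of_mem (by simpa using hξ)]
      apply ENNReal.ofReal_le_ofReal
      have s1 : E ≤ N * 2 := by
        rw [hE]
        exact mul_le_mul (SD_le c hc N _) (her2 ξ) (norm_nonneg _) (Nat.cast_nonneg N)
      have s2 : F ≤ W / |ξ| := by
        rw [hF]
        exact h2 ξ hξ1
      rw [← hE, ← hF]
      calc (E * F) ^ 2 ≤ (N * 2 * (W / |ξ|)) ^ 2 := by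
            apply pow_le_pow_left₀ (by positivity)
            exact mul_le_mul s1 s2 hF0 (by positivity)
        _ = _ := by
            rw [hK]
            field_simp
            ring
  have hI3 := tail_int hT hK0
  calc ∫⁻ ξ, ‖𝓕 (Gn c C 1 N) ξ‖ₑ ^ 2 ≤ ∫⁻ ξ, (ENNReal.ofReal (V ^ 2) * ‖𝓕 B ξ‖ₑ ^ 2 +
      (Set.Iic T)ᶜ.indicator (fun x => ENNReal.ofReal (K / 2 * (x ^ 2)⁻¹)) |ξ|) := lintegral_mono hpt
    _ = ENNReal.ofReal (V ^ 2) * (∫⁻ ξ, ‖𝓕 B ξ‖ₑ ^ 2) +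
      ∫⁻ ξ : ℝ, (Set.Iic T)ᶜ.indicator (fun x => ENNReal.ofReal (K / 2 * (x ^ 2)⁻¹)) |ξ| := by
        rw [lintegral_add_left (hFm.const_mul _), lintegral_const_mul _ hFm]
    _ ≤ ENNReal.ofReal (V ^ 2) * ENNReal.ofReal L2B + ENNReal.ofReal (K / T) := by
        rw [Pool.Agent.TH794.QD.plancherel _ hBi (memLp_of_bdd hBi hBb)]
        gcongr
    _ = _ := by
        rw [← ENNReal.ofReal_mul (by positivity), ← ENNReal.ofReal_add (by positivity) (by positivity), hK]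

end Pool.Agent.D0H91.UB
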