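import Mathlib
import Pool.Agent.D0H91.UB.L2c
import Pool.Agent.D0H91.US.L5

/-! Mean square of the twisted difference between samples and window averages. -/

set_option autoImplicit false

namespace Pool.Agent.D0H91.UB

open Finset MeasureTheory FourierTransform Filter
open scoped ENNReal
open Pool.Agent.H376R2.MR (er)
open Pool.Agent.D0H91.MG
open Pool.Agent.D0H91.US
open Pool.Agent.Y957.VK (Gn)

theorem Gnc_meas (c : ℕ → ℂ) {B : ℝ → ℂ} (hm : Measurable B) (N : ℕ) : Measurable (Gn c B 1 N) := by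
  unfold Gn
  refine Finset.measurable_fun_sum _ fun n _ => ?_
  exact (hm.comp (by fun_prop)).const_mul _

/-- sample minus window average -/
noncomputable def Dd (B : ℝ → ℂ) (δ : ℝ) (w : ℝ) (l : ℕ) : ℂ :=
  B (w + Real.log l) - ((1 / δ : ℝ) : ℂ) * Ph B δ (w + Real.log l)

theorem Dd_sum (c : ℕ → ℂ) (B : ℝ → ℂ) (hm : Measurable B) {Λ : ℝ} (hB : ∀ y, ‖B y‖ ≤ Λ) (N : ℕ) {δ : ℝ} (hδ : 0 < δ) (w : ℝ) :
    ∑ l ∈ Icc 1 N, c l * Dd B δ w l =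
      ((1 / δ : ℝ) : ℂ) * ∫ s in (0 : ℝ)..δ, (Gn c B 1 N w - Gn c B 1 N (w + s)) := by
  have e0 : ∀ l : ℕ, c l * Dd B δ w l = ((1 / δ : ℝ) : ℂ) * ∫ s in (0 : ℝ)..δ,
      (c l * B (w + 1 * Real.log l) - c l * B (w + s + 1 * Real.log l)) := by
    intro l
    have i1 : IntervalIntegrable (fun s => c l * B (w + s + 1 * Real.log l)) volume 0 δ :=
      (ii_bdd (hm.comp (by fun_prop)) (fun s => hB _) 0 δ).const_mul _
    have hδC : (δ : ℂ) ≠ 0 := by exact_mod_cast hδ.ne'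
    rw [intervalIntegral.integral_sub (by simp) i1, intervalIntegral.integral_const, sub_zero, Complex.real_smul,
      intervalIntegral.integral_const_mul]
    unfold Dd Ph
    have e1 : ∀ s : ℝ, w + s + Real.log l = w + Real.log l + s := fun s => by ring
    simp only [one_mul, e1]
    push_cast
    field_simp
  rw [Finset.sum_congr rfl fun l _ => e0 l, ← Finset.mul_sum, ← intervalIntegral.integral_finsetSum]
  · congr 1
    apply intervalIntegral.integral_congr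
    intro s _
    unfold Gn
    simp only [Finset.sum_sub_distrib]
  · intro l _
    exact IntervalIntegrable.sub (by simp) ((ii_bdd (hm.comp (by fun_prop)) (fun s => hB _) 0 δ).const_mul _)

theorem core_t (c : ℕ → ℂ) (hc : ∀ n, ‖c n‖ ≤ 1) (B : ℝ → ℂ) (hm : Measurable B) {Λ : ℝ} (hB : ∀ y, ‖B y‖ ≤ Λ) (N : ℕ)
    (δ : ℝ) (hδ : 0 < δ) (M : ℝ) (hM : 0 ≤ M)
    (h : ∀ s : ℝ, 0 < s → s ≤ δ → ∫⁻ u, ‖Gn c B 1 N u - Gn c B 1 N (u + s)‖ₑ ^ 2 ≤ ENNReal.ofReal M) :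
    ∫⁻ w, ‖∑ l ∈ Icc 1 N, c l * Dd B δ w l‖ₑ ^ 2 ≤ ENNReal.ofReal M := by
  have hG := Gnc_meas c hm N
  have hpt : ∀ w : ℝ, ‖∑ l ∈ Icc 1 N, c l * Dd B δ w l‖ₑ ^ 2 ≤
      ENNReal.ofReal (1 / δ) * ∫⁻ s in Set.Ioc 0 δ, ‖Gn c B 1 N w - Gn c B 1 N (w + s)‖ₑ ^ 2 := by
    intro w
    rw [Dd_sum c B hm hB N hδ w]
    refine jensen (fun s => Gn c B 1 N w - Gn c B 1 N (w + s)) ?_ (N * Λ + N * Λ) (fun s => ?_) δ hδ
    · exact measurable_const.sub (hG.comp (measurable_const.add measurable_id))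
    · exact (norm_sub_le _ _).trans (add_le_add (Gn_bdd c hc hB 1 N _) (Gn_bdd c hc hB 1 N _))
  have hm2 : Measurable (Function.uncurry fun w s : ℝ => ‖Gn c B 1 N w - Gn c B 1 N (w + s)‖ₑ ^ 2) := by
    have : Measurable (fun p : ℝ × ℝ => Gn c B 1 N p.1 - Gn c B 1 N (p.1 + p.2)) :=
      (hG.comp measurable_fst).sub (hG.comp (measurable_fst.add measurable_snd))
    exact this.enorm.pow_const 2
  have hm3 : Measurable fun w : ℝ => ∫⁻ s in Set.Ioc 0 δ, ‖Gn c B 1 N w - Gn c B 1 N (w + s)‖ₑ ^ 2 :=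
    hm2.lintegral_prod_right'
  calc ∫⁻ w, ‖∑ l ∈ Icc 1 N, c l * Dd B δ w l‖ₑ ^ 2 ≤
      ∫⁻ w, ENNReal.ofReal (1 / δ) *
        ∫⁻ s in Set.Ioc 0 δ, ‖Gn c B 1 N w - Gn c B 1 N (w + s)‖ₑ ^ 2 := lintegral_mono fun w => hpt w
    _ = ENNReal.ofReal (1 / δ) * ∫⁻ w, ∫⁻ s in Set.Ioc 0 δ, ‖Gn c B 1 N w - Gn c B 1 N (w + s)‖ₑ ^ 2 := by
        rw [lintegral_const_mul _ hm3]
    _ = ENNReal.ofReal (1 / δ) * ∫⁻ s in Set.Ioc 0 δ, ∫⁻ w, ‖Gn c B 1 N w - Gn c B 1 N (w + s)‖ₑ ^ 2 := by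
        rw [lintegral_lintegral_swap hm2.aemeasurable]
    _ ≤ ENNReal.ofReal (1 / δ) * ∫⁻ s in Set.Ioc 0 δ, ENNReal.ofReal M := by
        gcongr _ * ?_
        exact setLIntegral_mono' measurableSet_Ioc fun s hs => h s hs.1 hs.2
    _ = ENNReal.ofReal M := by
        rw [setLIntegral_const, Real.volume_Ioc, sub_zero, ← ENNReal.ofReal_mul hM, ← ENNReal.ofReal_mul (by positivity)]
        congr 1
        field_simp

/-- all twists at once -/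
theorem l2t (hT : S_TWS) (k : ℝ) (hk : 0 < k) (A : ℕ) : ∃ B0 : ℕ, ∀ B1 : ℕ, B0 ≤ B1 → ∀ᶠ N : ℕ in atTop,
    ∀ (b : ℕ → ℂ) (Λ : ℝ), 0 ≤ Λ → ∀ X2 : ℕ, (X2 : ℝ) ≤ (N : ℝ) ^ (k + 1) → (∀ m ∈ Ioc 0 X2, ‖b m‖ ≤ Λ) → ∀ θ : ℝ,
    ∫⁻ w, ‖∑ l ∈ Icc 1 N, er θ l * Dd (Wv b k 1 1 0 X2) (1 / Real.log N ^ B1) w l‖ₑ ^ 2 ≤
      ENNReal.ofReal (Λ ^ 2 * N ^ 2 / Real.log N ^ A) := by
  obtain ⟨K, hK⟩ : ∃ K : ℕ, 2 * k + 5 ≤ (K : ℝ) := ⟨⌈2 * k + 5⌉₊, Nat.le_ceil _⟩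
  obtain ⟨Bz, hBz⟩ := hT K (A + 2)
  refine ⟨Bz + A + 2, fun B1 hB1 => ?_⟩
  filter_upwards [hBz, ev_logge 1, Pool.Agent.W301.SS.ev_log A 16 (1 / 2) (by norm_num),
    Pool.Agent.W301.SS.ev_log 1 (8 * ((k + 2) / k)) 1 (by norm_num), ev_logge (8 * ((k + 2) / k)),
    eventually_ge_atTop 7] with N hZ hL1 hA1 hA2 hA3 hN b Λ hΛ X2 hX2a hb θ
  obtain ⟨L, hL⟩ : ∃ L, L = Real.log (N : ℝ) := ⟨_, rfl⟩
  rw [← hL] at hZ hL1 hA1 hA2 hA3
  rw [← hL]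
  have hN7 : (7 : ℝ) ≤ N := by exact_mod_cast hN
  have hN0 : (0 : ℝ) < N := by linarith
  have hN1 : (1 : ℝ) ≤ N := by linarith
  have hL0 : 0 < L := by linarith
  have hm1 : ∀ m : ℕ, 0 < m → 1 ≤ (m : ℝ) + 1 - (1 : ℕ) := by
    intro m hm
    have : (1 : ℝ) ≤ m := by exact_mod_cast hm
    push_cast
    linarith
  obtain ⟨B, hB⟩ : ∃ B : ℝ → ℂ, B = Wv b k 1 1 0 X2 := ⟨_, rfl⟩
  rw [← hB]
  have hBi : Integrable B := by
    rw [hB]
    exact Wv_int _ _ _ _ _ _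
  have hBb : ∀ y, ‖B y‖ ≤ Λ := by
    intro y
    rw [hB]
    have h := Wv_bd b hk zero_le_one le_rfl hΛ (y := 1) hm1 hb y
    rw [Nat.cast_one, one_mul] at h
    exact h
  have hBm : Measurable B := by
    rw [hB]
    unfold Wv
    refine Finset.measurable_fun_sum _ fun m _ => ?_
    exact measurable_const.indicator measurableSet_Ico
  have hBs : ∫⁻ y, ‖B y‖ₑ ^ 2 ≤ ENNReal.ofReal (Λ ^ 2 * (Real.log (X2 + 1) / k)) := by
    rw [hB]
    have h := Wv_sq b hk zero_le_one le_rfl hΛ (y := 1) hm1 hb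
    rw [Nat.cast_one, one_mul] at h
    exact h
  have hBt : ∀ ξ : ℝ, ξ ≠ 0 → ‖𝓕 B ξ‖ ≤ X2 * Λ / |ξ| := by
    intro ξ hξ
    rw [hB]
    exact four_Wv_tail b hk zero_le_one hΛ (fun m hm => by
      have := hm1 m hm
      push_cast at this
      linarith) hb hξ
  obtain ⟨T, hT'⟩ : ∃ T, T = (N : ℝ) ^ (2 * k + 4) := ⟨_, rfl⟩
  obtain ⟨V, hV⟩ : ∃ V, V = 2 * (N : ℝ) / L ^ (A + 2) := ⟨_, rfl⟩
  obtain ⟨δ, hδ⟩ : ∃ δ, δ = 1 / L ^ B1 := ⟨_, rfl⟩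
  rw [← hδ]
  have hδ0 : 0 < δ := by
    rw [hδ]
    positivity
  have hT1 : 1 ≤ T := by
    rw [hT']
    exact Real.one_le_rpow hN1 (by linarith)
  have hT0 : 0 < T := by linarith
  have hV0 : 0 ≤ V := by
    rw [hV]
    positivity
  have hlog0 : 0 ≤ Real.log ((X2 : ℝ) + 1) := Real.log_nonneg (by
    have : (0 : ℝ) ≤ X2 := Nat.cast_nonneg X2
    linarith)
  have hL2B : 0 ≤ Λ ^ 2 * (Real.log (X2 + 1) / k) := by positivity
  obtain ⟨M, hM⟩ : ∃ M, M = V ^ 2 * (Λ ^ 2 * (Real.log (X2 + 1) / k)) + (N : ℝ) ^ 2 * (8 * (X2 * Λ) ^ 2) / T := ⟨_, rfl⟩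
  have hM0 : 0 ≤ M := by
    rw [hM]
    positivity
  obtain ⟨c, hc⟩ : ∃ c : ℕ → ℂ, c = fun l : ℕ => er θ (l : ℝ) := ⟨_, rfl⟩
  have hc1 : ∀ n, ‖c n‖ ≤ 1 := by
    intro n
    rw [hc]
    exact (er_nrm _ _).le
  have hmain : ∀ s : ℝ, 0 < s → s ≤ δ → ∫⁻ u, ‖Gn c B 1 N u - Gn c B 1 N (u + s)‖ₑ ^ 2 ≤ ENNReal.ofReal M := by
    intro s hs0 hs1
    rw [hM]
    refine l2diffc c hc1 N B hBi Λ hBb s T V (X2 * Λ) (Λ ^ 2 * (Real.log (X2 + 1) / k)) hT1 hV0 hL2B ?_ ?_ hBs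
    · intro ξ hξ
      rcases le_or_gt (L ^ Bz) |2 * Real.pi * ξ| with h | h
      · have h2 : |2 * Real.pi * ξ| ≤ (N : ℝ) ^ K := by
          rw [abs_mul, abs_of_pos (show 0 < 2 * Real.pi by positivity)]
          have h3 : (N : ℝ) ^ (2 * k + 5) = (N : ℝ) * T := by
            rw [hT', show (2 * k + 5 : ℝ) = (2 * k + 4) + 1 by ring, Real.rpow_add_one hN0.ne', mul_comm]
          have h4 : (N : ℝ) ^ (2 * k + 5) ≤ (N : ℝ) ^ K := by
            rw [← Real.rpow_natCast]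
            exact Real.rpow_le_rpow_of_exponent_le hN1 hK
          refine le_trans ?_ h4
          rw [h3]
          have hpi := Real.pi_lt_d2
          apply mul_le_mul _ hξ (abs_nonneg _) hN0.le
          linarith
        have h3 := hZ θ (2 * Real.pi * ξ) h h2
        have h3' : ‖SD c N (2 * Real.pi * ξ)‖ ≤ N / L ^ (A + 2) := by
          unfold SD
          rw [hc]
          exact h3
        have h4 : ‖1 - er (2 * Real.pi * ξ) s‖ ≤ 2 := by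
          refine (norm_sub_le _ _).trans ?_
          rw [er_nrm, norm_one]
          norm_num
        calc _ ≤ (N / L ^ (A + 2)) * 2 := mul_le_mul h3' h4 (norm_nonneg _) (by positivity)
          _ = V := by
              rw [hV]
              ring
      · have h4 := er_one_sub (2 * Real.pi * ξ) s
        rw [abs_of_pos hs0] at h4
        have h5 : |2 * Real.pi * ξ| * s ≤ L ^ Bz * δ := mul_le_mul h.le hs1 hs0.le (by positivity)
        have h6 : L ^ Bz * δ ≤ 1 / L ^ (A + 2) := by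
          rw [hδ, mul_one_div, div_le_div_iff₀ (by positivity) (by positivity), one_mul, ← pow_add]
          exact pow_le_pow_right₀ hL1 (by omega)
        calc _ ≤ (N : ℝ) * (1 / L ^ (A + 2)) :=
              mul_le_mul (SD_le c hc1 N _) (h4.trans (h5.trans h6)) (norm_nonneg _) hN0.le
          _ ≤ V := by
              rw [hV, mul_one_div]
              have : 0 < (N : ℝ) / L ^ (A + 2) := by positivity
              rw [mul_div_assoc]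
              linarith
    · intro ξ hξ
      apply hBt
      rintro rfl
      rw [abs_zero] at hξ
      linarith
  have hfin := core_t c hc1 B hBm hBb N δ hδ0 M hM0 hmain
  rw [hc] at hfin
  refine hfin.trans (ENNReal.ofReal_le_ofReal ?_)
  -- numeric part
  rw [hM]
  have hlX : Real.log ((X2 : ℝ) + 1) ≤ (k + 2) * L := by
    have h1 : (X2 : ℝ) + 1 ≤ (N : ℝ) ^ (k + 2) := by
      have h2 : (N : ℝ) ^ (k + 2) = (N : ℝ) ^ (k + 1) * N := by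
        rw [← Real.rpow_add_one hN0.ne']
        congr 1
        ring
      have h3 : 1 ≤ (N : ℝ) ^ (k + 1) := Real.one_le_rpow hN1 (by linarith)
      rw [h2]
      nlinarith
    have h4 := Real.log_le_log (by positivity) h1
    rwa [Real.log_rpow hN0, ← hL] at h4
  obtain ⟨κ, hκ⟩ : ∃ κ, κ = (k + 2) / k := ⟨_, rfl⟩
  have hκ0 : 0 ≤ κ := by
    rw [hκ]
    positivity
  rw [← hκ] at hA3
  have t1 : V ^ 2 * (Λ ^ 2 * (Real.log (X2 + 1) / k)) ≤ Λ ^ 2 * N ^ 2 / L ^ A * (1 / 2) := by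
    have h1 : Real.log ((X2 : ℝ) + 1) / k ≤ κ * L := by
      rw [hκ, div_mul_eq_mul_div]
      exact div_le_div_of_nonneg_right hlX hk.le
    have h2 : V ^ 2 = 4 * (N : ℝ) ^ 2 / (L ^ A * L ^ A * L ^ 4) := by
      rw [hV, div_pow, mul_pow, ← pow_mul]
      congr 1
      · norm_num
      · rw [← pow_add, ← pow_add]
        congr 1
        ring
    have hLA : 1 ≤ L ^ A := one_le_pow₀ hL1
    have h4 : 8 * κ * L ≤ L ^ A * L ^ 4 := by
      have h5 : L * L ≤ L ^ 4 := by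
        calc L * L = L ^ 2 := by ring
          _ ≤ L ^ 4 := pow_le_pow_right₀ hL1 (by norm_num)
      calc 8 * κ * L ≤ L * L := by gcongr
        _ ≤ L ^ 4 := h5
        _ = 1 * L ^ 4 := by ring
        _ ≤ L ^ A * L ^ 4 := by gcongr
    calc V ^ 2 * (Λ ^ 2 * (Real.log (X2 + 1) / k)) ≤ V ^ 2 * (Λ ^ 2 * (κ * L)) := by gcongr
      _ = Λ ^ 2 * N ^ 2 / L ^ A * ((8 * κ * L) / (L ^ A * L ^ 4)) * (1 / 2) := by
          rw [h2]
          field_simp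
          ring
      _ ≤ Λ ^ 2 * N ^ 2 / L ^ A * 1 * (1 / 2) := by
          gcongr
          rw [div_le_one (by positivity)]
          exact h4
      _ = _ := by ring
  have t2 : (N : ℝ) ^ 2 * (8 * (X2 * Λ) ^ 2) / T ≤ Λ ^ 2 * N ^ 2 / L ^ A * (1 / 2) := by
    have h1 : (X2 : ℝ) ^ 2 ≤ (N : ℝ) ^ (2 * k + 2) := by
      calc (X2 : ℝ) ^ 2 ≤ ((N : ℝ) ^ (k + 1)) ^ 2 := pow_le_pow_left₀ (by positivity) hX2a 2
        _ = (N : ℝ) ^ (2 * k + 2) := by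
            rw [← Real.rpow_natCast, ← Real.rpow_mul hN0.le]
            congr 1
            push_cast
            ring
    have h2 : T = (N : ℝ) ^ (2 * k + 2) * (N : ℝ) ^ 2 := by
      rw [hT', ← Real.rpow_natCast (N : ℝ) 2, ← Real.rpow_add hN0]
      congr 1
      push_cast
      ring
    have h3 : 16 * L ^ A ≤ (N : ℝ) ^ 2 := by
      refine hA1.trans ?_
      rw [← Real.rpow_natCast]
      exact Real.rpow_le_rpow_of_exponent_le hN1 (by norm_num)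
    rw [div_le_iff₀ hT0]
    calc (N : ℝ) ^ 2 * (8 * (X2 * Λ) ^ 2) = 8 * Λ ^ 2 * (N : ℝ) ^ 2 * (X2 : ℝ) ^ 2 := by ring
      _ ≤ 8 * Λ ^ 2 * (N : ℝ) ^ 2 * (N : ℝ) ^ (2 * k + 2) := by gcongr
      _ = Λ ^ 2 * N ^ 2 / L ^ A * (1 / 2) * ((N : ℝ) ^ (2 * k + 2) * (16 * L ^ A)) := by
          field_simp
          ring
      _ ≤ Λ ^ 2 * N ^ 2 / L ^ A * (1 / 2) * ((N : ℝ) ^ (2 * k + 2) * (N : ℝ) ^ 2) := by gcongr
      _ = _ := by rw [h2]
  calc _ ≤ Λ ^ 2 * N ^ 2 / L ^ A * (1 / 2) + Λ ^ 2 * N ^ 2 / L ^ A * (1 / 2) := add_le_add t1 t2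
    _ = _ := by ring

end Pool.Agent.D0H91.UB
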