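import Mathlib
import Pool.Agent.D0H91.UB.Tw1
import Pool.Agent.D0H91.US.L5

/-! Twisted sums of `n ^ (i t)`: blocks and dyadic summation. -/

set_option autoImplicit false

namespace Pool.Agent.D0H91.UB

open Finset Filter
open Pool.Agent.H376R2.MR (er)
open Pool.Agent.D0H91.MG
open Pool.Agent.H469R2.NK (e norm_e e_add conj_e Cq Cq_pos harm_le)

theorem blk (K A : ℕ) : ∀ᶠ N : ℕ in atTop, ∀ J L : ℕ, (N : ℝ) ^ (1 / 2 : ℝ) ≤ J → J ≤ N → L ≤ J →
    ∀ φ Z : ℝ, Real.log N ^ (2 * A + 2) ≤ Z → Z ≤ (N : ℝ) ^ K → ‖ST φ Z J L‖ ≤ N / Real.log N ^ A := by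
  obtain ⟨η, hη0, hη1, C, hC, hmain⟩ := exp_sum_boundT (2 * K + 1) (by omega)
  filter_upwards [ev_logge 2, ev_logge (144 * Cq 1), Pool.Agent.W301.SS.ev_log (2 * A) (2 * Cq 1) (1 / 2) (by norm_num),
    Pool.Agent.W301.SS.ev_log A C η hη0, eventually_ge_atTop 256] with N h1 h2 h3 h4 hN J L hJ1 hJN hLJ φ Z hZ1 hZ2
  obtain ⟨ℓ, hℓ⟩ : ∃ ℓ, ℓ = Real.log (N : ℝ) := ⟨_, rfl⟩
  rw [← hℓ] at h1 h2 h3 h4 hZ1
  rw [← hℓ]
  have hC1 := Cq_pos 1
  have hN256 : (256 : ℝ) ≤ N := by exact_mod_cast hN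
  have hN0 : (0 : ℝ) < N := by linarith
  have hN1 : (1 : ℝ) ≤ N := by linarith
  have hℓ0 : 0 < ℓ := by linarith
  have h16 : (16 : ℝ) ≤ (N : ℝ) ^ (1 / 2 : ℝ) := by
    calc (16 : ℝ) = (256 : ℝ) ^ (1 / 2 : ℝ) := by
          rw [show (256 : ℝ) = 16 ^ (2 : ℝ) by norm_num, ← Real.rpow_mul (by norm_num)]
          norm_num
      _ ≤ _ := Real.rpow_le_rpow (by norm_num) hN256 (by norm_num)
  have hJ16 : (16 : ℝ) ≤ J := h16.trans hJ1
  have hJ0 : (0 : ℝ) < J := by linarith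
  have hJ1' : 1 ≤ J := by
    have : (1 : ℝ) ≤ J := by linarith
    exact_mod_cast this
  have hJNr : (J : ℝ) ≤ N := by exact_mod_cast hJN
  have hLJr : (L : ℝ) ≤ J := by exact_mod_cast hLJ
  have hZ0 : 0 < Z := lt_of_lt_of_le (by positivity) hZ1
  rcases le_or_gt Z ((J : ℝ) ^ (3 / 4 : ℝ)) with hcase | hcase
  · have hup : 2 * (Z * ((1 : ℕ).factorial / (J : ℝ) ^ (1 + 1) * (J : ℝ) ^ 1)) ≤ 1 := by
      have e1 : (2 : ℝ) ≤ (J : ℝ) ^ (1 / 4 : ℝ) := by
        calc (2 : ℝ) = (16 : ℝ) ^ (1 / 4 : ℝ) := by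
              rw [show (16 : ℝ) = 2 ^ (4 : ℝ) by norm_num, ← Real.rpow_mul (by norm_num)]
              norm_num
          _ ≤ _ := Real.rpow_le_rpow (by norm_num) hJ16 (by norm_num)
      have e2 : (J : ℝ) ^ (3 / 4 : ℝ) * (J : ℝ) ^ (1 / 4 : ℝ) = (J : ℝ) := by
        rw [← Real.rpow_add hJ0]
        norm_num
      have e3 : 2 * (Z * ((1 : ℕ).factorial / (J : ℝ) ^ (1 + 1) * (J : ℝ) ^ 1)) = 2 * Z / J := by
        rw [Nat.factorial_one, Nat.cast_one]
        field_simp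
      rw [e3, div_le_one hJ0]
      calc 2 * Z ≤ (J : ℝ) ^ (1 / 4 : ℝ) * (J : ℝ) ^ (3 / 4 : ℝ) := mul_le_mul e1 hcase hZ0.le (by positivity)
        _ = J := by rw [mul_comm]; exact e2
    have hb := exp_boundT 1 le_rfl φ Z hZ0 J J L J hJ1' le_rfl hLJ (by linarith) hJ1' le_rfl hup
    have hh : ∑ l ∈ Ico 1 J, (1 : ℝ) / l ≤ 2 * ℓ := by
      refine (harm_le J).trans ?_
      have : Real.log J ≤ ℓ := by
        rw [hℓ]
        exact Real.log_le_log hJ0 hJNr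
      linarith
    have hh0 : 0 ≤ ∑ l ∈ Ico 1 J, (1 : ℝ) / l := sum_nonneg fun _ _ => by positivity
    have hb2 : (‖ST φ Z J L‖ / J) ^ 2 ≤ Cq 1 * (1 / J + 36 * ℓ / Z) := by
      have e4 : (2 : ℕ) ^ 1 = 2 := by norm_num
      rw [e4] at hb
      refine hb.trans ?_
      rw [Nat.factorial_one, Nat.cast_one, mul_one, pow_one]
      have e5 : 2 * (3 * (J : ℝ)) ^ (1 + 1) / Z / J * ((∑ l ∈ Ico 1 J, (1 : ℝ) / l) / J) =
          18 * (∑ l ∈ Ico 1 J, (1 : ℝ) / l) / Z := by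
        field_simp
        ring
      rw [e5]
      have e6 : 18 * (∑ l ∈ Ico 1 J, (1 : ℝ) / l) / Z ≤ 36 * ℓ / Z := by
        apply div_le_div_of_nonneg_right _ hZ0.le
        linarith
      exact mul_le_mul_of_nonneg_left (by linarith) hC1.le
    have t1 : Cq 1 * (1 / J) ≤ 1 / ℓ ^ (2 * A) * (1 / 2) := by
      rw [mul_one_div, div_mul_div_comm, one_mul, div_le_div_iff₀ hJ0 (by positivity)]
      calc Cq 1 * (ℓ ^ (2 * A) * 2) = 2 * Cq 1 * ℓ ^ (2 * A) := by ring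
        _ ≤ (N : ℝ) ^ (1 / 2 : ℝ) := h3
        _ ≤ 1 * J := by linarith
    have t2 : Cq 1 * (36 * ℓ / Z) ≤ 1 / ℓ ^ (2 * A) * (1 / 2) := by
      have e7 : 36 * ℓ / Z ≤ 36 * ℓ / ℓ ^ (2 * A + 2) := by
        apply div_le_div_of_nonneg_left (by positivity) (by positivity) hZ1
      calc Cq 1 * (36 * ℓ / Z) ≤ Cq 1 * (36 * ℓ / ℓ ^ (2 * A + 2)) := mul_le_mul_of_nonneg_left e7 hC1.le
        _ = 1 / ℓ ^ (2 * A) * (72 * Cq 1 / ℓ) * (1 / 2) := by
            field_simp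
            ring
        _ ≤ 1 / ℓ ^ (2 * A) * 1 * (1 / 2) := by
            gcongr
            rw [div_le_one hℓ0]
            linarith
        _ = _ := by ring
    have t3 : (‖ST φ Z J L‖ / J) ^ 2 ≤ (1 / ℓ ^ A) ^ 2 := by
      refine hb2.trans ?_
      rw [mul_add]
      calc _ ≤ 1 / ℓ ^ (2 * A) * (1 / 2) + 1 / ℓ ^ (2 * A) * (1 / 2) := add_le_add t1 t2
        _ = (1 / ℓ ^ A) ^ 2 := by
            rw [div_pow, one_pow, ← pow_mul, mul_comm A 2]
            ring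
    have t4 : ‖ST φ Z J L‖ / J ≤ 1 / ℓ ^ A := by
      exact le_of_sq_le_sq t3 (by positivity)
    rw [div_le_iff₀ hJ0] at t4
    calc ‖ST φ Z J L‖ ≤ 1 / ℓ ^ A * J := t4
      _ ≤ 1 / ℓ ^ A * N := mul_le_mul_of_nonneg_left hJNr (by positivity)
      _ = _ := by ring
  · have hZJ : Z ≤ (J : ℝ) ^ (2 * K + 1) := by
      have hNJ : (N : ℝ) ≤ (J : ℝ) ^ 2 := by
        calc (N : ℝ) = ((N : ℝ) ^ (1 / 2 : ℝ)) ^ 2 := by
              rw [← Real.rpow_natCast, ← Real.rpow_mul hN0.le]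
              norm_num
          _ ≤ _ := pow_le_pow_left₀ (by positivity) hJ1 2
      calc Z ≤ (N : ℝ) ^ K := hZ2
        _ ≤ ((J : ℝ) ^ 2) ^ K := pow_le_pow_left₀ hN0.le hNJ K
        _ = (J : ℝ) ^ (2 * K) := by rw [← pow_mul]
        _ ≤ _ := pow_le_pow_right₀ (by linarith) (by omega)
    have hb := hmain J L J Z hJ1' le_rfl hLJ (by linarith) hcase hZJ φ
    refine hb.trans ?_
    have h5 : (J : ℝ) ^ (1 - η) ≤ (N : ℝ) ^ (1 - η) := Real.rpow_le_rpow hJ0.le hJNr (by linarith)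
    rw [le_div_iff₀ (by positivity)]
    calc C * (J : ℝ) ^ (1 - η) * ℓ ^ A ≤ C * (N : ℝ) ^ (1 - η) * ℓ ^ A := by gcongr
      _ = (N : ℝ) ^ (1 - η) * (C * ℓ ^ A) := by ring
      _ ≤ (N : ℝ) ^ (1 - η) * (N : ℝ) ^ η := by gcongr
      _ = N := by
          rw [← Real.rpow_add hN0]
          norm_num

/-- `er` in terms of `e` -/
theorem er_e (θ t : ℝ) (n : ℕ) : er θ n * er t (Real.log n) = e (θ / (2 * Real.pi) * n + t / (2 * Real.pi) * Real.log n) := by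
  unfold er e
  rw [← Complex.exp_add]
  congr 1
  push_cast
  field_simp

theorem blk_sum (K A : ℕ) : ∀ᶠ N : ℕ in atTop, ∀ φ Z : ℝ, Real.log N ^ (2 * (A + 3) + 2) ≤ Z → Z ≤ (N : ℝ) ^ K →
    ‖∑ n ∈ Icc 1 N, e (φ * n + Z * Real.log n)‖ ≤ N / Real.log N ^ A := by
  filter_upwards [blk K (A + 3), ev_logge 8, Pool.Agent.W301.SS.ev_log (A + 1) 4 (1 / 2) (by norm_num),
    eventually_ge_atTop 256] with N hb h1 h2 hN φ Z hZ1 hZ2
  obtain ⟨ℓ, hℓ⟩ : ∃ ℓ, ℓ = Real.log (N : ℝ) := ⟨_, rfl⟩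
  rw [← hℓ] at h1 h2 hZ1 hb
  rw [← hℓ]
  have hN256 : (256 : ℝ) ≤ N := by exact_mod_cast hN
  have hN0 : (0 : ℝ) < N := by linarith
  have hN1 : (1 : ℝ) ≤ N := by linarith
  have hℓ0 : 0 < ℓ := by linarith
  have hℓ1 : 1 ≤ ℓ := by linarith
  obtain ⟨S, hS⟩ : ∃ S : ℕ → ℂ, S = fun x : ℕ => ∑ n ∈ Icc 1 x, e (φ * n + Z * Real.log n) := ⟨_, rfl⟩
  obtain ⟨Y, hY⟩ : ∃ Y, Y = (N : ℝ) / ℓ ^ (A + 3) := ⟨_, rfl⟩
  rw [← hY] at hb
  have hY0 : 0 ≤ Y := by
    rw [hY]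
    positivity
  have key : ∀ x : ℕ, x ≤ N → ‖S x‖ ≤ 2 * (N : ℝ) ^ (1 / 2 : ℝ) + (Nat.log 2 x + 1) * Y := by
    intro x
    induction x using Nat.strong_induction_on with
    | _ x ih =>
      intro hxN
      by_cases hx : (x : ℝ) ≤ 2 * (N : ℝ) ^ (1 / 2 : ℝ)
      · have h3 : ‖S x‖ ≤ x := by
          rw [hS]
          refine (norm_sum_le _ _).trans ?_
          simp only [norm_e, sum_const, Nat.card_Icc, Nat.add_sub_cancel, nsmul_eq_mul, mul_one]
          exact le_rfl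
        have h4 : 0 ≤ ((Nat.log 2 x : ℝ) + 1) * Y := by positivity
        linarith
      · push Not at hx
        have h16 : (16 : ℝ) ≤ (N : ℝ) ^ (1 / 2 : ℝ) := by
          calc (16 : ℝ) = (256 : ℝ) ^ (1 / 2 : ℝ) := by
                rw [show (256 : ℝ) = 16 ^ (2 : ℝ) by norm_num, ← Real.rpow_mul (by norm_num)]
                norm_num
            _ ≤ _ := Real.rpow_le_rpow (by norm_num) hN256 (by norm_num)
        have hx2 : 2 ≤ x := by
          have : (2 : ℝ) ≤ x := by linarith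
          exact_mod_cast this
        have h5 := ih (x / 2) (by omega) (by omega)
        have h6 : Nat.log 2 x = Nat.log 2 (x / 2) + 1 := by
          rw [Nat.log_div_base]
          have : 1 ≤ Nat.log 2 x := Nat.log_pos (by norm_num) hx2
          omega
        have h7 : S x = S (x / 2) + e (φ * ((x / 2 + 1 : ℕ) : ℝ)) * ST φ Z ((x / 2 + 1 : ℕ) : ℝ) (x - x / 2) := by
          rw [hS]
          simp only
          have e1 : Icc 1 x = Icc 1 (x / 2) ∪ Ico (x / 2 + 1) (x + 1) := by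
            ext n
            simp only [mem_union, mem_Icc, mem_Ico]
            omega
          have e2 : Disjoint (Icc 1 (x / 2)) (Ico (x / 2 + 1) (x + 1)) := by
            rw [disjoint_left]
            intro n hn hn'
            rw [mem_Icc] at hn
            rw [mem_Ico] at hn'
            omega
          rw [e1, sum_union e2]
          congr 1
          rw [sum_Ico_eq_sum_range]
          unfold ST
          rw [mul_sum, show x + 1 - (x / 2 + 1) = x - x / 2 by omega]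
          refine sum_congr rfl fun n _ => ?_
          rw [← e_add]
          congr 1
          push_cast
          ring
        have h8 : ‖ST φ Z ((x / 2 + 1 : ℕ) : ℝ) (x - x / 2)‖ ≤ Y := by
          apply hb (x / 2 + 1) (x - x / 2) _ (by omega) (by omega) φ Z hZ1 hZ2
          have h9 : (x : ℝ) ≤ 2 * ((x / 2 + 1 : ℕ) : ℝ) := by exact_mod_cast (by omega : x ≤ 2 * (x / 2 + 1))
          linarith
        rw [h7]
        refine (norm_add_le _ _).trans ?_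
        have h10 : (Nat.log 2 x : ℝ) = Nat.log 2 (x / 2) + 1 := by
          rw [h6]
          push_cast
          ring
        rw [norm_mul, norm_e, one_mul, h10]
        linarith
  have hfin := key N le_rfl
  rw [hS] at hfin
  refine hfin.trans ?_
  have hlog : (Nat.log 2 N : ℝ) ≤ 2 * ℓ := by
    have h3 : Nat.log 2 N ≤ Real.logb 2 N := Real.natLog_le_logb N 2
    have h4 : Real.logb 2 N = ℓ / Real.log 2 := by
      rw [hℓ]
      rfl
    rw [h4] at h3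
    refine h3.trans ?_
    rw [div_le_iff₀ (Real.log_pos (by norm_num))]
    have := Real.log_two_gt_d9
    nlinarith
  have t1 : 2 * (N : ℝ) ^ (1 / 2 : ℝ) ≤ N / ℓ ^ A * (1 / 2) := by
    have e1 : (N : ℝ) = (N : ℝ) ^ (1 / 2 : ℝ) * (N : ℝ) ^ (1 / 2 : ℝ) := by
      rw [← Real.rpow_add hN0]
      norm_num
    have e2 : 4 * ℓ ^ A ≤ (N : ℝ) ^ (1 / 2 : ℝ) := by
      refine le_trans ?_ h2
      exact mul_le_mul_of_nonneg_left (pow_le_pow_right₀ hℓ1 (by omega)) (by norm_num)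
    rw [div_mul_eq_mul_div, le_div_iff₀ (by positivity)]
    calc 2 * (N : ℝ) ^ (1 / 2 : ℝ) * ℓ ^ A = (N : ℝ) ^ (1 / 2 : ℝ) * (4 * ℓ ^ A) * (1 / 2) := by ring
      _ ≤ (N : ℝ) ^ (1 / 2 : ℝ) * (N : ℝ) ^ (1 / 2 : ℝ) * (1 / 2) := by gcongr
      _ = _ := by rw [← e1]
  have t2 : ((Nat.log 2 N : ℝ) + 1) * Y ≤ N / ℓ ^ A * (1 / 2) := by
    calc ((Nat.log 2 N : ℝ) + 1) * Y ≤ (4 * ℓ) * Y := by
          apply mul_le_mul_of_nonneg_right _ hY0
          linarith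
      _ = N / ℓ ^ A * (8 / ℓ ^ 2) * (1 / 2) := by
          rw [hY]
          field_simp
          ring
      _ ≤ N / ℓ ^ A * 1 * (1 / 2) := by
          gcongr
          rw [div_le_one (by positivity)]
          nlinarith
      _ = _ := by ring
  calc _ ≤ N / ℓ ^ A * (1 / 2) + N / ℓ ^ A * (1 / 2) := add_le_add t1 t2
    _ = _ := by ring

theorem tws : S_TWS := by
  intro K A
  refine ⟨2 * (A + 3) + 3, ?_⟩
  filter_upwards [blk_sum K A, ev_logge 7, eventually_ge_atTop 2] with N hb h1 hN θ t ht1 ht2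
  have hN1 : (2 : ℝ) ≤ N := by exact_mod_cast hN
  have hpi := Real.pi_gt_three
  have hpi4 := Real.pi_le_four
  have hpi2 : 2 * Real.pi ≤ 7 := by
    have := Real.pi_lt_d2
    linarith
  have ha1 : Real.log N ^ (2 * (A + 3) + 2) ≤ |t| / (2 * Real.pi) := by
    rw [le_div_iff₀ (by positivity)]
    refine le_trans ?_ ht1
    rw [show 2 * (A + 3) + 3 = (2 * (A + 3) + 2) + 1 by ring, pow_succ]
    have h2 : 0 ≤ Real.log (N : ℝ) ^ (2 * (A + 3) + 2) := by
      apply pow_nonneg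
      linarith
    exact mul_le_mul_of_nonneg_left (by linarith) h2
  have ha2 : |t| / (2 * Real.pi) ≤ (N : ℝ) ^ K := by
    refine le_trans (div_le_self (abs_nonneg t) (by linarith)) ht2
  simp only [er_e]
  rcases le_or_gt 0 t with h | h
  · rw [abs_of_nonneg h] at ha1 ha2
    exact hb _ _ ha1 ha2
  · rw [abs_of_neg h] at ha1 ha2
    have h3 := hb (-(θ / (2 * Real.pi))) (-t / (2 * Real.pi)) ha1 ha2
    refine le_trans (le_of_eq ?_) h3
    rw [← RCLike.norm_conj, map_sum]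
    congr 1
    refine sum_congr rfl fun n _ => ?_
    rw [conj_e]
    congr 1
    ring

end Pool.Agent.D0H91.UB
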