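import Mathlib
import Pool.Agent.D0H91.UB.L2t
import Pool.Agent.D0H91.UB.Tw2
import Pool.Agent.D0H91.US.L6

/-! The metric binary additive theorem: mean square and almost every dilation. -/

set_option autoImplicit false

namespace Pool.Agent.D0H91.UB

open Finset MeasureTheory Filter Topology
open scoped ENNReal
open Pool.Agent.H376R2.MR (er)
open Pool.Agent.D0H91.MG
open Pool.Agent.D0H91.US

/-- the additive sum minus the integral -/
noncomputable def RR (a : ℕ → ℝ) (b : ℕ → ℂ) (k : ℝ) (n : ℕ) (w : ℝ) : ℂ :=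
  ∑ l ∈ Ico 1 n, (a (n - l) : ℂ) * b ⌊Real.exp (k * w) * (l : ℝ) ^ k⌋₊ - ∫ u in (0 : ℝ)..n, b ⌊Real.exp (k * w) * u ^ k⌋₊

theorem RR_meas (a : ℕ → ℝ) (b : ℕ → ℂ) (k : ℝ) (n : ℕ) : Measurable (RR a b k n) := by
  unfold RR
  apply Measurable.sub
  · refine Finset.measurable_fun_sum _ fun l _ => ?_
    exact ((measurable_from_nat (f := b)).comp (Nat.measurable_floor.comp (by fun_prop))).const_mul _
  · simp only [intervalIntegral.integral_of_le (Nat.cast_nonneg n : (0 : ℝ) ≤ n)]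
    have h : Measurable (Function.uncurry fun w u : ℝ => b ⌊Real.exp (k * w) * u ^ k⌋₊) := by
      apply (measurable_from_nat (f := b)).comp
      apply Nat.measurable_floor.comp
      apply Measurable.mul
      · exact Real.measurable_exp.comp (measurable_fst.const_mul k)
      · exact measurable_snd.pow_const k
    exact (h.stronglyMeasurable.integral_prod_right).measurable

theorem Wv_key (b : ℕ → ℂ) (hb0 : b 0 = 0) {k : ℝ} (hk : 0 < k) {X2 N : ℕ} {w : ℝ}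
    (hX : ⌊Real.exp (k * w) * (N : ℝ) ^ k⌋₊ ≤ X2) (u : ℝ) (hu0 : 0 < u) (huN : u ≤ N) :
    Wv b k 1 1 0 X2 (w + Real.log u) = b ⌊Real.exp (k * w) * u ^ k⌋₊ := by
  have e1 : Real.exp (k * (w + Real.log u)) = Real.exp (k * w) * u ^ k := by
    rw [Real.rpow_def_of_pos hu0, ← Real.exp_add]
    congr 1
    ring
  rw [Wv_val b hb0 hk, e1]
  rw [e1]
  refine le_trans (Nat.floor_le_floor ?_) hX
  exact mul_le_mul_of_nonneg_left (Real.rpow_le_rpow hu0.le huN hk.le) (Real.exp_pos _).le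

theorem RR_eq (a : ℕ → ℝ) (b : ℕ → ℂ) (hb0 : b 0 = 0) {k : ℝ} (hk : 0 < k) {X2 N n : ℕ} {w : ℝ} (hn : n ≤ N)
    (hX : ⌊Real.exp (k * w) * (N : ℝ) ^ k⌋₊ ≤ X2) (δ : ℝ) :
    RR a b k n w = ∑ l ∈ Ico 1 n, (a (n - l) : ℂ) * Dd (Wv b k 1 1 0 X2) δ w l +
      (∑ l ∈ Ico 1 n, (a (n - l) : ℂ) * (((1 / δ : ℝ) : ℂ) * Ph (Wv b k 1 1 0 X2) δ (w + Real.log l)) -
        JJ (Wv b k 1 1 0 X2) n w) := by
  have hnN : (n : ℝ) ≤ N := by exact_mod_cast hn
  have e1 : ∫ u in (0 : ℝ)..n, b ⌊Real.exp (k * w) * u ^ k⌋₊ = JJ (Wv b k 1 1 0 X2) n w := by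
    unfold JJ
    apply intervalIntegral.integral_congr_ae
    refine Filter.Eventually.of_forall fun u hu => ?_
    rw [Set.uIoc_of_le (Nat.cast_nonneg n)] at hu
    rw [Wv_key b hb0 hk hX u hu.1 (hu.2.trans hnN)]
  unfold RR
  rw [e1, ← add_sub_assoc]
  congr 1
  rw [← Finset.sum_add_distrib]
  refine Finset.sum_congr rfl fun l hl => ?_
  rw [Finset.mem_Ico] at hl
  rw [← Wv_key b hb0 hk hX l (by exact_mod_cast hl.1) (le_trans (by exact_mod_cast hl.2.le) hnN)]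
  unfold Dd
  ring

theorem Ph_meas (B : ℝ → ℂ) (hm : Measurable B) {Λ : ℝ} (hB : ∀ y, ‖B y‖ ≤ Λ) (δ : ℝ) : Measurable (Ph B δ) := by
  have hΛ : 0 ≤ Λ := (norm_nonneg _).trans (hB 0)
  have hl : LipschitzWith (Real.toNNReal (2 * Λ)) (Ph B δ) := by
    apply LipschitzWith.of_dist_le_mul
    intro y y'
    rw [dist_eq_norm, Real.dist_eq, Real.coe_toNNReal _ (by positivity)]
    exact Ph_lip B hm hB δ y y'
  exact hl.continuous.measurable

theorem Dd_meas (B : ℝ → ℂ) (hm : Measurable B) {Λ : ℝ} (hB : ∀ y, ‖B y‖ ≤ Λ) (δ : ℝ) (l : ℕ) :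
    Measurable fun w => Dd B δ w l := by
  unfold Dd
  apply Measurable.sub
  · exact hm.comp (by fun_prop)
  · exact ((Ph_meas B hm hB δ).comp (by fun_prop)).const_mul _

/-- the mean square -/
theorem ub_l2 (hPAR : S_PAR) (hMTE : S_MTE) (a : ℕ → ℝ) (ha : Mean1 a) (E : ℕ) (haE : ∀ m : ℕ, |a m| ≤ Real.log (m + 3) ^ E)
    (b : ℕ → ℂ) (hb0 : b 0 = 0) (hbE : ∀ m : ℕ, ‖b m‖ ≤ Real.log (m + 3) ^ E) (k : ℝ) (hk : 0 < k) (A : ℕ) (w0 : ℝ) :
    ∀ᶠ N : ℕ in atTop, ∫⁻ w in Set.Icc w0 (w0 + 1), ∑ n ∈ Icc 1 N, ‖RR a b k n w‖ₑ ^ 2 ≤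
      ENNReal.ofReal (N ^ 3 / Real.log N ^ A) := by
  obtain ⟨B0, hB0⟩ := l2t tws k hk (A + 4 * E + 1)
  obtain ⟨B1, hB1⟩ : ∃ B1, B1 = B0 + (A + E + 1) + 1 := ⟨_, rfl⟩
  filter_upwards [hB0 B1 (by omega), hMTE a ha (A + E + 1) B1 (by omega), ev_logge 1,
    ev_logge (4 * ((k + 2) ^ (2 * E) * 4 ^ E)), ev_logge (4 * (k + 2) ^ (2 * E)),
    eventually_ge_atTop (⌈Real.exp (k * (w0 + 1))⌉₊ + 7)] with N h1 h2 h3 h4 h5 hN
  obtain ⟨L, hL⟩ : ∃ L, L = Real.log (N : ℝ) := ⟨_, rfl⟩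
  rw [← hL] at h1 h2 h3 h4 h5
  rw [← hL]
  have hN7 : (7 : ℝ) ≤ N := by exact_mod_cast (by omega : 7 ≤ N)
  have hNe : Real.exp (k * (w0 + 1)) ≤ N := by
    have a1 := Nat.le_ceil (Real.exp (k * (w0 + 1)))
    have a2 : ((⌈Real.exp (k * (w0 + 1))⌉₊ : ℕ) : ℝ) ≤ N := by
      exact_mod_cast (by omega : ⌈Real.exp (k * (w0 + 1))⌉₊ ≤ N)
    linarith
  have hN0 : (0 : ℝ) < N := by linarith
  have hN1 : (1 : ℝ) ≤ N := by linarith
  have hL0 : 0 < L := by linarith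
  obtain ⟨X2, hX2⟩ : ∃ X2 : ℕ, X2 = ⌊(N : ℝ) ^ (k + 1)⌋₊ := ⟨_, rfl⟩
  have hX2a : (X2 : ℝ) ≤ (N : ℝ) ^ (k + 1) := by
    rw [hX2]
    exact Nat.floor_le (by positivity)
  have hX : ∀ w ∈ Set.Icc w0 (w0 + 1), ⌊Real.exp (k * w) * (N : ℝ) ^ k⌋₊ ≤ X2 := by
    intro w hw
    rw [hX2]
    apply Nat.floor_le_floor
    rw [Real.rpow_add_one hN0.ne', mul_comm]
    apply mul_le_mul_of_nonneg_left _ (by positivity)
    refine le_trans (Real.exp_le_exp.2 ?_) hNe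
    exact mul_le_mul_of_nonneg_left hw.2 hk.le
  obtain ⟨Λ, hΛ⟩ : ∃ Λ, Λ = ((k + 2) * L) ^ E := ⟨_, rfl⟩
  have hΛ0 : 0 < Λ := by
    rw [hΛ]
    positivity
  have hbΛ : ∀ m ∈ Ioc 0 X2, ‖b m‖ ≤ Λ := by
    intro m hm
    rw [Finset.mem_Ioc] at hm
    refine (hbE m).trans ?_
    rw [hΛ]
    apply pow_le_pow_left₀ (by
      apply Real.log_nonneg
      have : (0 : ℝ) ≤ m := Nat.cast_nonneg m
      linarith)
    have e1 : (m : ℝ) + 3 ≤ (N : ℝ) ^ (k + 2) := by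
      have e2 : (N : ℝ) ^ (k + 2) = (N : ℝ) ^ (k + 1) * N := by
        rw [← Real.rpow_add_one hN0.ne']
        congr 1
        ring
      have e3 : 1 ≤ (N : ℝ) ^ (k + 1) := Real.one_le_rpow hN1 (by linarith)
      have e4 : (m : ℝ) ≤ (N : ℝ) ^ (k + 1) := le_trans (by exact_mod_cast hm.2) hX2a
      rw [e2]
      nlinarith
    have e5 := Real.log_le_log (by positivity) e1
    rwa [Real.log_rpow hN0, ← hL] at e5
  have hm1 : ∀ m : ℕ, 0 < m → 1 ≤ (m : ℝ) + 1 - (1 : ℕ) := by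
    intro m hm
    have : (1 : ℝ) ≤ m := by exact_mod_cast hm
    push_cast
    linarith
  obtain ⟨B, hB⟩ : ∃ B : ℝ → ℂ, B = Wv b k 1 1 0 X2 := ⟨_, rfl⟩
  have hBb : ∀ y, ‖B y‖ ≤ Λ := by
    intro y
    rw [hB]
    have h := Wv_bd b hk zero_le_one le_rfl hΛ0.le (y := 1) hm1 hbΛ y
    rw [Nat.cast_one, one_mul] at h
    exact h
  have hBm : Measurable B := by
    rw [hB]
    unfold Wv
    refine Finset.measurable_fun_sum _ fun m _ => ?_
    exact measurable_const.indicator measurableSet_Ico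
  obtain ⟨δ, hδ⟩ : ∃ δ, δ = 1 / L ^ B1 := ⟨_, rfl⟩
  obtain ⟨M, hM⟩ : ∃ M, M = Λ ^ 2 * N ^ 2 / L ^ (A + 4 * E + 1) := ⟨_, rfl⟩
  have hM0 : 0 ≤ M := by
    rw [hM]
    positivity
  have hfour : ∀ θ : ℝ, ∫⁻ w in Set.Icc w0 (w0 + 1), ‖∑ l ∈ Icc 1 N, er θ l * Dd B δ w l‖ₑ ^ 2 ≤ ENNReal.ofReal M := by
    intro θ
    have e1 := h1 b Λ hΛ0.le X2 hX2a hbΛ θ
    rw [← hB, ← hδ, ← hM] at e1
    exact (setLIntegral_le_lintegral _ _).trans e1
  have hpar := hPAR N (Set.Icc w0 (w0 + 1)) measurableSet_Icc (fun m => (a m : ℂ)) (fun w l => Dd B δ w l)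
    (fun l => Dd_meas B hBm hBb δ l) M hM0 hfour
  obtain ⟨R, hR⟩ : ∃ R, R = Λ * (N / L ^ (A + E + 1)) := ⟨_, rfl⟩
  have hmt : ∀ w : ℝ, ∀ n ∈ Icc 1 N, ‖∑ l ∈ Ico 1 n, (a (n - l) : ℂ) * (((1 / δ : ℝ) : ℂ) * Ph B δ (w + Real.log l)) -
      JJ B n w‖ ≤ R := by
    intro w n hn
    obtain ⟨F, hF⟩ : ∃ F : ℝ → ℂ, F = fun y => ((1 / Λ : ℝ) : ℂ) * B y := ⟨_, rfl⟩
    have hFm : Measurable F := by
      rw [hF]
      exact hBm.const_mul _
    have hFb : ∀ y, ‖F y‖ ≤ 1 := by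
      intro y
      rw [hF]
      simp only
      rw [norm_mul, Complex.norm_real, Real.norm_eq_abs, abs_of_pos (by positivity), one_div, inv_mul_le_one₀ hΛ0]
      exact hBb y
    have e1 := h2 F hFm hFb w n hn
    have hPF : ∀ y, Ph F (1 / L ^ B1) y = ((1 / Λ : ℝ) : ℂ) * Ph B (1 / L ^ B1) y := by
      intro y
      unfold Ph
      rw [hF]
      simp only
      rw [intervalIntegral.integral_const_mul]
    have hJF : JJ F n w = ((1 / Λ : ℝ) : ℂ) * JJ B n w := by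
      unfold JJ
      rw [hF]
      simp only
      rw [intervalIntegral.integral_const_mul]
    have hdd : (1 / δ : ℝ) = L ^ B1 := by
      rw [hδ, one_div_one_div]
    have hΛC : (Λ : ℂ) ≠ 0 := by exact_mod_cast hΛ0.ne'
    have e2 : ∑ l ∈ Ico 1 n, (a (n - l) : ℂ) * (((1 / δ : ℝ) : ℂ) * Ph B δ (w + Real.log l)) - JJ B n w =
        (Λ : ℂ) * (∑ l ∈ Ico 1 n, (a (n - l) : ℂ) * (((L ^ B1 : ℝ) : ℂ) * Ph F (1 / L ^ B1) (w + Real.log l)) - JJ F n w) := by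
      rw [hJF, hdd, hδ, mul_sub, Finset.mul_sum]
      congr 1
      · refine Finset.sum_congr rfl fun l _ => ?_
        rw [hPF]
        push_cast
        field_simp
      · push_cast
        field_simp
    rw [e2, norm_mul, Complex.norm_real, Real.norm_eq_abs, abs_of_pos hΛ0, hR]
    exact mul_le_mul_of_nonneg_left e1 hΛ0.le
  have hpt : ∀ w ∈ Set.Icc w0 (w0 + 1), ∑ n ∈ Icc 1 N, ‖RR a b k n w‖ₑ ^ 2 ≤
      2 * (∑ n ∈ Icc 1 N, ‖∑ l ∈ Ico 1 n, (a (n - l) : ℂ) * Dd B δ w l‖ₑ ^ 2) + ENNReal.ofReal (N * (2 * R ^ 2)) := by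
    intro w hw
    have e1 : ∀ n ∈ Icc 1 N, ‖RR a b k n w‖ₑ ^ 2 ≤
        2 * ‖∑ l ∈ Ico 1 n, (a (n - l) : ℂ) * Dd B δ w l‖ₑ ^ 2 + ENNReal.ofReal (2 * R ^ 2) := by
      intro n hn
      have hn' := (Finset.mem_Icc.1 hn).2
      rw [RR_eq a b hb0 hk hn' (hX w hw) δ, ← hB]
      exact enorm_add_sq _ _ R (hmt w n hn)
    refine (Finset.sum_le_sum e1).trans ?_
    rw [Finset.sum_add_distrib, ← Finset.mul_sum, Finset.sum_const, Nat.card_Icc, Nat.add_sub_cancel, nsmul_eq_mul,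
      ENNReal.ofReal_mul (Nat.cast_nonneg N), ENNReal.ofReal_natCast]
  have hsm : Measurable fun w => ∑ n ∈ Icc 1 N, ‖∑ l ∈ Ico 1 n, (a (n - l) : ℂ) * Dd B δ w l‖ₑ ^ 2 := by
    refine Finset.measurable_fun_sum _ fun n _ => ?_
    refine Measurable.pow_const (Measurable.enorm ?_) 2
    refine Finset.measurable_fun_sum _ fun l _ => ?_
    exact (Dd_meas B hBm hBb δ l).const_mul _
  have hsa : ∑ m ∈ Icc 1 N, ‖(a m : ℂ)‖ ^ 2 ≤ N * (2 * L) ^ (2 * E) := by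
    calc ∑ m ∈ Icc 1 N, ‖(a m : ℂ)‖ ^ 2 ≤ ∑ m ∈ Icc 1 N, (2 * L) ^ (2 * E) := by
          refine Finset.sum_le_sum fun m hm => ?_
          rw [Finset.mem_Icc] at hm
          rw [Complex.norm_real, Real.norm_eq_abs, mul_comm 2 E, pow_mul]
          apply pow_le_pow_left₀ (abs_nonneg _)
          refine (haE m).trans ?_
          apply pow_le_pow_left₀ (by
            apply Real.log_nonneg
            have : (0 : ℝ) ≤ m := Nat.cast_nonneg m
            linarith)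
          have e1 : (m : ℝ) + 3 ≤ (N : ℝ) ^ 2 := by
            have : (m : ℝ) ≤ N := by exact_mod_cast hm.2
            nlinarith
          have e2 := Real.log_le_log (by positivity) e1
          rw [Real.log_pow, ← hL] at e2
          exact_mod_cast e2
      _ = _ := by
          rw [Finset.sum_const, Nat.card_Icc, Nat.add_sub_cancel, nsmul_eq_mul]
  calc ∫⁻ w in Set.Icc w0 (w0 + 1), ∑ n ∈ Icc 1 N, ‖RR a b k n w‖ₑ ^ 2 ≤
      ∫⁻ w in Set.Icc w0 (w0 + 1), (2 * (∑ n ∈ Icc 1 N, ‖∑ l ∈ Ico 1 n, (a (n - l) : ℂ) * Dd B δ w l‖ₑ ^ 2) +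
        ENNReal.ofReal (N * (2 * R ^ 2))) := setLIntegral_mono' measurableSet_Icc fun w hw => hpt w hw
    _ = 2 * (∫⁻ w in Set.Icc w0 (w0 + 1), ∑ n ∈ Icc 1 N, ‖∑ l ∈ Ico 1 n, (a (n - l) : ℂ) * Dd B δ w l‖ₑ ^ 2) +
        ENNReal.ofReal (N * (2 * R ^ 2)) := by
        rw [lintegral_add_right _ measurable_const, lintegral_const_mul _ hsm, setLIntegral_const, Real.volume_Icc]
        simp
    _ ≤ 2 * ENNReal.ofReal (M * ∑ m ∈ Icc 1 N, ‖(a m : ℂ)‖ ^ 2) + ENNReal.ofReal (N * (2 * R ^ 2)) := by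
        gcongr
    _ = ENNReal.ofReal (2 * (M * ∑ m ∈ Icc 1 N, ‖(a m : ℂ)‖ ^ 2) + N * (2 * R ^ 2)) := by
        rw [show (2 : ℝ≥0∞) = ENNReal.ofReal 2 by simp, ← ENNReal.ofReal_mul (by norm_num),
          ← ENNReal.ofReal_add (by positivity) (by positivity)]
    _ ≤ ENNReal.ofReal (N ^ 3 / L ^ A) := by
        apply ENNReal.ofReal_le_ofReal
        have t1 : 2 * (M * ∑ m ∈ Icc 1 N, ‖(a m : ℂ)‖ ^ 2) ≤ N ^ 3 / L ^ A * (1 / 2) := by
          calc 2 * (M * ∑ m ∈ Icc 1 N, ‖(a m : ℂ)‖ ^ 2) ≤ 2 * (M * (N * (2 * L) ^ (2 * E))) := by gcongr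
            _ = N ^ 3 / L ^ A * ((4 * ((k + 2) ^ (2 * E) * 4 ^ E)) / L) * (1 / 2) := by
                have q1 : (2 * L) ^ (2 * E) = 4 ^ E * (L ^ E) ^ 2 := by
                  rw [mul_comm 2 E, pow_mul (2 * L) E 2, mul_pow, mul_pow, ← pow_mul 2 E 2, mul_comm E 2, pow_mul 2 2 E]
                  norm_num
                have q2 : (k + 2) ^ (2 * E) = ((k + 2) ^ E) ^ 2 := by
                  rw [← pow_mul, mul_comm E 2]
                have q3 : L ^ (A + 4 * E + 1) = L ^ A * (L ^ E) ^ 4 * L := by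
                  rw [← pow_mul, ← pow_add, ← pow_succ, mul_comm E 4]
                rw [hM, hΛ, q1, q2, q3, mul_pow (k + 2) L E]
                have q4 : 0 < L ^ E := by positivity
                field_simp
                ring
            _ ≤ N ^ 3 / L ^ A * 1 * (1 / 2) := by
                gcongr
                rw [div_le_one hL0]
                exact h4
            _ = _ := by ring
        have t2 : (N : ℝ) * (2 * R ^ 2) ≤ N ^ 3 / L ^ A * (1 / 2) := by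
          calc (N : ℝ) * (2 * R ^ 2) = N ^ 3 / L ^ A * ((4 * (k + 2) ^ (2 * E)) / L ^ (A + 2)) * (1 / 2) := by
                have q2 : (k + 2) ^ (2 * E) = ((k + 2) ^ E) ^ 2 := by
                  rw [← pow_mul, mul_comm E 2]
                have q3 : L ^ (A + E + 1) = L ^ A * L ^ E * L := by
                  rw [← pow_add, ← pow_succ]
                have q5 : L ^ (A + 2) = L ^ A * L ^ 2 := pow_add _ _ _
                rw [hR, hΛ, q2, q3, q5, mul_pow (k + 2) L E]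
                field_simp
                ring
            _ ≤ N ^ 3 / L ^ A * 1 * (1 / 2) := by
                gcongr
                rw [div_le_one (by positivity)]
                refine h5.trans ?_
                calc L = L ^ 1 := (pow_one L).symm
                  _ ≤ L ^ (A + 2) := pow_le_pow_right₀ h3 (by omega)
            _ = _ := by ring
        linarith

end Pool.Agent.D0H91.UB
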