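import Mathlib
import Pool.Agent.D0H91.UB.Asm

/-! Borel–Cantelli along powers of two. -/

set_option autoImplicit false

namespace Pool.Agent.D0H91.UB

open Finset MeasureTheory Filter Topology
open scoped ENNReal
open Pool.Agent.D0H91.MG

/-- the exceptional count -/
noncomputable def Ex (f : ℕ → ℝ) (A N : ℕ) : ℕ := ((Icc 1 N).filter fun n => (N : ℝ) / Real.log N ^ A < f n).card

theorem det_dy (f : ℕ → ℝ) (hf : ∀ n, 0 ≤ f n) (A : ℕ)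
    (h : ∀ᶠ i : ℕ in atTop, ∑ n ∈ Icc 1 (2 ^ i), f n ^ 2 ≤ ((2 : ℝ) ^ i) ^ 3 / Real.log ((2 : ℝ) ^ i) ^ (3 * A + 3)) :
    ∀ᶠ N : ℕ in atTop, (Ex f A N : ℝ) ≤ N / Real.log N ^ A := by
  obtain ⟨i0, hi0⟩ := h.exists_forall_of_atTop
  filter_upwards [eventually_ge_atTop (2 ^ (i0 + 1) + 2), ev_logge 2] with N hN hL2
  have hN2 : 2 ≤ N := by
    have : 0 < 2 ^ (i0 + 1) := by positivity
    omega
  have hNr : (2 : ℝ) ≤ N := by exact_mod_cast hN2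
  have hN0 : (0 : ℝ) < N := by linarith
  obtain ⟨i, hi⟩ : ∃ i, i = Nat.log 2 N + 1 := ⟨_, rfl⟩
  have h1 : N ≤ 2 ^ i := by
    rw [hi]
    exact (Nat.lt_pow_succ_log_self (by norm_num) N).le
  have h2 : 2 ^ i ≤ 2 * N := by
    rw [hi, pow_succ, mul_comm]
    exact Nat.mul_le_mul_left 2 (Nat.pow_log_le_self 2 (by omega))
  have h3 : i0 ≤ i := by
    by_contra hc
    push Not at hc
    have : 2 ^ i ≤ 2 ^ i0 := Nat.pow_le_pow_right (by norm_num) hc.le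
    have h4 : 2 ^ (i0 + 1) = 2 * 2 ^ i0 := by rw [pow_succ, mul_comm]
    omega
  have h5 := hi0 i h3
  obtain ⟨X, hX⟩ : ∃ X : ℝ, X = (2 : ℝ) ^ i := ⟨_, rfl⟩
  have hXn : ((2 ^ i : ℕ) : ℝ) = X := by
    rw [hX]
    push_cast
    rfl
  have hNX : (N : ℝ) ≤ X := by
    rw [← hXn]
    exact_mod_cast h1
  have hX2 : X ≤ 2 * N := by
    rw [← hXn]
    exact_mod_cast h2
  rw [← hX] at h5
  obtain ⟨L, hL⟩ : ∃ L, L = Real.log (N : ℝ) := ⟨_, rfl⟩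
  obtain ⟨ℓ, hℓ⟩ : ∃ ℓ, ℓ = Real.log X := ⟨_, rfl⟩
  rw [← hL] at hL2
  rw [← hℓ] at h5
  rw [← hL]
  have hLl : L ≤ ℓ := by
    rw [hL, hℓ]
    exact Real.log_le_log hN0 hNX
  have hL0 : 0 < L := by linarith
  have hℓ0 : 0 < ℓ := by linarith
  have hX0 : 0 < X := by linarith
  have hc : X / ℓ ^ (A + 1) ≤ N / L ^ A := by
    calc X / ℓ ^ (A + 1) ≤ (2 * N) / L ^ (A + 1) := by gcongr
      _ = N / L ^ A * (2 / L) := by
          rw [pow_succ]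
          field_simp
      _ ≤ N / L ^ A * 1 := by
          gcongr
          rw [div_le_one hL0]
          exact hL2
      _ = _ := mul_one _
  have h6 : (Ex f A N : ℝ) * (X / ℓ ^ (A + 1)) ^ 2 ≤ X ^ 3 / ℓ ^ (3 * A + 3) := by
    refine le_trans ?_ h5
    unfold Ex
    rw [← hL, ← nsmul_eq_mul, ← Finset.sum_const]
    calc ∑ n ∈ (Icc 1 N).filter (fun n => (N : ℝ) / L ^ A < f n), (X / ℓ ^ (A + 1)) ^ 2 ≤
        ∑ n ∈ (Icc 1 N).filter (fun n => (N : ℝ) / L ^ A < f n), f n ^ 2 := by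
          refine Finset.sum_le_sum fun n hn => ?_
          rw [Finset.mem_filter] at hn
          apply pow_le_pow_left₀ (by positivity)
          linarith [hn.2]
      _ ≤ ∑ n ∈ Icc 1 (2 ^ i), f n ^ 2 := by
          refine Finset.sum_le_sum_of_subset_of_nonneg ?_ fun n _ _ => sq_nonneg _
          intro n hn
          rw [Finset.mem_filter, Finset.mem_Icc] at hn
          rw [Finset.mem_Icc]
          omega
  have h7 : (Ex f A N : ℝ) ≤ X / ℓ ^ (A + 1) := by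
    have h8 : 0 < (X / ℓ ^ (A + 1)) ^ 2 := by positivity
    rw [← le_div_iff₀ h8] at h6
    refine h6.trans (le_of_eq ?_)
    rw [show 3 * A + 3 = (A + 1) * 3 by ring, pow_mul]
    field_simp
  exact h7.trans hc

theorem bc (F : ℕ → ℝ → ℂ) (hFm : ∀ n, Measurable (F n)) (w0 : ℝ)
    (H : ∀ A : ℕ, ∀ᶠ N : ℕ in atTop, ∫⁻ w in Set.Icc w0 (w0 + 1), ∑ n ∈ Icc 1 N, ‖F n w‖ₑ ^ 2 ≤
      ENNReal.ofReal (N ^ 3 / Real.log N ^ A)) :
    ∀ᵐ w ∂(volume.restrict (Set.Icc w0 (w0 + 1))), ∀ A : ℕ, ∀ᶠ N : ℕ in atTop,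
      (Ex (fun n => ‖F n w‖) A N : ℝ) ≤ N / Real.log N ^ A := by
  rw [ae_all_iff]
  intro A
  set Ω : Set ℝ := Set.Icc w0 (w0 + 1) with hΩ
  obtain ⟨N1, hN1⟩ := (H (3 * A + 5)).exists_forall_of_atTop
  obtain ⟨G, hG⟩ : ∃ G : ℕ → ℝ → ℝ≥0∞, G = fun i w =>
    ENNReal.ofReal (Real.log ((2 : ℝ) ^ (i + (N1 + 1))) ^ (3 * A + 3) / ((2 : ℝ) ^ (i + (N1 + 1))) ^ 3) *
      ∑ n ∈ Icc 1 (2 ^ (i + (N1 + 1))), ‖F n w‖ₑ ^ 2 := ⟨_, rfl⟩
  have hSm : ∀ N : ℕ, Measurable fun w => ∑ n ∈ Icc 1 N, ‖F n w‖ₑ ^ 2 := by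
    intro N
    refine Finset.measurable_fun_sum _ fun n _ => ?_
    exact (hFm n).enorm.pow_const 2
  have hGm : ∀ i, Measurable (G i) := by
    intro i
    rw [hG]
    exact (hSm _).const_mul _
  have hGi : ∀ i, ∫⁻ w in Ω, G i w ≤ ENNReal.ofReal (4 * ((i + 1 : ℕ) : ℝ) ^ (-2 : ℝ)) := by
    intro i
    obtain ⟨j, hj⟩ : ∃ j, j = i + (N1 + 1) := ⟨_, rfl⟩
    rw [hG]
    simp only [← hj]
    rw [lintegral_const_mul _ (hSm _)]
    have hjN : N1 ≤ 2 ^ j := by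
      have : j < 2 ^ j := Nat.lt_two_pow_self
      omega
    have h1 := hN1 (2 ^ j) hjN
    have h2 : ((2 ^ j : ℕ) : ℝ) = (2 : ℝ) ^ j := by push_cast; rfl
    rw [h2] at h1
    refine (mul_le_mul_right h1 _).trans ?_
    have hlog : Real.log ((2 : ℝ) ^ j) = j * Real.log 2 := Real.log_pow _ _
    have hj1 : (1 : ℝ) ≤ j := by
      have : 1 ≤ j := by omega
      exact_mod_cast this
    have hl2 := Real.log_two_gt_d9
    have hlp : 0 < Real.log ((2 : ℝ) ^ j) := by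
      rw [hlog]
      positivity
    rw [← ENNReal.ofReal_mul (by positivity)]
    apply ENNReal.ofReal_le_ofReal
    have e1 : Real.log ((2 : ℝ) ^ j) ^ (3 * A + 3) / ((2 : ℝ) ^ j) ^ 3 *
        (((2 : ℝ) ^ j) ^ 3 / Real.log ((2 : ℝ) ^ j) ^ (3 * A + 5)) = 1 / Real.log ((2 : ℝ) ^ j) ^ 2 := by
      have q : Real.log ((2 : ℝ) ^ j) ^ (3 * A + 5) = Real.log ((2 : ℝ) ^ j) ^ (3 * A + 3) * Real.log ((2 : ℝ) ^ j) ^ 2 := by
        rw [← pow_add]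
      rw [q]
      field_simp
    rw [e1, hlog, Real.rpow_neg (by positivity), ← div_eq_mul_inv, div_le_div_iff₀ (by positivity) (by positivity), one_mul,
      show (2 : ℝ) = ((2 : ℕ) : ℝ) by norm_num, Real.rpow_natCast]
    have h3 : ((i + 1 : ℕ) : ℝ) ≤ j := by exact_mod_cast (by omega : i + 1 ≤ j)
    have h4 : ((i + 1 : ℕ) : ℝ) ≤ 2 * (j * Real.log ((2 : ℕ) : ℝ)) := by
      push_cast at h3 ⊢
      nlinarith
    calc ((i + 1 : ℕ) : ℝ) ^ 2 ≤ (2 * (j * Real.log ((2 : ℕ) : ℝ))) ^ 2 := pow_le_pow_left₀ (by positivity) h4 2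
      _ = 4 * (j * Real.log ((2 : ℕ) : ℝ)) ^ 2 := by ring
  have hsum0 : Summable (fun i : ℕ => 4 * ((i + 1 : ℕ) : ℝ) ^ (-2 : ℝ)) := by
    have h1 : Summable (fun N : ℕ => (N : ℝ) ^ (-2 : ℝ)) := Real.summable_nat_rpow.2 (by norm_num)
    exact ((summable_nat_add_iff (f := fun N : ℕ => (N : ℝ) ^ (-2 : ℝ)) 1).2 h1).mul_left 4
  have hfin : ∫⁻ w in Ω, ∑' i, G i w ≠ ⊤ := by
    rw [lintegral_tsum fun i => (hGm i).aemeasurable]
    refine ne_of_lt (lt_of_le_of_lt (ENNReal.tsum_le_tsum hGi) ?_)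
    exact hsum0.tsum_ofReal_lt_top
  have hae := ae_lt_top (Measurable.tsum hGm) hfin
  filter_upwards [hae] with w hw
  apply det_dy _ (fun n => norm_nonneg _)
  have ht := ENNReal.tendsto_atTop_zero_of_tsum_ne_top hw.ne
  have h1 : ∀ᶠ i : ℕ in atTop, G i w ≤ 1 := ht.eventually_le_const (by norm_num)
  obtain ⟨i1, hi1⟩ := h1.exists_forall_of_atTop
  filter_upwards [eventually_ge_atTop (i1 + (N1 + 1))] with i hi
  have h2 := hi1 (i - (N1 + 1)) (by omega)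
  rw [hG] at h2
  simp only [show i - (N1 + 1) + (N1 + 1) = i by omega] at h2
  have hj1 : (1 : ℝ) ≤ i := by
    have : 1 ≤ i := by omega
    exact_mod_cast this
  have hl2 := Real.log_two_gt_d9
  have hlp : 0 < Real.log ((2 : ℝ) ^ i) := by
    rw [Real.log_pow]
    positivity
  have e2 : ∑ n ∈ Icc 1 (2 ^ i), ‖F n w‖ₑ ^ 2 = ENNReal.ofReal (∑ n ∈ Icc 1 (2 ^ i), ‖F n w‖ ^ 2) := by
    rw [ENNReal.ofReal_sum_of_nonneg fun n _ => sq_nonneg _]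
    refine Finset.sum_congr rfl fun n _ => ?_
    rw [ENNReal.ofReal_pow (norm_nonneg _), ofReal_norm]
  rw [e2, ← ENNReal.ofReal_mul (by positivity), ← ENNReal.ofReal_one, ENNReal.ofReal_le_ofReal_iff (by norm_num)] at h2
  rw [div_mul_eq_mul_div, div_le_one (by positivity)] at h2
  rw [le_div_iff₀ (by positivity), mul_comm]
  exact h2

/-- **Metric binary additive theorem** (given the three modules). -/
theorem ub_ae' (hPAR : S_PAR) (hMTE : S_MTE) (a : ℕ → ℝ) (ha : Mean1 a) (E : ℕ) (haE : ∀ m : ℕ, |a m| ≤ Real.log (m + 3) ^ E)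
    (b : ℕ → ℂ) (hb0 : b 0 = 0) (hbE : ∀ m : ℕ, ‖b m‖ ≤ Real.log (m + 3) ^ E) (k : ℝ) (hk : 0 < k) :
    ∀ᵐ α : ℝ, 0 < α → ∀ A : ℕ, ∀ᶠ N : ℕ in atTop,
      (Ex (fun n => ‖∑ l ∈ Ico 1 n, (a (n - l) : ℂ) * b ⌊α * (l : ℝ) ^ k⌋₊ - ∫ u in (0 : ℝ)..n, b ⌊α * u ^ k⌋₊‖) A N : ℝ) ≤
        N / Real.log N ^ A := by
  apply ae_of_exp (P := fun α => ∀ A : ℕ, ∀ᶠ N : ℕ in atTop,
      (Ex (fun n => ‖∑ l ∈ Ico 1 n, (a (n - l) : ℂ) * b ⌊α * (l : ℝ) ^ k⌋₊ - ∫ u in (0 : ℝ)..n, b ⌊α * u ^ k⌋₊‖) A N : ℝ) ≤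
        N / Real.log N ^ A) hk
  have h1 : ∀ᵐ w : ℝ, ∀ z : ℤ, w ∈ Set.Icc (z : ℝ) (z + 1) → ∀ A : ℕ, ∀ᶠ N : ℕ in atTop,
      (Ex (fun n => ‖RR a b k n w‖) A N : ℝ) ≤ N / Real.log N ^ A := by
    rw [ae_all_iff]
    intro z
    exact (ae_restrict_iff' measurableSet_Icc).1 (bc (fun n w => RR a b k n w) (fun n => RR_meas a b k n) z
      (fun A => ub_l2 hPAR hMTE a ha E haE b hb0 hbE k hk A z))
  filter_upwards [h1] with w hw
  exact hw ⌊w⌋ ⟨Int.floor_le w, (Int.lt_floor_add_one w).le⟩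

end Pool.Agent.D0H91.UB
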