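import Mathlib
import Pool.Agent.D0H91.UB.Bc
import Pool.Agent.D0H91.UB.Ipw
import Pool.Agent.D0H91.US.App

/-! Tools for the applications. -/

set_option autoImplicit false

namespace Pool.Agent.D0H91.UB

open Finset MeasureTheory Filter Topology
open Pool.Agent.D0H91.MG
open Pool.Agent.D0H91.US

theorem fl_ii' (g : ℕ → ℂ) {x y : ℝ} (hx : 0 ≤ x) (hxy : x ≤ y) :
    IntervalIntegrable (fun v : ℝ => g ⌊v⌋₊) volume x y := by
  have hm : Measurable fun v : ℝ => g ⌊v⌋₊ := (measurable_from_nat (f := g)).comp Nat.measurable_floor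
  rw [intervalIntegrable_iff, Set.uIoc_of_le hxy]
  refine Measure.integrableOn_of_bounded (M := ∑ m ∈ range (⌊y⌋₊ + 1), ‖g m‖) (by simp) hm.aestronglyMeasurable ?_
  refine (ae_restrict_iff' measurableSet_Ioc).2 (Filter.Eventually.of_forall fun u hu => ?_)
  refine Finset.single_le_sum (f := fun m => ‖g m‖) (fun _ _ => norm_nonneg _) ?_
  rw [Finset.mem_range, Nat.lt_succ_iff]
  exact Nat.floor_le_floor hu.2

theorem fl_piece (g : ℕ → ℂ) (M : ℕ) {y : ℝ} (hy : (M : ℝ) ≤ y) (hy1 : y ≤ ((M + 1 : ℕ) : ℝ)) :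
    ∫ v in (M : ℝ)..y, g ⌊v⌋₊ = ((y - M : ℝ) : ℂ) * g M := by
  have h2 : ∫ v in (M : ℝ)..y, g ⌊v⌋₊ = ∫ v in (M : ℝ)..y, g M := by
    apply intervalIntegral.integral_congr_ae
    have h3 : ∀ᵐ x : ℝ, x ≠ ((M + 1 : ℕ) : ℝ) := by
      rw [ae_iff]
      simp
    filter_upwards [h3] with x hx hx2
    rw [Set.uIoc_of_le hy] at hx2
    have h4 : ⌊x⌋₊ = M := by
      rw [Nat.floor_eq_iff (by have := hx2.1; have : (0 : ℝ) ≤ M := Nat.cast_nonneg M; linarith)]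
      refine ⟨hx2.1.le, ?_⟩
      have h5 := lt_of_le_of_ne (hx2.2.trans hy1) hx
      push_cast at h5
      exact h5
    rw [h4]
  rw [h2, intervalIntegral.integral_const, Complex.real_smul]

theorem fl_int (g : ℕ → ℂ) (M : ℕ) : ∫ v in (0 : ℝ)..M, g ⌊v⌋₊ = ∑ m ∈ range M, g m := by
  induction M with
  | zero => simp
  | succ M ih =>
    have h1 := intervalIntegral.integral_add_adjacent_intervals (fl_ii' g le_rfl (Nat.cast_nonneg M))
      (fl_ii' g (Nat.cast_nonneg M) (show (M : ℝ) ≤ ((M + 1 : ℕ) : ℝ) by push_cast; linarith))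
    rw [← h1, ih, fl_piece g M (by push_cast; linarith) le_rfl, Finset.sum_range_succ]
    push_cast
    ring

/-- the integral of the samples -/
theorem fl_scale (g : ℕ → ℂ) {α : ℝ} (hα : 0 < α) (n : ℕ) :
    ‖(∫ u in (0 : ℝ)..n, g ⌊α * u ^ (1 : ℝ)⌋₊) - ((1 / α : ℝ) : ℂ) * ∑ m ∈ range ⌊α * n⌋₊, g m‖ ≤ 1 / α * ‖g ⌊α * n⌋₊‖ := by
  have e1 : ∫ u in (0 : ℝ)..n, g ⌊α * u ^ (1 : ℝ)⌋₊ = ((1 / α : ℝ) : ℂ) * ∫ v in (0 : ℝ)..(α * n), g ⌊v⌋₊ := by
    have h1 := intervalIntegral.integral_comp_mul_left (a := 0) (b := (n : ℝ)) (fun v : ℝ => g ⌊v⌋₊) hα.ne'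
    rw [mul_zero, Complex.real_smul] at h1
    simp only [Real.rpow_one]
    rw [h1]
    congr 1
    rw [one_div]
  have hx0 : 0 ≤ α * n := by positivity
  have hf1 := Nat.floor_le hx0
  have hf2 := (Nat.lt_floor_add_one (α * (n : ℝ))).le
  have h2 := intervalIntegral.integral_add_adjacent_intervals (fl_ii' g le_rfl (Nat.cast_nonneg ⌊α * (n : ℝ)⌋₊))
    (fl_ii' g (Nat.cast_nonneg ⌊α * (n : ℝ)⌋₊) hf1)
  rw [e1, ← h2, fl_int, fl_piece g _ hf1 (by push_cast; exact hf2), ← mul_sub, add_sub_cancel_left, norm_mul, norm_mul,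
    Complex.norm_real, Complex.norm_real, Real.norm_eq_abs, Real.norm_eq_abs, abs_of_pos (by positivity),
    abs_of_nonneg (by linarith)]
  apply mul_le_mul_of_nonneg_left _ (by positivity)
  calc (α * n - ⌊α * (n : ℝ)⌋₊) * ‖g ⌊α * (n : ℝ)⌋₊‖ ≤ 1 * ‖g ⌊α * (n : ℝ)⌋₊‖ := by
        apply mul_le_mul_of_nonneg_right _ (norm_nonneg _)
        linarith
    _ = _ := one_mul _

theorem ex_mono {f g : ℕ → ℝ} {A B N : ℕ} (h : ∀ n ∈ Icc 1 N, (N : ℝ) / Real.log N ^ A < f n → (N : ℝ) / Real.log N ^ B < g n) :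
    Ex f A N ≤ Ex g B N := by
  unfold Ex
  apply Finset.card_le_card
  intro n hn
  rw [Finset.mem_filter] at hn ⊢
  exact ⟨hn.1, h n hn.1 hn.2⟩

/-- logarithms at `α N` -/
theorem log_scale {α : ℝ} (hα : 0 < α) : ∀ᶠ N : ℕ in atTop, ∀ m : ℕ, (m : ℝ) ≤ α * N → Real.log ((m : ℝ) + 3) ≤ 2 * Real.log N := by
  filter_upwards [eventually_ge_atTop (⌈α⌉₊ + 4)] with N hN m hm
  have h1 : α ≤ ⌈α⌉₊ := Nat.le_ceil α
  have h2 : ((⌈α⌉₊ : ℕ) : ℝ) + 4 ≤ N := by exact_mod_cast hN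
  have hN0 : (0 : ℝ) < N := by
    have : (0 : ℝ) ≤ ((⌈α⌉₊ : ℕ) : ℝ) := Nat.cast_nonneg _
    linarith
  have h3 : (m : ℝ) + 3 ≤ (N : ℝ) ^ 2 := by nlinarith
  have h4 := Real.log_le_log (by positivity) h3
  rw [Real.log_pow] at h4
  exact_mod_cast h4

/-- the main term for mean one -/
theorem mt_one (g : ℕ → ℝ) (hg : Mean1 g) (hg0 : g 0 = 0) (E : ℕ) (hgE : ∀ m : ℕ, |g m| ≤ Real.log (m + 3) ^ E) {α : ℝ} (hα : 0 < α)
    (A : ℕ) : ∀ᶠ N : ℕ in atTop, ∀ n : ℕ, n ≤ N →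
      ‖(∫ u in (0 : ℝ)..n, (g ⌊α * u ^ (1 : ℝ)⌋₊ : ℂ)) - n‖ ≤ N / Real.log N ^ A := by
  obtain ⟨K, hK⟩ : ∃ K : ℕ, K = ⌈α⌉₊ + 1 := ⟨_, rfl⟩
  have hK1 : 1 ≤ K := by omega
  have hKα : α ≤ K := by
    rw [hK]
    push_cast
    linarith [Nat.le_ceil α]
  have ht : Tendsto (fun N : ℕ => K * N) atTop atTop := tendsto_id.const_mul_atTop' (by omega)
  have h1 := ht.eventually (mean_sup g hg (A + 1))
  filter_upwards [h1, log_scale hα, ev_logge (4 * K / α), ev_logge 1,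
    Pool.Agent.W301.SS.ev_log (A + E) (4 * 2 ^ E / α + 8 / α) 1 (by norm_num), eventually_ge_atTop 2] with
    N h1 h2 h3 h4 h5 hN n hn
  obtain ⟨L, hL⟩ : ∃ L, L = Real.log (N : ℝ) := ⟨_, rfl⟩
  rw [← hL] at h2 h3 h4 h5
  rw [Real.rpow_one] at h5
  rw [← hL]
  have hN2 : (2 : ℝ) ≤ N := by exact_mod_cast hN
  have hN0 : (0 : ℝ) < N := by linarith
  have hL0 : 0 < L := by linarith
  have hnN : (n : ℝ) ≤ N := by exact_mod_cast hn
  have hK0 : (0 : ℝ) < K := by exact_mod_cast hK1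
  obtain ⟨y, hy⟩ : ∃ y : ℕ, y = ⌊α * (n : ℝ)⌋₊ := ⟨_, rfl⟩
  have hy1 : (y : ℝ) ≤ α * n := by
    rw [hy]
    exact Nat.floor_le (by positivity)
  have hy2 : α * n ≤ y + 1 := by
    rw [hy]
    exact (Nat.lt_floor_add_one _).le
  have hyN : (y : ℝ) ≤ α * N := hy1.trans (mul_le_mul_of_nonneg_left hnN hα.le)
  have hyK : y ≤ K * N := by
    have : (y : ℝ) ≤ K * N := hyN.trans (mul_le_mul_of_nonneg_right hKα hN0.le)
    exact_mod_cast this
  have hgy : |g y| ≤ (2 * L) ^ E := by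
    refine (hgE y).trans ?_
    apply pow_le_pow_left₀ (by linarith [one_le_log y])
    exact h2 y hyN
  have hs : |∑ m ∈ range y, g m - y| ≤ K * (N / L ^ (A + 1)) + 1 := by
    rcases Nat.eq_zero_or_pos y with h0 | h0
    · rw [h0]
      simp
      positivity
    · have e1 : ∑ m ∈ range y, g m = ∑ m ∈ Icc 1 (y - 1), g m := by
        have e2 : range y = insert 0 (Icc 1 (y - 1)) := by
          ext m
          simp only [Finset.mem_range, Finset.mem_insert, Finset.mem_Icc]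
          omega
        rw [e2, Finset.sum_insert (by simp), hg0, zero_add]
      have e3 : ∑ m ∈ Icc 1 (y - 1), g m - y = ∑ m ∈ Icc 1 (y - 1), (g m - 1) - 1 := by
        rw [Finset.sum_sub_distrib, Finset.sum_const, Nat.card_Icc, Nat.add_sub_cancel, nsmul_eq_mul, mul_one,
          Nat.cast_sub h0, Nat.cast_one]
        ring
      rw [e1, e3]
      have e4 := h1 (y - 1) (by omega)
      have e5 : ((K * N : ℕ) : ℝ) / Real.log ((K * N : ℕ) : ℝ) ^ (A + 1) ≤ K * (N / L ^ (A + 1)) := by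
        push_cast
        rw [mul_div_assoc]
        apply mul_le_mul_of_nonneg_left _ hK0.le
        apply div_le_div_of_nonneg_left hN0.le (by positivity)
        apply pow_le_pow_left₀ hL0.le
        rw [hL]
        apply Real.log_le_log hN0
        have : (1 : ℝ) ≤ K := by exact_mod_cast hK1
        nlinarith
      refine (abs_sub _ _).trans ?_
      rw [abs_one]
      linarith
  have hsc := fl_scale (fun m => (g m : ℂ)) hα n
  rw [← hy] at hsc
  have e6 : (∫ u in (0 : ℝ)..n, (g ⌊α * u ^ (1 : ℝ)⌋₊ : ℂ)) - n =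
      ((∫ u in (0 : ℝ)..n, (g ⌊α * u ^ (1 : ℝ)⌋₊ : ℂ)) - ((1 / α : ℝ) : ℂ) * ∑ m ∈ range y, (g m : ℂ)) +
      (((1 / α) * ((∑ m ∈ range y, g m - y) + (y - α * n)) : ℝ) : ℂ) := by
    have hαC : (α : ℂ) ≠ 0 := by exact_mod_cast hα.ne'
    push_cast
    field_simp
    ring
  rw [e6]
  refine (norm_add_le _ _).trans ?_
  rw [Complex.norm_real, Real.norm_eq_abs, abs_mul, abs_of_pos (show 0 < 1 / α by positivity)]
  have h6 : |(∑ m ∈ range y, g m - y) + (y - α * n)| ≤ K * (N / L ^ (A + 1)) + 2 := by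
    refine (abs_add_le _ _).trans ?_
    have : |(y : ℝ) - α * n| ≤ 1 := by
      rw [abs_le]
      constructor <;> linarith
    linarith
  have h7 : ‖(g y : ℂ)‖ ≤ (2 * L) ^ E := by
    rw [Complex.norm_real, Real.norm_eq_abs]
    exact hgy
  have h8 : 1 / α * ‖(g y : ℂ)‖ ≤ 1 / α * (2 * L) ^ E := mul_le_mul_of_nonneg_left h7 (by positivity)
  have h9 : 1 / α * |(∑ m ∈ range y, g m - y) + (y - α * n)| ≤ 1 / α * (K * (N / L ^ (A + 1)) + 2) :=
    mul_le_mul_of_nonneg_left h6 (by positivity)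
  have t1 : 1 / α * (K * (N / L ^ (A + 1))) ≤ N / L ^ A * (1 / 4) := by
    calc 1 / α * (K * (N / L ^ (A + 1))) = N / L ^ A * ((4 * K / α) / L) * (1 / 4) := by
          rw [pow_succ]
          field_simp
      _ ≤ N / L ^ A * 1 * (1 / 4) := by
          gcongr
          rw [div_le_one hL0]
          exact h3
      _ = _ := by ring
  have t2 : 1 / α * (2 * L) ^ E ≤ N / L ^ A * (1 / 4) := by
    rw [div_mul_eq_mul_div (N : ℝ), le_div_iff₀ (by positivity), mul_pow]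
    rw [pow_add] at h5
    have h10 : 0 ≤ 8 / α * (L ^ A * L ^ E) := by positivity
    calc 1 / α * (2 ^ E * L ^ E) * L ^ A = (4 * 2 ^ E / α) * (L ^ A * L ^ E) * (1 / 4) := by ring
      _ ≤ N * (1 / 4) := by
          apply mul_le_mul_of_nonneg_right _ (by norm_num)
          linarith
  have t3 : 1 / α * 2 ≤ N / L ^ A * (1 / 4) := by
    rw [div_mul_eq_mul_div (N : ℝ), le_div_iff₀ (by positivity)]
    rw [pow_add] at h5
    have h10 : 0 ≤ 4 * 2 ^ E / α * (L ^ A * L ^ E) := by positivity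
    have h11 : 1 ≤ L ^ E := one_le_pow₀ h4
    calc 1 / α * 2 * L ^ A = (8 / α) * (L ^ A * 1) * (1 / 4) := by ring
      _ ≤ (8 / α) * (L ^ A * L ^ E) * (1 / 4) := by gcongr
      _ ≤ N * (1 / 4) := by
          apply mul_le_mul_of_nonneg_right _ (by norm_num)
          linarith
  have h12 : 0 ≤ (N : ℝ) / L ^ A := by positivity
  calc _ ≤ 1 / α * (2 * L) ^ E + 1 / α * (K * (N / L ^ (A + 1)) + 2) := add_le_add (hsc.trans h8) h9
    _ = 1 / α * (2 * L) ^ E + 1 / α * (K * (N / L ^ (A + 1))) + 1 / α * 2 := by ring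
    _ ≤ _ := by linarith

end Pool.Agent.D0H91.UB
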