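import Mathlib
import Pool.Agent.D0H91.UB.Fin

/-! The weights of iterated primes, pointwise; and the number of representations. -/

set_option autoImplicit false

namespace Pool.Agent.D0H91.UB

open Finset MeasureTheory Filter Topology
open Pool.Agent.D0H91.MG
open Pool.Agent.D0H91.US

theorem wp_le' (a : ℕ) : ∀ m : ℕ, 1 ≤ m → WP a m ≤ Real.log m ^ (a + 1) := by
  induction a with
  | zero =>
    intro m hm
    unfold WP
    rw [zero_add, pow_one]
    split_ifs
    · exact le_rfl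
    · exact Real.log_natCast_nonneg m
  | succ a ih =>
    intro m hm
    unfold WP
    split_ifs with hp
    · obtain ⟨h1, _⟩ := nth_pc m hp
      rw [pow_succ, mul_comm]
      apply mul_le_mul_of_nonneg_right _ (Real.log_natCast_nonneg m)
      refine (ih _ h1).trans ?_
      apply pow_le_pow_left₀ (Real.log_natCast_nonneg _)
      apply Real.log_le_log (by exact_mod_cast h1)
      exact_mod_cast pc_le m
    · have := Real.log_natCast_nonneg m
      positivity

theorem theta_pc : ∀ x : ℕ, 1 ≤ x → ∑ m ∈ Icc 1 x, WP 0 m ≤ Nat.primeCounting x * Real.log x := by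
  intro x hx
  induction x, hx using Nat.le_induction with
  | base => simp [WP, Nat.not_prime_one]
  | succ x hx ih =>
    rw [Finset.sum_Icc_succ_top (by omega), pc_succ]
    have hx0 : (0 : ℝ) < x := by exact_mod_cast hx
    have h1 : Real.log x ≤ Real.log ((x + 1 : ℕ) : ℝ) := Real.log_le_log hx0 (by push_cast; linarith)
    have h2 : (Nat.primeCounting x : ℝ) * Real.log x ≤ Nat.primeCounting x * Real.log ((x + 1 : ℕ) : ℝ) :=
      mul_le_mul_of_nonneg_left h1 (Nat.cast_nonneg _)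
    unfold WP at ih ⊢
    split_ifs with hp
    · push_cast at h2 ⊢
      linarith
    · push_cast at h2 ⊢
      linarith

theorem pc_low (ε : ℝ) (hε : 0 < ε) : ∀ᶠ m : ℕ in atTop, (1 - ε) * Real.log m ≤ Real.log (Nat.primeCounting m) := by
  filter_upwards [mean_sup (WP 0) wp0 1, ev_logge 2, Pool.Agent.W301.SS.ev_log 1 2 ε hε, eventually_ge_atTop 2] with
    m h1 h2 h3 hm
  have hm2 : (2 : ℝ) ≤ m := by exact_mod_cast hm
  have hm0 : (0 : ℝ) < m := by linarith
  obtain ⟨L, hL⟩ : ∃ L, L = Real.log (m : ℝ) := ⟨_, rfl⟩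
  rw [← hL] at h1 h2 h3
  rw [← hL]
  have hL0 : 0 < L := by linarith
  have h4 := h1 m le_rfl
  rw [Finset.sum_sub_distrib, Finset.sum_const, Nat.card_Icc, Nat.add_sub_cancel, nsmul_eq_mul, mul_one, pow_one] at h4
  have h5 : (m : ℝ) / 2 ≤ ∑ j ∈ Icc 1 m, WP 0 j := by
    have h6 : (m : ℝ) / L ≤ m / 2 := div_le_div_of_nonneg_left hm0.le (by norm_num) h2
    have h7 := (abs_le.1 h4).1
    linarith
  have h8 := theta_pc m (by omega)
  rw [← hL] at h8
  have h9 : (m : ℝ) ^ (1 - ε) ≤ Nat.primeCounting m := by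
    rw [pow_one] at h3
    have h10 : (m : ℝ) ≤ Nat.primeCounting m * (2 * L) := by linarith
    have h11 : (m : ℝ) ^ (1 - ε) * (m : ℝ) ^ ε = m := by
      rw [← Real.rpow_add hm0]
      norm_num
    have h12 : (Nat.primeCounting m : ℝ) * (2 * L) ≤ Nat.primeCounting m * (m : ℝ) ^ ε :=
      mul_le_mul_of_nonneg_left h3 (Nat.cast_nonneg _)
    have h13 : (m : ℝ) ^ (1 - ε) * (m : ℝ) ^ ε ≤ Nat.primeCounting m * (m : ℝ) ^ ε := by linarith
    exact le_of_mul_le_mul_right h13 (by positivity)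
  have h14 := Real.log_le_log (by positivity) h9
  rwa [Real.log_rpow hm0, ← hL] at h14

theorem ip_pos (a i : ℕ) (hi : 0 < i) : 0 < ip a i := by
  unfold ip
  rw [Function.iterate_succ_apply']
  exact (Nat.prime_nth_prime _).pos

theorem pc_nth (j : ℕ) (hj : 0 < j) : Nat.primeCounting (Nat.nth Nat.Prime (j - 1)) = j := by
  have hp := Nat.prime_nth_prime (j - 1)
  have h1 : Nat.primeCounting (Nat.nth Nat.Prime (j - 1)) = Nat.primeCounting' (Nat.nth Nat.Prime (j - 1)) + 1 := by
    unfold Nat.primeCounting Nat.primeCounting'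
    rw [Nat.count_succ, if_pos hp]
  rw [h1, Nat.primeCounting'_nth_eq]
  omega

theorem pow_bern {η : ℝ} (hη0 : 0 ≤ η) (hη1 : η ≤ 1) (n : ℕ) : 1 - n * η ≤ (1 - η) ^ n := by
  have h := one_add_mul_le_pow (a := -η) (by linarith) n
  calc 1 - n * η = 1 + n * (-η) := by ring
    _ ≤ (1 + -η) ^ n := h
    _ = _ := by ring

theorem wp_ge (a : ℕ) : ∀ ε : ℝ, 0 < ε → ε ≤ 1 → ∃ m0 : ℕ, ∀ m : ℕ, m0 ≤ m → (∃ i : ℕ, 0 < i ∧ ip a i = m) →
    (1 - ε) * Real.log m ^ (a + 1) ≤ WP a m := by
  induction a with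
  | zero =>
    intro ε hε hε1
    refine ⟨0, fun m _ hm => ?_⟩
    obtain ⟨i, hi0, hi⟩ := hm
    have hp : m.Prime := by
      rw [← hi]
      exact Nat.prime_nth_prime _
    unfold WP
    rw [if_pos hp, zero_add, pow_one]
    have := Real.log_natCast_nonneg m
    nlinarith
  | succ a ih =>
    intro ε hε hε1
    obtain ⟨η, hη⟩ : ∃ η, η = ε / (a + 3) := ⟨_, rfl⟩
    have ha0 : (0 : ℝ) ≤ a := Nat.cast_nonneg a
    have hη0 : 0 < η := by
      rw [hη]
      positivity
    have hη1 : η ≤ 1 := by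
      rw [hη, div_le_one (by positivity)]
      linarith
    obtain ⟨m1, hm1⟩ := ih η hη0 hη1
    have ht : Tendsto Nat.primeCounting atTop atTop := Nat.tendsto_primeCounting
    obtain ⟨m0, hm0⟩ := ((ht.eventually (eventually_ge_atTop m1)).and
      ((pc_low η hη0).and (eventually_ge_atTop 1))).exists_forall_of_atTop
    refine ⟨m0, fun m hm hi => ?_⟩
    obtain ⟨i, hi0, hi⟩ := hi
    obtain ⟨h1, h2, h3⟩ := hm0 m hm
    have hj : Nat.nth Nat.Prime (ip a i - 1) = m := by
      rw [← hi]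
      unfold ip
      rw [Function.iterate_succ_apply' _ (a + 1)]
    have hp : m.Prime := by
      rw [← hj]
      exact Nat.prime_nth_prime _
    have hpc : Nat.primeCounting m = ip a i := by
      rw [← hj]
      exact pc_nth _ (ip_pos a i hi0)
    have h4 := hm1 (Nat.primeCounting m) h1 ⟨i, hi0, hpc.symm⟩
    have hL := Real.log_natCast_nonneg m
    have h5 : (1 - η) * ((1 - η) * Real.log m) ^ (a + 1) ≤ WP a (Nat.primeCounting m) := by
      refine le_trans (mul_le_mul_of_nonneg_left ?_ (by linarith)) h4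
      exact pow_le_pow_left₀ (mul_nonneg (by linarith) hL) h2 _
    have h6 : 1 - ε ≤ (1 - η) * (1 - η) ^ (a + 1) := by
      rw [← pow_succ']
      refine le_trans ?_ (pow_bern hη0.le hη1 (a + 1 + 1))
      have : ((a + 1 + 1 : ℕ) : ℝ) * η ≤ ε := by
        rw [hη, mul_div_assoc', div_le_iff₀ (by positivity)]
        push_cast
        nlinarith
      linarith
    unfold WP
    rw [if_pos hp]
    calc (1 - ε) * Real.log m ^ (a + 1 + 1) ≤ ((1 - η) * (1 - η) ^ (a + 1)) * Real.log m ^ (a + 1 + 1) := by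
          apply mul_le_mul_of_nonneg_right h6
          positivity
      _ = Real.log m * ((1 - η) * ((1 - η) * Real.log m) ^ (a + 1)) := by
          rw [mul_pow, pow_succ (Real.log m) (a + 1)]
          ring
      _ ≤ _ := mul_le_mul_of_nonneg_left h5 hL

open Classical in
/-- the `l < n` such that `n - l` is an `a`-prime and `⌊α l⌋` is a `b`-prime -/
noncomputable def Rs (a b : ℕ) (α : ℝ) (n : ℕ) : Finset ℕ :=
  (Ico 1 n).filter fun l => (∃ x : ℕ, 0 < x ∧ ip a x = n - l) ∧ ∃ y : ℕ, 0 < y ∧ ip b y = ⌊α * l⌋₊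

/-- the weighted number of representations -/
noncomputable def Ws (a b : ℕ) (α : ℝ) (n : ℕ) : ℝ := ∑ l ∈ Ico 1 n, WP a (n - l) * WP b ⌊α * l⌋₊

theorem Ws_le (a b : ℕ) {α : ℝ} (hα : 0 < α) (n : ℕ) (hn : 1 ≤ n) (hαn : 1 ≤ α * n) :
    Ws a b α n ≤ (Rs a b α n).card * (Real.log n ^ (a + 1) * Real.log (α * n) ^ (b + 1)) := by
  classical
  have hn1 : (1 : ℝ) ≤ n := by exact_mod_cast hn
  have h1 : Ws a b α n = ∑ l ∈ Rs a b α n, WP a (n - l) * WP b ⌊α * l⌋₊ := by
    unfold Ws Rs
    symm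
    apply Finset.sum_subset (Finset.filter_subset _ _)
    intro l hl hl2
    by_contra hne
    apply hl2
    rw [Finset.mem_filter]
    exact ⟨hl, wp_supp a _ (left_ne_zero_of_mul hne), wp_supp b _ (right_ne_zero_of_mul hne)⟩
  rw [h1, ← nsmul_eq_mul, ← Finset.sum_const]
  refine Finset.sum_le_sum fun l hl => ?_
  unfold Rs at hl
  rw [Finset.mem_filter, Finset.mem_Ico] at hl
  obtain ⟨⟨hl1, hl2⟩, -, y, hy0, hy⟩ := hl
  have hlog0 : 0 ≤ Real.log n := Real.log_natCast_nonneg n
  have hlog1 : 0 ≤ Real.log (α * n) := Real.log_nonneg hαn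
  have hq : 1 ≤ ⌊α * (l : ℝ)⌋₊ := by
    rw [← hy]
    exact ip_pos b y hy0
  apply mul_le_mul _ _ (wp_nonneg _ _) (by positivity)
  · refine (wp_le' a (n - l) (by omega)).trans ?_
    apply pow_le_pow_left₀ (Real.log_natCast_nonneg _)
    apply Real.log_le_log (by exact_mod_cast (by omega : 0 < n - l))
    exact_mod_cast (by omega : n - l ≤ n)
  · refine (wp_le' b _ hq).trans ?_
    apply pow_le_pow_left₀ (Real.log_natCast_nonneg _)
    apply Real.log_le_log (by exact_mod_cast hq)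
    refine (Nat.floor_le (by positivity)).trans ?_
    apply mul_le_mul_of_nonneg_left _ hα.le
    exact_mod_cast hl2.le

theorem Ws_ge (a b : ℕ) {α : ℝ} (hα : 0 < α) (n h : ℕ) (T : ℝ) (hT : 0 ≤ T)
    (hm : ∀ m : ℕ, h < m → m ≤ n → (∃ x : ℕ, 0 < x ∧ ip a x = m) → ∀ l : ℕ, h < l → l ≤ n → (∃ y : ℕ, 0 < y ∧ ip b y = ⌊α * l⌋₊) →
      T ≤ WP a m * WP b ⌊α * l⌋₊) : ((Rs a b α n).card : ℝ) * T ≤ Ws a b α n + 2 * h * T := by
  classical
  obtain ⟨P, hP⟩ : ∃ P : Finset ℕ, P = (Rs a b α n).filter fun l => h < n - l ∧ h < l := ⟨_, rfl⟩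
  have h1 : (P.card : ℝ) * T ≤ Ws a b α n := by
    unfold Ws
    rw [← nsmul_eq_mul, ← Finset.sum_const]
    calc ∑ l ∈ P, T ≤ ∑ l ∈ P, WP a (n - l) * WP b ⌊α * l⌋₊ := by
          refine Finset.sum_le_sum fun l hl => ?_
          rw [hP, Finset.mem_filter] at hl
          obtain ⟨hl, hl3, hl4⟩ := hl
          unfold Rs at hl
          rw [Finset.mem_filter, Finset.mem_Ico] at hl
          exact hm (n - l) hl3 (by omega) hl.2.1 l hl4 hl.1.2.le hl.2.2
      _ ≤ _ := by
          apply Finset.sum_le_sum_of_subset_of_nonneg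
          · intro l hl
            rw [hP, Finset.mem_filter] at hl
            unfold Rs at hl
            exact (Finset.mem_filter.1 hl.1).1
          · intro l _ _
            exact mul_nonneg (wp_nonneg _ _) (wp_nonneg _ _)
  have h2 : (Rs a b α n).card ≤ P.card + 2 * h := by
    have h3 : Rs a b α n ⊆ P ∪ (Ico (n - h) n ∪ Icc 1 h) := by
      intro l hl
      have hl' := hl
      unfold Rs at hl
      rw [Finset.mem_filter, Finset.mem_Ico] at hl
      simp only [Finset.mem_union, Finset.mem_Ico, Finset.mem_Icc]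
      by_cases h4 : h < n - l ∧ h < l
      · left
        rw [hP, Finset.mem_filter]
        exact ⟨hl', h4⟩
      · right
        omega
    refine (Finset.card_le_card h3).trans ((Finset.card_union_le _ _).trans ?_)
    have h5 := Finset.card_union_le (Ico (n - h) n) (Icc 1 h)
    rw [Nat.card_Ico, Nat.card_Icc] at h5
    omega
  have h6 : ((Rs a b α n).card : ℝ) ≤ P.card + 2 * h := by exact_mod_cast h2
  calc ((Rs a b α n).card : ℝ) * T ≤ (P.card + 2 * h) * T := mul_le_mul_of_nonneg_right h6 hT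
    _ = P.card * T + 2 * h * T := by ring
    _ ≤ _ := by linarith

end Pool.Agent.D0H91.UB
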