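import Mathlib
import Pool.Agent.D0H91.UB.Cnt

/-! Almost every `α`: almost all `n` are an `a`-prime plus `l` with `⌊α l⌋` a `b`-prime, with the asymptotic formula. -/

set_option autoImplicit false

namespace Pool.Agent.D0H91.UB

open Finset MeasureTheory Filter Topology
open Pool.Agent.D0H91.MG
open Pool.Agent.D0H91.US

theorem ig_weights (hPAR : S_PAR) (a b : ℕ) : ∀ᵐ α : ℝ, 0 < α → ∀ A : ℕ, ∀ᶠ N : ℕ in atTop,
    (Ex (fun n => |Ws a b α n - n|) A N : ℝ) ≤ N / Real.log N ^ A := by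
  obtain ⟨E, hE⟩ : ∃ E, E = a + b + 2 := ⟨_, rfl⟩
  have hup : ∀ (c : ℕ), c + 1 ≤ E → ∀ m : ℕ, |WP c m| ≤ Real.log (m + 3) ^ E := by
    intro c hc m
    rw [abs_of_nonneg (wp_nonneg c m)]
    exact (wp_le c m).trans (pow_le_pow_right₀ (one_le_log m) hc)
  have hm := fun c => wp_mean wp0 c
  have hb0 : ∀ c, WP c 0 = 0 := by
    intro c
    cases c with
    | zero => simp [WP, Nat.not_prime_zero]
    | succ c => simp [WP, Nat.not_prime_zero]
  have h1 := ub_ae' hPAR mte (WP a) (hm a) E (hup a (by omega)) (fun m => (WP b m : ℂ)) (by simp [hb0]) (fun m => by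
    rw [Complex.norm_real, Real.norm_eq_abs]
    exact hup b (by omega) m) 1 one_pos
  filter_upwards [h1] with α hα hα0 A
  filter_upwards [hα hα0 (A + 1), mt_one (WP b) (hm b) (hb0 b) E (hup b (by omega)) hα0 (A + 1), ev_logge 2,
    eventually_ge_atTop 2] with N h2 h3 h4 hN
  have hN2 : (2 : ℝ) ≤ N := by exact_mod_cast hN
  obtain ⟨L, hL⟩ : ∃ L, L = Real.log (N : ℝ) := ⟨_, rfl⟩
  have hL' : Real.log (N : ℝ) = L := hL.symm
  rw [hL'] at h2 h3 h4
  rw [hL']
  have hL0 : 0 < L := by linarith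
  have e1 : 2 * ((N : ℝ) / L ^ (A + 1)) ≤ N / L ^ A := by
    calc 2 * ((N : ℝ) / L ^ (A + 1)) = N / L ^ A * (2 / L) := by
          rw [pow_succ]
          field_simp
      _ ≤ N / L ^ A * 1 := by
          gcongr
          rw [div_le_one hL0]
          exact h4
      _ = _ := mul_one _
  have hQ : 0 ≤ (N : ℝ) / L ^ (A + 1) := by positivity
  have h5 : Ex (fun n => |Ws a b α n - n|) A N ≤ Ex (fun n => ‖∑ l ∈ Ico 1 n, (WP a (n - l) : ℂ) *
      (WP b ⌊α * (l : ℝ) ^ (1 : ℝ)⌋₊ : ℂ) - ∫ u in (0 : ℝ)..n, (WP b ⌊α * u ^ (1 : ℝ)⌋₊ : ℂ)‖) (A + 1) N := by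
    apply ex_mono
    intro n hn hlt
    rw [hL'] at hlt ⊢
    have h6 := h3 n (Finset.mem_Icc.1 hn).2
    have e2 : ((Ws a b α n - n : ℝ) : ℂ) = (∑ l ∈ Ico 1 n, (WP a (n - l) : ℂ) *
        (WP b ⌊α * (l : ℝ) ^ (1 : ℝ)⌋₊ : ℂ) - ∫ u in (0 : ℝ)..n, (WP b ⌊α * u ^ (1 : ℝ)⌋₊ : ℂ)) +
        ((∫ u in (0 : ℝ)..n, (WP b ⌊α * u ^ (1 : ℝ)⌋₊ : ℂ)) - n) := by
      unfold Ws
      push_cast
      simp only [Real.rpow_one]
      ring
    have h7 := norm_add_le (∑ l ∈ Ico 1 n, (WP a (n - l) : ℂ) *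
        (WP b ⌊α * (l : ℝ) ^ (1 : ℝ)⌋₊ : ℂ) - ∫ u in (0 : ℝ)..n, (WP b ⌊α * u ^ (1 : ℝ)⌋₊ : ℂ))
        ((∫ u in (0 : ℝ)..n, (WP b ⌊α * u ^ (1 : ℝ)⌋₊ : ℂ)) - n)
    rw [← e2, Complex.norm_real, Real.norm_eq_abs] at h7
    linarith
  have h8 : (Ex (fun n => |Ws a b α n - n|) A N : ℝ) ≤ Ex (fun n => ‖∑ l ∈ Ico 1 n, (WP a (n - l) : ℂ) *
      (WP b ⌊α * (l : ℝ) ^ (1 : ℝ)⌋₊ : ℂ) - ∫ u in (0 : ℝ)..n, (WP b ⌊α * u ^ (1 : ℝ)⌋₊ : ℂ)‖) (A + 1) N := by
    exact_mod_cast h5
  linarith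

theorem ig_count (a b : ℕ) {α : ℝ} (hα : 0 < α)
    (h : ∀ A : ℕ, ∀ᶠ N : ℕ in atTop, (Ex (fun n => |Ws a b α n - n|) A N : ℝ) ≤ N / Real.log N ^ A) (ε : ℝ) (hε : 0 < ε)
    (A : ℕ) : ∀ᶠ N : ℕ in atTop, (((Icc 1 N).filter fun n : ℕ => ¬ ((1 - ε) * n ≤ (Rs a b α n).card * Real.log n ^ (a + b + 2) ∧
      (Rs a b α n).card * Real.log n ^ (a + b + 2) ≤ (1 + ε) * n)).card : ℝ) ≤ N / Real.log N ^ A := by
  obtain ⟨η, hη⟩ : ∃ η, η = min ε 1 / 16 := ⟨_, rfl⟩
  have hη0 : 0 < η := by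
    rw [hη]
    positivity
  have hη1 : η ≤ 1 / 16 := by
    rw [hη]
    linarith [min_le_right ε 1]
  have hηε : 16 * η ≤ ε := by
    rw [hη]
    linarith [min_le_left ε 1]
  obtain ⟨c, hc⟩ : ∃ c, c = a + b + 2 := ⟨_, rfl⟩
  rw [← hc]
  obtain ⟨η3, hη3⟩ : ∃ η3, η3 = η / (2 * ((c + 2 : ℕ) : ℝ)) := ⟨_, rfl⟩
  have hc2 : (2 : ℝ) ≤ ((c + 2 : ℕ) : ℝ) := by
    push_cast
    linarith [(Nat.cast_nonneg c : (0 : ℝ) ≤ c)]
  have hη30 : 0 < η3 := by
    rw [hη3]
    positivity
  have hη3c : 2 * ((c + 2 : ℕ) : ℝ) * η3 = η := by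
    rw [hη3]
    field_simp
  have hη31 : η3 ≤ 1 / 16 := by nlinarith
  obtain ⟨ma, hma⟩ := wp_ge a η3 hη30 (by linarith)
  obtain ⟨mb, hmb⟩ := wp_ge b η3 hη30 (by linarith)
  obtain ⟨j, hj⟩ : ∃ j, j = c + A + 4 := ⟨_, rfl⟩
  filter_upwards [h (A + 3), ev_logge 4, ev_logge (1 / η), Pool.Agent.W301.SS.ev_log j 1 η3 hη30,
    Pool.Agent.W301.SS.ev_log 0 (2 / α) η3 hη30, Pool.Agent.W301.SS.ev_log 0 (ma + mb + 1) (1 / 2) (by norm_num),
    Pool.Agent.W301.SS.ev_log 0 α (η3 / 2) (by positivity), Pool.Agent.W301.SS.ev_log 0 (1 / α) (1 / 2) (by norm_num),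
    eventually_ge_atTop 2] with N h1 h2 h3 h4 h5 h6 h7 h7' hN
  rw [pow_zero, mul_one] at h5 h6 h7 h7'
  rw [one_mul] at h4
  have hN2 : (2 : ℝ) ≤ N := by exact_mod_cast hN
  have hN0 : (0 : ℝ) < N := by linarith
  have hN1 : (1 : ℝ) ≤ N := by linarith
  obtain ⟨L, hL⟩ : ∃ L, L = Real.log (N : ℝ) := ⟨_, rfl⟩
  have hL' : Real.log (N : ℝ) = L := hL.symm
  rw [hL'] at h1 h2 h3 h4
  rw [hL']
  have hL0 : 0 < L := by linarith
  have hL1 : 1 ≤ L := by linarith
  -- powers
  have hPj : (N : ℝ) ^ (1 - η3) ≤ N / L ^ j := by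
    rw [le_div_iff₀ (by positivity)]
    calc (N : ℝ) ^ (1 - η3) * L ^ j ≤ (N : ℝ) ^ (1 - η3) * (N : ℝ) ^ η3 := by gcongr
      _ = N := by
          rw [← Real.rpow_add hN0]
          norm_num
  have hhalf : (N : ℝ) ^ (1 / 2 : ℝ) ≤ (N : ℝ) ^ (1 - 2 * η3) := Real.rpow_le_rpow_of_exponent_le hN1 (by linarith)
  have hhalf' : (N : ℝ) ^ (1 - 2 * η3) ≤ (N : ℝ) ^ (1 - η3) := Real.rpow_le_rpow_of_exponent_le hN1 (by linarith)
  -- main claim for good n
  have key : ∀ n ∈ Icc 1 N, (N : ℝ) / L ^ (A + 1) ≤ n → |Ws a b α n - n| ≤ N / L ^ (A + 3) →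
      (1 - ε) * n ≤ (Rs a b α n).card * Real.log n ^ c ∧ (Rs a b α n).card * Real.log n ^ c ≤ (1 + ε) * n := by
    intro n hn hn1 hn2
    rw [Finset.mem_Icc] at hn
    have hnN : (n : ℝ) ≤ N := by exact_mod_cast hn.2
    have hn0 : (0 : ℝ) < n := by exact_mod_cast hn.1
    have hnj : (N : ℝ) ^ (1 - η3) ≤ n := by
      refine hPj.trans (le_trans ?_ hn1)
      apply div_le_div_of_nonneg_left hN0.le (by positivity)
      exact pow_le_pow_right₀ hL1 (by omega)
    have hn12 : (N : ℝ) ^ (1 / 2 : ℝ) ≤ n := hhalf.trans (hhalf'.trans hnj)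
    have hlogn : Real.log n ≤ L := by
      rw [hL]
      exact Real.log_le_log hn0 hnN
    have hlogn0 : 0 ≤ Real.log n := Real.log_natCast_nonneg n
    have herr : (N : ℝ) / L ^ (A + 3) ≤ η * n := by
      calc (N : ℝ) / L ^ (A + 3) = N / L ^ (A + 1) * (1 / L ^ 2) := by
            rw [show A + 3 = (A + 1) + 2 by ring, pow_add]
            field_simp
        _ ≤ n * η := by
            apply mul_le_mul hn1 _ (by positivity) hn0.le
            rw [div_le_iff₀ (by positivity)]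
            rw [div_le_iff₀ hη0] at h3
            nlinarith
        _ = _ := mul_comm _ _
    have hW := abs_le.1 (hn2.trans herr)
    have hαn : 1 ≤ α * n := by
      have : 1 / α ≤ n := h7'.trans hn12
      rw [div_le_iff₀ hα] at this
      linarith
    constructor
    · have hle := Ws_le a b hα n hn.1 hαn
      have hlα : Real.log (α * n) ≤ (1 + η3) * Real.log n := by
        rw [Real.log_mul hα.ne' hn0.ne']
        have h8 : α ≤ (n : ℝ) ^ η3 := by
          calc α ≤ (N : ℝ) ^ (η3 / 2) := h7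
            _ = ((N : ℝ) ^ (1 / 2 : ℝ)) ^ η3 := by
                rw [← Real.rpow_mul hN0.le]
                congr 1
                ring
            _ ≤ _ := Real.rpow_le_rpow (by positivity) hn12 hη30.le
        have h9 := Real.log_le_log hα h8
        rw [Real.log_rpow hn0] at h9
        linarith
      have hlα0 : 0 ≤ Real.log (α * n) := Real.log_nonneg hαn
      have h10 : Real.log (α * n) ^ (b + 1) * (1 - η3) ^ (b + 1) ≤ Real.log n ^ (b + 1) := by
        rw [← mul_pow]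
        apply pow_le_pow_left₀ (mul_nonneg hlα0 (by linarith))
        calc Real.log (α * n) * (1 - η3) ≤ ((1 + η3) * Real.log n) * (1 - η3) :=
              mul_le_mul_of_nonneg_right hlα (by linarith)
          _ = (1 - η3 ^ 2) * Real.log n := by ring
          _ ≤ 1 * Real.log n := by
              apply mul_le_mul_of_nonneg_right _ hlogn0
              nlinarith
          _ = _ := one_mul _
      have h11 : 1 - η ≤ (1 - η3) ^ (b + 1) := by
        refine le_trans ?_ (pow_bern hη30.le (by linarith) (b + 1))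
        have h12 : ((b + 1 : ℕ) : ℝ) ≤ 2 * ((c + 2 : ℕ) : ℝ) := by
          have : b + 1 ≤ 2 * (c + 2) := by omega
          exact_mod_cast this
        have h13 := mul_le_mul_of_nonneg_right h12 hη30.le
        linarith
      obtain ⟨R, hR⟩ : ∃ R : ℝ, R = ((Rs a b α n).card : ℝ) := ⟨_, rfl⟩
      rw [← hR] at hle
      rw [← hR]
      have hR0 : 0 ≤ R := by
        rw [hR]
        positivity
      have h14 : Ws a b α n * (1 - η) ≤ R * Real.log n ^ c := by
        have h15 : 0 ≤ Ws a b α n := by linarith [hW.1, mul_nonneg (show 0 ≤ 1 - η by linarith) hn0.le]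
        calc Ws a b α n * (1 - η) ≤ Ws a b α n * (1 - η3) ^ (b + 1) := mul_le_mul_of_nonneg_left h11 h15
          _ ≤ (R * (Real.log n ^ (a + 1) * Real.log (α * n) ^ (b + 1))) * (1 - η3) ^ (b + 1) :=
              mul_le_mul_of_nonneg_right hle (pow_nonneg (by linarith) _)
          _ = R * Real.log n ^ (a + 1) * (Real.log (α * n) ^ (b + 1) * (1 - η3) ^ (b + 1)) := by ring
          _ ≤ R * Real.log n ^ (a + 1) * Real.log n ^ (b + 1) := by gcongr
          _ = R * Real.log n ^ c := by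
              rw [mul_assoc, ← pow_add, hc]
              congr 2
              ring
      refine le_trans ?_ h14
      have h16 : (1 - η) * n ≤ Ws a b α n := by linarith [hW.1]
      have h17 : (1 - η) * n * (1 - η) ≤ Ws a b α n * (1 - η) := mul_le_mul_of_nonneg_right h16 (by linarith)
      refine le_trans ?_ h17
      have h18 : 1 - ε ≤ (1 - η) * (1 - η) := by nlinarith
      calc (1 - ε) * n ≤ ((1 - η) * (1 - η)) * n := mul_le_mul_of_nonneg_right h18 hn0.le
        _ = _ := by ring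
    · obtain ⟨hh, hhh⟩ : ∃ hh : ℕ, hh = ⌊(N : ℝ) / L ^ j⌋₊ := ⟨_, rfl⟩
      have hh1 : (hh : ℝ) ≤ N / L ^ j := by
        rw [hhh]
        exact Nat.floor_le (by positivity)
      have hh2 : (N : ℝ) / L ^ j ≤ hh + 1 := by
        rw [hhh]
        exact (Nat.lt_floor_add_one _).le
      obtain ⟨T, hT⟩ : ∃ T, T = (1 - 2 * η3) ^ (c + 2) * L ^ c := ⟨_, rfl⟩
      have h12 : (0 : ℝ) ≤ 1 - 2 * η3 := by linarith
      have hT0 : 0 ≤ T := by
        rw [hT]
        positivity
      have hT1 : (1 - η) * L ^ c ≤ T := by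
        rw [hT]
        apply mul_le_mul_of_nonneg_right _ (by positivity)
        refine le_trans ?_ (pow_bern (by linarith) (by linarith) (c + 2))
        linarith
      have hT2 : T ≤ L ^ c := by
        rw [hT]
        calc _ ≤ 1 * L ^ c := by
              apply mul_le_mul_of_nonneg_right _ (by positivity)
              exact pow_le_one₀ h12 (by linarith)
          _ = _ := one_mul _
      have hlow : ∀ m : ℕ, (N : ℝ) ^ (1 - 2 * η3) ≤ m → (1 - 2 * η3) * L ≤ Real.log m := by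
        intro m hm
        have := Real.log_le_log (by positivity) hm
        rwa [Real.log_rpow hN0, hL'] at this
      have hge := Ws_ge a b hα n hh T hT0 (by
        intro m hm1 hm2 hmx l hl1 hl2 hly
        have g1 : (N : ℝ) ^ (1 - η3) ≤ m := by
          refine hPj.trans (hh2.trans ?_)
          exact_mod_cast hm1
        have g2 : (N : ℝ) ^ (1 - η3) ≤ l := by
          refine hPj.trans (hh2.trans ?_)
          exact_mod_cast hl1
        have g3 : (N : ℝ) ^ (1 - 2 * η3) ≤ (⌊α * (l : ℝ)⌋₊ : ℕ) := by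
          have g4 := (Nat.lt_floor_add_one (α * (l : ℝ))).le
          have g5 : 2 * (N : ℝ) ^ (1 - 2 * η3) ≤ α * l := by
            have g6 : (N : ℝ) ^ (1 - η3) = (N : ℝ) ^ (1 - 2 * η3) * (N : ℝ) ^ η3 := by
              rw [← Real.rpow_add hN0]
              congr 1
              ring
            calc 2 * (N : ℝ) ^ (1 - 2 * η3) = α * ((N : ℝ) ^ (1 - 2 * η3) * (2 / α)) := by
                  field_simp
              _ ≤ α * ((N : ℝ) ^ (1 - 2 * η3) * (N : ℝ) ^ η3) := by gcongr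
              _ = α * (N : ℝ) ^ (1 - η3) := by rw [g6]
              _ ≤ α * l := by gcongr
          have g7 : 1 ≤ (N : ℝ) ^ (1 - 2 * η3) := Real.one_le_rpow hN1 (by linarith)
          linarith
        have g8 : ma ≤ m := by
          have : (ma : ℝ) ≤ m := by
            have : (0 : ℝ) ≤ mb := Nat.cast_nonneg mb
            linarith
          exact_mod_cast this
        have g9 : mb ≤ ⌊α * (l : ℝ)⌋₊ := by
          have : (mb : ℝ) ≤ (⌊α * (l : ℝ)⌋₊ : ℕ) := by
            have : (0 : ℝ) ≤ ma := Nat.cast_nonneg ma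
            linarith
          exact_mod_cast this
        have g10 := hma m g8 hmx
        have g11 := hmb _ g9 hly
        have g12 := hlow m (hhalf'.trans g1)
        have g13 := hlow _ g3
        have g14 : (1 - 2 * η3) * ((1 - 2 * η3) * L) ^ (a + 1) ≤ WP a m := by
          refine le_trans ?_ g10
          apply mul_le_mul (by linarith) (pow_le_pow_left₀ (by positivity) g12 _) (by positivity) (by linarith)
        have g15 : (1 - 2 * η3) * ((1 - 2 * η3) * L) ^ (b + 1) ≤ WP b ⌊α * (l : ℝ)⌋₊ := by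
          refine le_trans ?_ g11
          apply mul_le_mul (by linarith) (pow_le_pow_left₀ (by positivity) g13 _) (by positivity) (by linarith)
        calc T = ((1 - 2 * η3) * ((1 - 2 * η3) * L) ^ (a + 1)) * ((1 - 2 * η3) * ((1 - 2 * η3) * L) ^ (b + 1)) := by
              rw [hT, hc, mul_pow, mul_pow]
              ring
          _ ≤ _ := mul_le_mul g14 g15 (by positivity) (wp_nonneg _ _))
      obtain ⟨R, hR⟩ : ∃ R : ℝ, R = ((Rs a b α n).card : ℝ) := ⟨_, rfl⟩
      rw [← hR] at hge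
      rw [← hR]
      have hR0 : 0 ≤ R := by
        rw [hR]
        positivity
      have k1 : 2 * hh * T ≤ η * n := by
        calc 2 * hh * T ≤ 2 * (N / L ^ j) * L ^ c := by gcongr
          _ = N / L ^ (A + 3) * (2 / L) := by
              rw [hj, show c + A + 4 = c + (A + 3) + 1 by ring, pow_succ, pow_add]
              field_simp
          _ ≤ N / L ^ (A + 3) * 1 := by
              gcongr
              rw [div_le_one hL0]
              linarith
          _ ≤ η * n := by rw [mul_one]; exact herr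
      have k2 : R * ((1 - η) * L ^ c) ≤ (1 + 2 * η) * n := by
        calc R * ((1 - η) * L ^ c) ≤ R * T := mul_le_mul_of_nonneg_left hT1 hR0
          _ ≤ _ := by linarith [hW.2]
      have k3 : R * L ^ c ≤ (1 + 4 * η) * n := by
        have k4 : (1 + 2 * η) * n ≤ (1 + 4 * η) * n * (1 - η) := by
          have : (1 + 2 * η) ≤ (1 + 4 * η) * (1 - η) := by nlinarith
          calc (1 + 2 * η) * n ≤ ((1 + 4 * η) * (1 - η)) * n := mul_le_mul_of_nonneg_right this hn0.le
            _ = _ := by ring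
        have k5 : (R * L ^ c) * (1 - η) ≤ (1 + 4 * η) * n * (1 - η) := by
          calc (R * L ^ c) * (1 - η) = R * ((1 - η) * L ^ c) := by ring
            _ ≤ _ := k2.trans k4
        exact le_of_mul_le_mul_right k5 (by linarith)
      calc R * Real.log n ^ c ≤ R * L ^ c := by gcongr
        _ ≤ (1 + 4 * η) * n := k3
        _ ≤ (1 + ε) * n := by
            apply mul_le_mul_of_nonneg_right _ hn0.le
            linarith
  have hcard : ((Icc 1 N).filter fun n : ℕ => ¬ ((1 - ε) * n ≤ (Rs a b α n).card * Real.log n ^ c ∧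
      (Rs a b α n).card * Real.log n ^ c ≤ (1 + ε) * n)).card ≤
      (Icc 1 ⌊(N : ℝ) / L ^ (A + 1)⌋₊).card + Ex (fun n => |Ws a b α n - n|) (A + 3) N := by
    unfold Ex
    rw [hL']
    refine le_trans (Finset.card_le_card ?_) (Finset.card_union_le _ _)
    intro n hn
    rw [Finset.mem_filter] at hn
    rw [Finset.mem_union, Finset.mem_filter, Finset.mem_Icc]
    by_contra hcon
    push Not at hcon
    obtain ⟨hc1, hc2⟩ := hcon
    apply hn.2
    apply key n hn.1
    · have g1 := hc1 (Finset.mem_Icc.1 hn.1).1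
      have g2 : (⌊(N : ℝ) / L ^ (A + 1)⌋₊ : ℝ) + 1 ≤ n := by exact_mod_cast g1
      linarith [(Nat.lt_floor_add_one ((N : ℝ) / L ^ (A + 1)))]
    · exact hc2 hn.1
  rw [Nat.card_Icc, Nat.add_sub_cancel] at hcard
  have hcard' : (((Icc 1 N).filter fun n : ℕ => ¬ ((1 - ε) * n ≤ (Rs a b α n).card * Real.log n ^ c ∧
      (Rs a b α n).card * Real.log n ^ c ≤ (1 + ε) * n)).card : ℝ) ≤
      (⌊(N : ℝ) / L ^ (A + 1)⌋₊ : ℝ) + Ex (fun n => |Ws a b α n - n|) (A + 3) N := by
    exact_mod_cast hcard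
  have q1 : (⌊(N : ℝ) / L ^ (A + 1)⌋₊ : ℝ) ≤ N / L ^ (A + 1) := Nat.floor_le (by positivity)
  have q2 : (N : ℝ) / L ^ (A + 3) ≤ N / L ^ (A + 1) := by
    apply div_le_div_of_nonneg_left hN0.le (by positivity)
    exact pow_le_pow_right₀ hL1 (by omega)
  have q3 : 2 * ((N : ℝ) / L ^ (A + 1)) ≤ N / L ^ A := by
    calc 2 * ((N : ℝ) / L ^ (A + 1)) = N / L ^ A * (2 / L) := by
          rw [pow_succ]
          field_simp
      _ ≤ N / L ^ A * 1 := by
          gcongr
          rw [div_le_one hL0]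
          linarith
      _ = _ := mul_one _
  linarith

end Pool.Agent.D0H91.UB
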