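import Mathlib
import Pool.Agent.D0H91.UB.Cnt
import Pool.Agent.D0H12.UB.Par

/-! Almost every `m`: primes `p < n` with `⌊(n - p) / m⌋` in a given set. -/

set_option autoImplicit false

namespace Pool.Agent.D0H91.UB

open Finset MeasureTheory Filter Topology
open Pool.Agent.D0H91.MG
open Pool.Agent.D0H91.US

open Classical in
/-- the primes `p < n` with `⌊(n - p) / m⌋ ∈ Q` -/
noncomputable def So (Q : Set ℕ) (m : ℝ) (n : ℕ) : Finset ℕ :=
  (range n).filter fun p => p.Prime ∧ ⌊((n : ℝ) - p) / m⌋₊ ∈ Q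

open Classical in
/-- the number of elements `< x` of `Q` -/
noncomputable def Qc (Q : Set ℕ) (x : ℝ) : ℕ := ((range ⌈x⌉₊).filter fun q => q ∈ Q).card

open Classical in
/-- indicator, zero at `0` -/
noncomputable def qi (Q : Set ℕ) (m : ℕ) : ℂ := if m ∈ Q ∧ m ≠ 0 then 1 else 0

theorem So_sum (Q : Set ℕ) {m : ℝ} (hm : 0 < m) (n : ℕ) :
    ‖((∑ p ∈ So Q m n, Real.log p : ℝ) : ℂ) - ∑ l ∈ Ico 1 n, (WP 0 (n - l) : ℂ) * qi Q ⌊1 / m * (l : ℝ) ^ (1 : ℝ)⌋₊‖ ≤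
      (m + 1) * Real.log n := by
  classical
  have e0 : ∀ l : ℕ, 1 / m * (l : ℝ) ^ (1 : ℝ) = l / m := fun l => by
    rw [Real.rpow_one]
    ring
  simp only [e0]
  have e1 : (∑ p ∈ So Q m n, Real.log p : ℝ) = ∑ l ∈ Ico 1 n, (if ⌊(l : ℝ) / m⌋₊ ∈ Q then WP 0 (n - l) else 0) := by
    unfold So
    rw [Finset.sum_filter, ← Finset.sum_subset (s₁ := Ico 1 n) (s₂ := range n)]
    · refine Finset.sum_nbij' (fun p => n - p) (fun l => n - l) ?_ ?_ ?_ ?_ ?_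
      · intro p hp
        rw [Finset.mem_Ico] at hp ⊢
        omega
      · intro p hp
        rw [Finset.mem_Ico] at hp ⊢
        omega
      · intro p hp
        rw [Finset.mem_Ico] at hp
        omega
      · intro p hp
        rw [Finset.mem_Ico] at hp
        omega
      · intro p hp
        rw [Finset.mem_Ico] at hp
        rw [show n - (n - p) = p by omega, Nat.cast_sub (by omega)]
        unfold WP
        by_cases h1 : p.Prime
        · by_cases h2 : ⌊((n : ℝ) - p) / m⌋₊ ∈ Q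
          · rw [if_pos ⟨h1, h2⟩, if_pos h2, if_pos h1]
          · rw [if_neg (fun h => h2 h.2), if_neg h2]
        · rw [if_neg (fun h => h1 h.1), if_neg h1]
          simp
    · intro p hp
      rw [Finset.mem_Ico] at hp
      rw [Finset.mem_range]
      exact hp.2
    · intro p hp hp2
      rw [Finset.mem_range] at hp
      rw [Finset.mem_Ico] at hp2
      have : p = 0 := by omega
      rw [this, if_neg (fun h => Nat.not_prime_zero h.1)]
  rw [e1]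
  have e2 : ((∑ l ∈ Ico 1 n, (if ⌊(l : ℝ) / m⌋₊ ∈ Q then WP 0 (n - l) else 0) : ℝ) : ℂ) -
      ∑ l ∈ Ico 1 n, (WP 0 (n - l) : ℂ) * qi Q ⌊(l : ℝ) / m⌋₊ =
      ∑ l ∈ Ico 1 n, (if ⌊(l : ℝ) / m⌋₊ ∈ Q ∧ ⌊(l : ℝ) / m⌋₊ = 0 then (WP 0 (n - l) : ℂ) else 0) := by
    push_cast
    rw [← Finset.sum_sub_distrib]
    refine Finset.sum_congr rfl fun l _ => ?_
    unfold qi
    by_cases h1 : ⌊(l : ℝ) / m⌋₊ ∈ Q
    · by_cases h2 : ⌊(l : ℝ) / m⌋₊ = 0
      · rw [if_pos h1, if_neg (fun h => h.2 h2), if_pos ⟨h1, h2⟩]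
        simp
      · rw [if_pos h1, if_pos ⟨h1, h2⟩, if_neg (fun h => h2 h.2)]
        simp
    · rw [if_neg h1, if_neg (fun h => h1 h.1), if_neg (fun h => h1 h.1)]
      simp
  rw [e2]
  refine (norm_sum_le _ _).trans ?_
  have hlog : 0 ≤ Real.log (n : ℝ) := Real.log_natCast_nonneg n
  calc ∑ l ∈ Ico 1 n, ‖(if ⌊(l : ℝ) / m⌋₊ ∈ Q ∧ ⌊(l : ℝ) / m⌋₊ = 0 then (WP 0 (n - l) : ℂ) else 0)‖ ≤
      ∑ l ∈ Ico 1 n, (if l ∈ range (⌊m⌋₊ + 1) then Real.log n else 0) := by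
        refine Finset.sum_le_sum fun l hl => ?_
        rw [Finset.mem_Ico] at hl
        by_cases h1 : ⌊(l : ℝ) / m⌋₊ ∈ Q ∧ ⌊(l : ℝ) / m⌋₊ = 0
        · rw [if_pos h1]
          have h2 : l ∈ range (⌊m⌋₊ + 1) := by
            rw [Finset.mem_range, Nat.lt_succ_iff]
            apply Nat.le_floor
            have h3 := Nat.floor_eq_zero.1 h1.2
            rw [div_lt_one hm] at h3
            exact h3.le
          rw [if_pos h2, Complex.norm_real, Real.norm_eq_abs, abs_of_nonneg (wp_nonneg _ _)]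
          have h4 := wp_le' 0 (n - l) (by omega)
          rw [zero_add, pow_one] at h4
          refine h4.trans (Real.log_le_log (by exact_mod_cast (by omega : 0 < n - l)) ?_)
          exact_mod_cast (by omega : n - l ≤ n)
        · rw [if_neg h1, norm_zero]
          split_ifs
          · exact hlog
          · exact le_rfl
    _ = (((Ico 1 n).filter fun l => l ∈ range (⌊m⌋₊ + 1)).card : ℝ) * Real.log n := by
        rw [← Finset.sum_filter, Finset.sum_const, nsmul_eq_mul]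
    _ ≤ _ := by
        apply mul_le_mul_of_nonneg_right _ hlog
        have h1 : ((Ico 1 n).filter fun l => l ∈ range (⌊m⌋₊ + 1)).card ≤ ⌊m⌋₊ + 1 := by
          refine (Finset.card_le_card (t := range (⌊m⌋₊ + 1)) ?_).trans (Finset.card_range _).le
          intro l hl
          exact (Finset.mem_filter.1 hl).2
        have h2 : (((Ico 1 n).filter fun l => l ∈ range (⌊m⌋₊ + 1)).card : ℝ) ≤ ⌊m⌋₊ + 1 := by exact_mod_cast h1
        linarith [Nat.floor_le hm.le]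

theorem qi_sum (Q : Set ℕ) {x : ℝ} (hx : 0 ≤ x) : ‖∑ q ∈ range ⌊x⌋₊, qi Q q - (Qc Q x : ℂ)‖ ≤ 2 := by
  classical
  have e1 : ∑ q ∈ range ⌊x⌋₊, qi Q q = ((((range ⌊x⌋₊).filter fun q => q ∈ Q ∧ q ≠ 0).card : ℕ) : ℂ) := by
    unfold qi
    rw [← Finset.sum_filter, Finset.sum_const, nsmul_eq_mul, mul_one]
  have h1 : ((range ⌊x⌋₊).filter fun q => q ∈ Q ∧ q ≠ 0).card ≤ Qc Q x := by
    unfold Qc
    apply Finset.card_le_card
    intro q hq
    rw [Finset.mem_filter, Finset.mem_range] at hq ⊢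
    exact ⟨lt_of_lt_of_le hq.1 (Nat.floor_le_ceil x), hq.2.1⟩
  have h2 : Qc Q x ≤ ((range ⌊x⌋₊).filter fun q => q ∈ Q ∧ q ≠ 0).card + 2 := by
    unfold Qc
    have h3 : (range ⌈x⌉₊).filter (fun q => q ∈ Q) ⊆ ((range ⌊x⌋₊).filter fun q => q ∈ Q ∧ q ≠ 0) ∪ {0, ⌊x⌋₊} := by
      intro q hq
      rw [Finset.mem_filter, Finset.mem_range] at hq
      rw [Finset.mem_union, Finset.mem_filter, Finset.mem_range, Finset.mem_insert, Finset.mem_singleton]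
      by_cases h4 : q = 0
      · right; left; exact h4
      · have h5 : ⌈x⌉₊ ≤ ⌊x⌋₊ + 1 := Nat.ceil_le_floor_add_one x
        rcases Nat.lt_or_ge q ⌊x⌋₊ with h6 | h6
        · left
          exact ⟨h6, hq.2, h4⟩
        · right; right
          omega
    refine (Finset.card_le_card h3).trans ((Finset.card_union_le _ _).trans ?_)
    have h4 : ({0, ⌊x⌋₊} : Finset ℕ).card ≤ 2 := Finset.card_le_two
    omega
  rw [e1]
  have e2 : ((((range ⌊x⌋₊).filter fun q => q ∈ Q ∧ q ≠ 0).card : ℕ) : ℂ) - (Qc Q x : ℂ) =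
      ((((((range ⌊x⌋₊).filter fun q => q ∈ Q ∧ q ≠ 0).card : ℕ) : ℝ) - (Qc Q x : ℝ) : ℝ) : ℂ) := by
    push_cast
    ring
  rw [e2, Complex.norm_real, Real.norm_eq_abs, abs_le]
  have h3 : ((((range ⌊x⌋₊).filter fun q => q ∈ Q ∧ q ≠ 0).card : ℕ) : ℝ) ≤ Qc Q x := by exact_mod_cast h1
  have h4 : (Qc Q x : ℝ) ≤ (((range ⌊x⌋₊).filter fun q => q ∈ Q ∧ q ≠ 0).card : ℕ) + 2 := by exact_mod_cast h2
  constructor <;> linarith

/-- **arbitrary set of quotients**: weighted count -/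
theorem qd (Q : Set ℕ) : ∀ᵐ m : ℝ, 0 < m → ∀ A : ℕ, ∀ᶠ N : ℕ in atTop,
    (Ex (fun n => |∑ p ∈ So Q m n, Real.log p - m * Qc Q (n / m)|) A N : ℝ) ≤ N / Real.log N ^ A := by
  classical
  have hq1 : ∀ m, ‖qi Q m‖ ≤ 1 := by
    intro m
    unfold qi
    split_ifs <;> simp
  have h0 := ub_ae' Pool.Agent.D0H12.UB.t_PAR mte (WP 0) wp0 1 (fun m => by
    rw [abs_of_nonneg (wp_nonneg 0 m)]
    exact wp_le 0 m) (qi Q) (by simp [qi]) (fun m => (hq1 m).trans (one_le_pow₀ (one_le_log m))) 1 one_pos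
  have h1 := ae_inv (P := fun α => ∀ A : ℕ, ∀ᶠ N : ℕ in atTop,
      (Ex (fun n => ‖∑ l ∈ Ico 1 n, (WP 0 (n - l) : ℂ) * qi Q ⌊α * (l : ℝ) ^ (1 : ℝ)⌋₊ -
        ∫ u in (0 : ℝ)..n, qi Q ⌊α * u ^ (1 : ℝ)⌋₊‖) A N : ℝ) ≤ N / Real.log N ^ A) h0
  filter_upwards [h1] with m hm hm0 A
  filter_upwards [hm hm0 (A + 1), ev_logge 4, Pool.Agent.W301.SS.ev_log (A + 2) (4 * m + 2) 1 (by norm_num),
    eventually_ge_atTop 2] with N h2 h3 h4 hN
  have hN2 : (2 : ℝ) ≤ N := by exact_mod_cast hN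
  rw [Real.rpow_one] at h4
  obtain ⟨L, hL⟩ : ∃ L, L = Real.log (N : ℝ) := ⟨_, rfl⟩
  have hL' : Real.log (N : ℝ) = L := hL.symm
  rw [hL'] at h2 h3 h4
  rw [hL']
  have hL0 : 0 < L := by linarith
  have hL1 : 1 ≤ L := by linarith
  have hN0 : (0 : ℝ) < N := by linarith
  have e1 : 2 * ((N : ℝ) / L ^ (A + 1)) ≤ N / L ^ A * (1 / 2) := by
    calc 2 * ((N : ℝ) / L ^ (A + 1)) = N / L ^ A * (4 / L) * (1 / 2) := by
          rw [pow_succ]
          field_simp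
          ring
      _ ≤ N / L ^ A * 1 * (1 / 2) := by
          gcongr
          rw [div_le_one hL0]
          exact h3
      _ = _ := by ring
  have hQ : 0 ≤ (N : ℝ) / L ^ (A + 1) := by positivity
  have hsm : (4 * m + 2) * L ≤ N / L ^ (A + 1) := by
    rw [le_div_iff₀ (by positivity)]
    calc (4 * m + 2) * L * L ^ (A + 1) = (4 * m + 2) * L ^ (A + 2) := by
          rw [show A + 2 = (A + 1) + 1 by ring, pow_succ L (A + 1)]
          ring
      _ ≤ N := h4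
  have h5 : Ex (fun n => |∑ p ∈ So Q m n, Real.log p - m * Qc Q (n / m)|) A N ≤
      Ex (fun n => ‖∑ l ∈ Ico 1 n, (WP 0 (n - l) : ℂ) * qi Q ⌊1 / m * (l : ℝ) ^ (1 : ℝ)⌋₊ -
        ∫ u in (0 : ℝ)..n, qi Q ⌊1 / m * u ^ (1 : ℝ)⌋₊‖) (A + 1) N := by
    apply ex_mono
    intro n hn hlt
    rw [Finset.mem_Icc] at hn
    rw [hL'] at hlt ⊢
    have hnN : (n : ℝ) ≤ N := by exact_mod_cast hn.2
    have hn0 : (0 : ℝ) < n := by exact_mod_cast hn.1
    have g1 := So_sum Q hm0 n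
    have g2 := fl_scale (qi Q) (show 0 < 1 / m by positivity) n
    have g3 := qi_sum Q (show 0 ≤ 1 / m * n by positivity)
    rw [one_div_one_div] at g2
    have g4 : m * ‖qi Q ⌊1 / m * (n : ℝ)⌋₊‖ ≤ m * 1 := mul_le_mul_of_nonneg_left (hq1 _) hm0.le
    have g5 : (m + 1) * Real.log n ≤ (m + 1) * L := by
      apply mul_le_mul_of_nonneg_left _ (by linarith)
      rw [hL]
      exact Real.log_le_log hn0 hnN
    rw [show 1 / m * (n : ℝ) = n / m by ring] at g2 g3 g4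
    obtain ⟨X, hX⟩ : ∃ X : ℂ, X = ∑ l ∈ Ico 1 n, (WP 0 (n - l) : ℂ) * qi Q ⌊1 / m * (l : ℝ) ^ (1 : ℝ)⌋₊ := ⟨_, rfl⟩
    obtain ⟨Y, hY⟩ : ∃ Y : ℂ, Y = ∫ u in (0 : ℝ)..n, qi Q ⌊1 / m * u ^ (1 : ℝ)⌋₊ := ⟨_, rfl⟩
    obtain ⟨Z, hZ⟩ : ∃ Z : ℂ, Z = ∑ q ∈ range ⌊(n : ℝ) / m⌋₊, qi Q q := ⟨_, rfl⟩
    rw [← hX] at g1
    rw [← hY, ← hZ] at g2
    rw [← hZ] at g3
    rw [← hX, ← hY]
    have g6 : ‖(m : ℂ) * (Z - (Qc Q (n / m) : ℂ))‖ ≤ m * 2 := by
      rw [norm_mul, Complex.norm_real, Real.norm_eq_abs, abs_of_pos hm0]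
      exact mul_le_mul_of_nonneg_left g3 hm0.le
    have e2 : ((∑ p ∈ So Q m n, Real.log p - m * Qc Q (n / m) : ℝ) : ℂ) =
        (((∑ p ∈ So Q m n, Real.log p : ℝ) : ℂ) - X) + (X - Y) + (Y - (m : ℂ) * Z) + (m : ℂ) * (Z - (Qc Q (n / m) : ℂ)) := by
      push_cast
      ring
    have g7 := norm_add_le ((((∑ p ∈ So Q m n, Real.log p : ℝ) : ℂ) - X) + (X - Y) + (Y - (m : ℂ) * Z))
      ((m : ℂ) * (Z - (Qc Q (n / m) : ℂ)))
    have g8 := norm_add_le ((((∑ p ∈ So Q m n, Real.log p : ℝ) : ℂ) - X) + (X - Y)) (Y - (m : ℂ) * Z)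
    have g9 := norm_add_le (((∑ p ∈ So Q m n, Real.log p : ℝ) : ℂ) - X) (X - Y)
    rw [← e2, Complex.norm_real, Real.norm_eq_abs] at g7
    have g10 : (4 * m + 2) * L = (m + 1) * L + (3 * m + 1) * L := by ring
    have g11 : 3 * m + 1 ≤ (3 * m + 1) * L := le_mul_of_one_le_right (by linarith) hL1
    linarith
  have h8 : (Ex (fun n => |∑ p ∈ So Q m n, Real.log p - m * Qc Q (n / m)|) A N : ℝ) ≤
      Ex (fun n => ‖∑ l ∈ Ico 1 n, (WP 0 (n - l) : ℂ) * qi Q ⌊1 / m * (l : ℝ) ^ (1 : ℝ)⌋₊ -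
        ∫ u in (0 : ℝ)..n, qi Q ⌊1 / m * u ^ (1 : ℝ)⌋₊‖) (A + 1) N := by
    exact_mod_cast h5
  linarith

end Pool.Agent.D0H91.UB
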