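import Mathlib
import Pool.Agent.D0H91.UB.Qd

/-! From the weighted count to the number of primes. -/

set_option autoImplicit false

namespace Pool.Agent.D0H91.UB

open Finset MeasureTheory Filter Topology
open Pool.Agent.D0H91.MG
open Pool.Agent.D0H91.US

theorem Qc_mono (Q : Set ℕ) {x y : ℝ} (h : x ≤ y) : Qc Q x ≤ Qc Q y := by
  classical
  unfold Qc
  apply Finset.card_le_card
  intro q hq
  rw [Finset.mem_filter, Finset.mem_range] at hq ⊢
  exact ⟨lt_of_lt_of_le hq.1 (Nat.ceil_le_ceil h), hq.2⟩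

theorem So_up (Q : Set ℕ) (m : ℝ) (n : ℕ) : ∑ p ∈ So Q m n, Real.log p ≤ (So Q m n).card * Real.log n := by
  classical
  rw [← nsmul_eq_mul, ← Finset.sum_const]
  refine Finset.sum_le_sum fun p hp => ?_
  unfold So at hp
  rw [Finset.mem_filter, Finset.mem_range] at hp
  exact Real.log_le_log (by exact_mod_cast hp.2.1.pos) (by exact_mod_cast hp.1.le)

theorem So_low (Q : Set ℕ) (m : ℝ) (n : ℕ) (y T : ℝ) (hy : 0 ≤ y) (hT : 0 ≤ T) (h : ∀ p : ℕ, y < p → T ≤ Real.log p) :
    ((So Q m n).card : ℝ) * T ≤ ∑ p ∈ So Q m n, Real.log p + (y + 1) * T := by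
  classical
  have h1 : (((So Q m n).filter fun p : ℕ => y < p).card : ℝ) * T ≤ ∑ p ∈ So Q m n, Real.log p := by
    rw [← nsmul_eq_mul, ← Finset.sum_const]
    calc ∑ p ∈ (So Q m n).filter (fun p : ℕ => y < p), T ≤ ∑ p ∈ (So Q m n).filter (fun p : ℕ => y < p), Real.log p :=
          Finset.sum_le_sum fun p hp => h p (Finset.mem_filter.1 hp).2
      _ ≤ _ := Finset.sum_le_sum_of_subset_of_nonneg (Finset.filter_subset _ _) fun p _ _ => Real.log_natCast_nonneg p
  have h2 : ((So Q m n).filter fun p : ℕ => ¬ y < p).card ≤ ⌊y⌋₊ + 1 := by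
    refine (Finset.card_le_card (t := range (⌊y⌋₊ + 1)) ?_).trans (Finset.card_range _).le
    intro p hp
    rw [Finset.mem_filter, not_lt] at hp
    rw [Finset.mem_range, Nat.lt_succ_iff]
    exact Nat.le_floor hp.2
  have h3 := Finset.card_filter_add_card_filter_not (s := So Q m n) (fun p : ℕ => y < p)
  have h4 : ((So Q m n).card : ℝ) ≤ ((So Q m n).filter fun p : ℕ => y < p).card + (y + 1) := by
    have h5 : ((So Q m n).card : ℝ) = ((So Q m n).filter fun p : ℕ => y < p).card +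
        ((So Q m n).filter fun p : ℕ => ¬ y < p).card := by exact_mod_cast h3.symm
    have h6 : (((So Q m n).filter fun p : ℕ => ¬ y < p).card : ℝ) ≤ ⌊y⌋₊ + 1 := by exact_mod_cast h2
    linarith [Nat.floor_le hy]
  calc ((So Q m n).card : ℝ) * T ≤ (((So Q m n).filter fun p : ℕ => y < p).card + (y + 1)) * T :=
        mul_le_mul_of_nonneg_right h4 hT
    _ = (((So Q m n).filter fun p : ℕ => y < p).card : ℝ) * T + (y + 1) * T := by ring
    _ ≤ _ := by linarith

open Classical in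
theorem qe (Q : Set ℕ) {m : ℝ} (hm : 0 < m) (C : ℕ) (hC : ∀ᶠ x : ℕ in atTop, (x : ℝ) ≤ Qc Q x * Real.log x ^ C)
    (h : ∀ A : ℕ, ∀ᶠ N : ℕ in atTop, (Ex (fun n => |∑ p ∈ So Q m n, Real.log p - m * Qc Q (n / m)|) A N : ℝ) ≤
      N / Real.log N ^ A) (P : ℕ → Prop) (hP : ∀ᶠ n : ℕ in atTop, P n) (ε : ℝ) (hε : 0 < ε) (A : ℕ) :
    ∀ᶠ N : ℕ in atTop, (((Icc 1 N).filter fun n : ℕ => ¬ (P n ∧ (1 - ε) * (m * Qc Q (n / m)) ≤ (So Q m n).card * Real.log n ∧
      (So Q m n).card * Real.log n ≤ (1 + ε) * (m * Qc Q (n / m)))).card : ℝ) ≤ N / Real.log N ^ A := by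
  obtain ⟨η, hη⟩ : ∃ η, η = min ε 1 / 16 := ⟨_, rfl⟩
  have hη0 : 0 < η := by
    rw [hη]
    positivity
  have hη1 : η ≤ 1 / 16 := by
    rw [hη]
    linarith [min_le_right ε 1]
  have hηε : 16 * η ≤ ε := by
    rw [hη]
    linarith [min_le_left ε 1]
  obtain ⟨n0, hn0⟩ := (hC.and hP).exists_forall_of_atTop
  have hP' : ∃ n1 : ℕ, ∀ n : ℕ, n1 ≤ n → P n := hP.exists_forall_of_atTop
  obtain ⟨n1, hn1⟩ := hP'
  filter_upwards [h (A + C + 4), ev_logge 4, ev_logge (2 ^ (2 * C + 2) / η), Pool.Agent.W301.SS.ev_log (A + 1) 1 (1 / 2) (by norm_num),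
    Pool.Agent.W301.SS.ev_log 0 (2 * m * (n0 + 2) + 2 * m + n1 + 2 + 1 / m) (1 / 2) (by norm_num),
    Pool.Agent.W301.SS.ev_log (C + 1) (2 ^ (2 * C + 3) / η) (η / 2) (by positivity),
    eventually_ge_atTop 2] with N h1 h2 h3 h4 h5 h6 hN
  rw [pow_zero, mul_one] at h5
  rw [one_mul] at h4
  have hN2 : (2 : ℝ) ≤ N := by exact_mod_cast hN
  have hN0 : (0 : ℝ) < N := by linarith
  have hN1 : (1 : ℝ) ≤ N := by linarith
  obtain ⟨L, hL⟩ : ∃ L, L = Real.log (N : ℝ) := ⟨_, rfl⟩
  have hL' : Real.log (N : ℝ) = L := hL.symm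
  rw [hL'] at h1 h2 h3 h4 h6
  rw [hL']
  have hL0 : 0 < L := by linarith
  have hL1 : 1 ≤ L := by linarith
  have hhalf : (N : ℝ) ^ (1 / 2 : ℝ) ≤ N / L ^ (A + 1) := by
    rw [le_div_iff₀ (by positivity)]
    calc (N : ℝ) ^ (1 / 2 : ℝ) * L ^ (A + 1) ≤ (N : ℝ) ^ (1 / 2 : ℝ) * (N : ℝ) ^ (1 / 2 : ℝ) := by gcongr
      _ = N := by
          rw [← Real.rpow_add hN0]
          norm_num
  have key : ∀ n ∈ Icc 1 N, (N : ℝ) / L ^ (A + 1) ≤ n →
      |∑ p ∈ So Q m n, Real.log p - m * Qc Q (n / m)| ≤ N / L ^ (A + C + 4) →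
      P n ∧ (1 - ε) * (m * Qc Q (n / m)) ≤ (So Q m n).card * Real.log n ∧
        (So Q m n).card * Real.log n ≤ (1 + ε) * (m * Qc Q (n / m)) := by
    intro n hn hnb hne
    rw [Finset.mem_Icc] at hn
    have hnN : (n : ℝ) ≤ N := by exact_mod_cast hn.2
    have hn12 : (N : ℝ) ^ (1 / 2 : ℝ) ≤ n := hhalf.trans hnb
    have hnbig : 2 * m * (n0 + 2) + 2 * m + n1 + 2 + 1 / m ≤ n := h5.trans hn12
    have hm' : 0 < 1 / m := by positivity
    have hmn0 : 0 ≤ 2 * m * ((n0 : ℝ) + 2) := by positivity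
    have hn1' : (0 : ℝ) ≤ n1 := Nat.cast_nonneg n1
    have hnpos : (0 : ℝ) < n := by linarith
    have hn1r : (1 : ℝ) ≤ n := by linarith
    have hPn : P n := hn1 n (by
      have : (n1 : ℝ) ≤ n := by linarith
      exact_mod_cast this)
    have hlogn : Real.log n ≤ L := by
      rw [hL]
      exact Real.log_le_log hnpos hnN
    have hlogn0 : 0 ≤ Real.log n := Real.log_natCast_nonneg n
    obtain ⟨w, hw⟩ : ∃ w : ℝ, w = m * Qc Q (n / m) := ⟨_, rfl⟩
    rw [← hw] at hne ⊢
    obtain ⟨R, hR⟩ : ∃ R : ℝ, R = ((So Q m n).card : ℝ) := ⟨_, rfl⟩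
    rw [← hR]
    have hR0 : 0 ≤ R := by
      rw [hR]
      positivity
    obtain ⟨S, hS⟩ : ∃ S : ℝ, S = ∑ p ∈ So Q m n, Real.log p := ⟨_, rfl⟩
    rw [← hS] at hne
    -- lower bound for w
    have hwlow : n / (2 ^ (2 * C + 1) * L ^ C) ≤ w := by
      obtain ⟨y, hy⟩ : ∃ y : ℕ, y = ⌊(n : ℝ) / m⌋₊ := ⟨_, rfl⟩
      have hy1 : (y : ℝ) ≤ n / m := by
        rw [hy]
        exact Nat.floor_le (by positivity)
      have hy2 : (n : ℝ) / m < y + 1 := by
        rw [hy]
        exact Nat.lt_floor_add_one _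
      have hnm : (n0 : ℝ) + 2 ≤ n / m / 2 := by
        rw [le_div_iff₀ (by norm_num), le_div_iff₀ hm]
        linarith
      have hyn0 : n0 ≤ y := by
        have : (n0 : ℝ) ≤ y := by
          have : (0 : ℝ) ≤ n0 := Nat.cast_nonneg n0
          linarith
        exact_mod_cast this
      have hyhalf : (n : ℝ) / m / 2 ≤ y := by
        have : (0 : ℝ) ≤ n0 := Nat.cast_nonneg n0
        linarith
      have hy0 : (0 : ℝ) < y := by
        have : (0 : ℝ) ≤ n0 := Nat.cast_nonneg n0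
        linarith
      have g1 := (hn0 y hyn0).1
      have g2 : (Qc Q y : ℝ) ≤ Qc Q (n / m) := by exact_mod_cast Qc_mono Q hy1
      have g3 : Real.log y ≤ 2 * L := by
        have g4 : (y : ℝ) ≤ (n : ℝ) ^ 2 := by
          refine hy1.trans ?_
          rw [div_le_iff₀ hm]
          have g5 : 1 ≤ n * m := by
            have : 1 / m ≤ n := by linarith
            rwa [div_le_iff₀ hm] at this
          nlinarith
        have g6 := Real.log_le_log hy0 g4
        rw [Real.log_pow] at g6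
        push_cast at g6
        linarith
      have g7 : 0 ≤ Real.log (y : ℝ) := Real.log_natCast_nonneg y
      have g8 : (y : ℝ) ≤ Qc Q (n / m) * (2 * L) ^ C := by
        refine g1.trans ?_
        apply mul_le_mul g2 (pow_le_pow_left₀ g7 g3 _) (by positivity) (by positivity)
      rw [div_le_iff₀ (by positivity), hw]
      calc (n : ℝ) = m * (n / m / 2) * 2 := by field_simp
        _ ≤ m * (Qc Q (n / m) * (2 * L) ^ C) * 2 := by
            gcongr
            exact hyhalf.trans g8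
        _ = m * Qc Q (n / m) * (2 ^ (C + 1) * L ^ C) := by
            rw [mul_pow, pow_succ]
            ring
        _ ≤ m * Qc Q (n / m) * (2 ^ (2 * C + 1) * L ^ C) := by
            gcongr
            · norm_num
            · omega
    have hw0 : 0 ≤ w := by
      rw [hw]
      positivity
    have herr : (N : ℝ) / L ^ (A + C + 4) ≤ η * w := by
      have g1 : (N : ℝ) ≤ n * L ^ (A + 1) := by
        rwa [div_le_iff₀ (by positivity)] at hnb
      calc (N : ℝ) / L ^ (A + C + 4) ≤ (n * L ^ (A + 1)) / L ^ (A + C + 4) := by gcongr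
        _ = n / (2 ^ (2 * C + 1) * L ^ C) * (2 ^ (2 * C + 1) / L ^ 3) := by
            have q : L ^ (A + C + 4) = L ^ (A + 1) * L ^ C * L ^ 3 := by
              rw [← pow_add, ← pow_add]
              congr 1
              ring
            rw [q]
            field_simp
        _ ≤ w * η := by
            apply mul_le_mul hwlow _ (by positivity) hw0
            rw [div_le_iff₀ (by positivity)]
            rw [div_le_iff₀ hη0] at h3
            have g2 : L ≤ L ^ 3 := le_self_pow₀ hL1 (by norm_num)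
            have g3 : (2 : ℝ) ^ (2 * C + 1) ≤ 2 ^ (2 * C + 2) := pow_le_pow_right₀ (by norm_num) (by omega)
            nlinarith
        _ = _ := mul_comm _ _
    have hW := abs_le.1 (hne.trans herr)
    refine ⟨hPn, ?_, ?_⟩
    · have g1 := So_up Q m n
      rw [← hS, ← hR] at g1
      have g2 : (1 - ε) * w ≤ (1 - η) * w := mul_le_mul_of_nonneg_right (by linarith) hw0
      linarith [hW.1]
    · have g1 := So_low Q m n ((n : ℝ) ^ (1 - η)) ((1 - η) * Real.log n) (by positivity)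
        (mul_nonneg (by linarith) hlogn0) (fun p hp => by
          have := Real.log_le_log (by positivity) hp.le
          rwa [Real.log_rpow hnpos] at this)
      rw [← hS, ← hR] at g1
      have g2 : ((n : ℝ) ^ (1 - η) + 1) * ((1 - η) * Real.log n) ≤ η * w := by
        have g3 : (1 : ℝ) ≤ (n : ℝ) ^ (1 - η) := Real.one_le_rpow hn1r (by linarith)
        have g4 : (n : ℝ) ^ (1 - η) * (n : ℝ) ^ η = n := by
          rw [← Real.rpow_add hnpos]
          norm_num
        have g5 : 2 ^ (2 * C + 3) / η * L ^ (C + 1) ≤ (n : ℝ) ^ η := by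
          refine h6.trans ?_
          calc (N : ℝ) ^ (η / 2) = ((N : ℝ) ^ (1 / 2 : ℝ)) ^ η := by
                rw [← Real.rpow_mul hN0.le]
                congr 1
                ring
            _ ≤ _ := Real.rpow_le_rpow (by positivity) hn12 hη0.le
        have g6 : 0 < (n : ℝ) ^ (1 - η) := by positivity
        calc ((n : ℝ) ^ (1 - η) + 1) * ((1 - η) * Real.log n) ≤ (2 * (n : ℝ) ^ (1 - η)) * (1 * L) := by
              apply mul_le_mul (by linarith) _ (mul_nonneg (by linarith) hlogn0) (by positivity)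
              exact mul_le_mul (by linarith) hlogn hlogn0 zero_le_one
          _ = η * (((n : ℝ) ^ (1 - η) * (2 ^ (2 * C + 3) / η * L ^ (C + 1))) / (2 ^ (2 * C + 1) * L ^ C) * (1 / 2)) := by
              rw [pow_succ L C, show 2 * C + 3 = (2 * C + 1) + 2 by ring, pow_add (2 : ℝ) (2 * C + 1) 2]
              field_simp
          _ ≤ η * (((n : ℝ) ^ (1 - η) * (n : ℝ) ^ η) / (2 ^ (2 * C + 1) * L ^ C) * 1) := by
              gcongr
              norm_num
          _ ≤ η * w := by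
              rw [g4, mul_one]
              exact mul_le_mul_of_nonneg_left hwlow hη0.le
      have g7 : R * ((1 - η) * Real.log n) ≤ (1 + 2 * η) * w := by linarith [hW.2]
      have g8 : (R * Real.log n) * (1 - η) ≤ ((1 + 4 * η) * w) * (1 - η) := by
        have g9 : (1 + 2 * η) * w ≤ ((1 + 4 * η) * (1 - η)) * w := mul_le_mul_of_nonneg_right (by nlinarith) hw0
        calc (R * Real.log n) * (1 - η) = R * ((1 - η) * Real.log n) := by ring
          _ ≤ (1 + 2 * η) * w := g7
          _ ≤ ((1 + 4 * η) * (1 - η)) * w := g9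
          _ = _ := by ring
      have g10 : R * Real.log n ≤ (1 + 4 * η) * w := le_of_mul_le_mul_right g8 (by linarith)
      refine g10.trans ?_
      exact mul_le_mul_of_nonneg_right (by linarith) hw0
  have hcard : ((Icc 1 N).filter fun n : ℕ => ¬ (P n ∧ (1 - ε) * (m * Qc Q (n / m)) ≤ (So Q m n).card * Real.log n ∧
      (So Q m n).card * Real.log n ≤ (1 + ε) * (m * Qc Q (n / m)))).card ≤
      (Icc 1 ⌊(N : ℝ) / L ^ (A + 1)⌋₊).card + Ex (fun n => |∑ p ∈ So Q m n, Real.log p - m * Qc Q (n / m)|) (A + C + 4) N := by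
    unfold Ex
    rw [hL']
    refine le_trans (Finset.card_le_card ?_) (Finset.card_union_le _ _)
    intro n hn
    rw [Finset.mem_filter] at hn
    rw [Finset.mem_union, Finset.mem_filter, Finset.mem_Icc]
    by_contra hcon
    push Not at hcon
    obtain ⟨hc1, hc2⟩ := hcon
    apply hn.2
    apply key n hn.1
    · have g1 := hc1 (Finset.mem_Icc.1 hn.1).1
      have g2 : (⌊(N : ℝ) / L ^ (A + 1)⌋₊ : ℝ) + 1 ≤ n := by exact_mod_cast g1
      linarith [(Nat.lt_floor_add_one ((N : ℝ) / L ^ (A + 1)))]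
    · exact hc2 hn.1
  rw [Nat.card_Icc, Nat.add_sub_cancel] at hcard
  have hcard' : (((Icc 1 N).filter fun n : ℕ => ¬ (P n ∧ (1 - ε) * (m * Qc Q (n / m)) ≤ (So Q m n).card * Real.log n ∧
      (So Q m n).card * Real.log n ≤ (1 + ε) * (m * Qc Q (n / m)))).card : ℝ) ≤
      (⌊(N : ℝ) / L ^ (A + 1)⌋₊ : ℝ) + Ex (fun n => |∑ p ∈ So Q m n, Real.log p - m * Qc Q (n / m)|) (A + C + 4) N := by
    exact_mod_cast hcard
  have q1 : (⌊(N : ℝ) / L ^ (A + 1)⌋₊ : ℝ) ≤ N / L ^ (A + 1) := Nat.floor_le (by positivity)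
  have q2 : (N : ℝ) / L ^ (A + C + 4) ≤ N / L ^ (A + 1) := by
    apply div_le_div_of_nonneg_left hN0.le (by positivity)
    exact pow_le_pow_right₀ hL1 (by omega)
  have q3 : 2 * ((N : ℝ) / L ^ (A + 1)) ≤ N / L ^ A := by
    calc 2 * ((N : ℝ) / L ^ (A + 1)) = N / L ^ A * (2 / L) := by
          rw [pow_succ]
          field_simp
      _ ≤ N / L ^ A * 1 := by
          gcongr
          rw [div_le_one hL0]
          linarith
      _ = _ := mul_one _
  linarith

end Pool.Agent.D0H91.UB
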