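import Mathlib
import Pool.Agent.D0H91.UB.Qe
import Pool.Agent.D0H91.MG.Tup

/-! Slowly varying sums and two sets of quotients. -/

set_option autoImplicit false

namespace Pool.Agent.D0H91.UB

open Finset MeasureTheory Filter Topology
open Pool.Agent.D0H91.MG (gd gd_nonneg gd_le ev_logge prime_one prime_seq ip_sum)
open Pool.Agent.D0H91.US

theorem slow (c g : ℕ → ℝ) (hc0 : ∀ n, 0 ≤ c n) (hc1 : ∀ n, c n ≤ 1) (κ M : ℝ) (hκ : 0 ≤ κ) (hM : 0 ≤ M) (hg0 : ∀ n, 0 ≤ g n)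
    (hgM : ∀ n, g n ≤ M) (hg : ∀ η : ℝ, 0 < η → ∀ᶠ n : ℕ in atTop, |g n * Real.log n - κ| ≤ η) (B : ℕ)
    (hB : ∀ᶠ N : ℕ in atTop, (N : ℝ) ≤ (∑ n ∈ Icc 1 N, c n) * Real.log N ^ B) (η : ℝ) (hη : 0 < η) :
    ∀ᶠ N : ℕ in atTop, |(∑ n ∈ Icc 1 N, c n * g n) * Real.log N - κ * ∑ n ∈ Icc 1 N, c n| ≤ η * ∑ n ∈ Icc 1 N, c n := by
  obtain ⟨θ, hθ⟩ : ∃ θ, θ = min (1 / 2) (η / (2 * (2 * κ + 3))) := ⟨_, rfl⟩
  have hθ0 : 0 < θ := by
    rw [hθ]
    positivity
  have hθ1 : θ ≤ 1 / 2 := by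
    rw [hθ]
    exact min_le_left _ _
  have hθ2 : θ * (2 * κ + 3) ≤ η / 2 := by
    have : θ ≤ η / (2 * (2 * κ + 3)) := by
      rw [hθ]
      exact min_le_right _ _
    rw [le_div_iff₀ (by positivity)] at this
    linarith
  obtain ⟨n0, hn0⟩ := (hg θ hθ0).exists_forall_of_atTop
  filter_upwards [hB, Pool.Agent.W301.SS.ev_log (B + 1) ((M + κ) * (2 / η)) θ hθ0,
    Pool.Agent.W301.SS.ev_log 0 (n0 + 1) (1 / 2) (by norm_num), ev_logge 1, eventually_ge_atTop 2] with N h1 h2 h3 h4 hN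
  rw [pow_zero, mul_one] at h3
  have hN2 : (2 : ℝ) ≤ N := by exact_mod_cast hN
  have hN0 : (0 : ℝ) < N := by linarith
  have hN1 : (1 : ℝ) ≤ N := by linarith
  obtain ⟨L, hL⟩ : ∃ L, L = Real.log (N : ℝ) := ⟨_, rfl⟩
  have hL' : Real.log (N : ℝ) = L := hL.symm
  rw [hL'] at h1 h2 h4
  rw [hL']
  have hL0 : 0 < L := by linarith
  obtain ⟨S, hS⟩ : ∃ S, S = ∑ n ∈ Icc 1 N, c n := ⟨_, rfl⟩
  rw [← hS] at h1
  rw [← hS]
  have hS0 : 0 ≤ S := by
    rw [hS]
    exact Finset.sum_nonneg fun n _ => hc0 n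
  have e1 : (∑ n ∈ Icc 1 N, c n * g n) * L - κ * S = ∑ n ∈ Icc 1 N, c n * (g n * L - κ) := by
    rw [hS, Finset.sum_mul, Finset.mul_sum, ← Finset.sum_sub_distrib]
    refine Finset.sum_congr rfl fun n _ => ?_
    ring
  rw [e1]
  obtain ⟨X, hX⟩ : ∃ X, X = (N : ℝ) ^ (1 - θ) := ⟨_, rfl⟩
  have hXn0 : (n0 : ℝ) + 1 ≤ X := by
    refine h3.trans ?_
    rw [hX]
    exact Real.rpow_le_rpow_of_exponent_le hN1 (by linarith)
  have hX0 : 0 < X := by
    rw [hX]
    positivity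
  have hpt : ∀ n ∈ Icc 1 N, |c n * (g n * L - κ)| ≤ c n * (η / 2) + (if n ∈ range (⌊X⌋₊ + 1) then (M * L + κ) else 0) := by
    intro n hn
    rw [Finset.mem_Icc] at hn
    have hn0' : (0 : ℝ) < n := by exact_mod_cast hn.1
    rw [abs_mul, abs_of_nonneg (hc0 n)]
    by_cases hx : n ∈ range (⌊X⌋₊ + 1)
    · rw [if_pos hx]
      have g1 : |g n * L - κ| ≤ M * L + κ := by
        refine (abs_sub _ _).trans ?_
        rw [abs_of_nonneg (mul_nonneg (hg0 n) hL0.le), abs_of_nonneg hκ]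
        have := mul_le_mul_of_nonneg_right (hgM n) hL0.le
        linarith
      have g2 : c n * |g n * L - κ| ≤ 1 * (M * L + κ) := mul_le_mul (hc1 n) g1 (abs_nonneg _) zero_le_one
      have g3 : 0 ≤ c n * (η / 2) := mul_nonneg (hc0 n) (by linarith)
      linarith
    · rw [if_neg hx, add_zero]
      apply mul_le_mul_of_nonneg_left _ (hc0 n)
      rw [Finset.mem_range, Nat.lt_succ_iff, not_le] at hx
      have hxn : X < n := (Nat.lt_of_floor_lt hx)
      have g1 := hn0 n (by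
        have : (n0 : ℝ) ≤ n := by linarith
        exact_mod_cast this)
      have g2 : (1 - θ) * L ≤ Real.log n := by
        have := Real.log_le_log hX0 hxn.le
        rwa [hX, Real.log_rpow hN0, hL'] at this
      have g3 : Real.log n ≤ L := by
        rw [hL]
        exact Real.log_le_log hn0' (by exact_mod_cast hn.2)
      have g4 : g n * L ≤ 2 * (κ + 1) := by
        have g5 := (abs_le.1 g1).2
        have g6 : L / 2 ≤ Real.log n := by nlinarith
        have g7 : g n * (L / 2) ≤ g n * Real.log n := mul_le_mul_of_nonneg_left g6 (hg0 n)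
        linarith
      have g8 : |g n * L - κ| ≤ |g n * Real.log n - κ| + g n * (L - Real.log n) := by
        have e2 : g n * L - κ = (g n * Real.log n - κ) + g n * (L - Real.log n) := by ring
        rw [e2]
        refine (abs_add_le _ _).trans ?_
        rw [abs_of_nonneg (mul_nonneg (hg0 n) (by linarith))]
      have g9 : g n * (L - Real.log n) ≤ g n * (θ * L) := mul_le_mul_of_nonneg_left (by linarith) (hg0 n)
      have g10 : g n * (θ * L) ≤ θ * (2 * (κ + 1)) := by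
        calc g n * (θ * L) = θ * (g n * L) := by ring
          _ ≤ _ := mul_le_mul_of_nonneg_left g4 hθ0.le
      linarith
  refine (Finset.abs_sum_le_sum_abs _ _).trans ((Finset.sum_le_sum hpt).trans ?_)
  rw [Finset.sum_add_distrib, ← Finset.sum_mul, ← hS, ← Finset.sum_filter, Finset.sum_const, nsmul_eq_mul]
  have hcard : (((Icc 1 N).filter fun n => n ∈ range (⌊X⌋₊ + 1)).card : ℝ) ≤ X := by
    have h5 : ((Icc 1 N).filter fun n => n ∈ range (⌊X⌋₊ + 1)).card ≤ ⌊X⌋₊ := by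
      refine (Finset.card_le_card (t := Icc 1 ⌊X⌋₊) ?_).trans (by rw [Nat.card_Icc, Nat.add_sub_cancel])
      intro n hn
      rw [Finset.mem_filter, Finset.mem_Icc, Finset.mem_range] at hn
      rw [Finset.mem_Icc]
      omega
    have h6 : (((Icc 1 N).filter fun n => n ∈ range (⌊X⌋₊ + 1)).card : ℝ) ≤ (⌊X⌋₊ : ℝ) := by exact_mod_cast h5
    exact h6.trans (Nat.floor_le hX0.le)
  have h7 : X * (M * L + κ) ≤ S * (η / 2) := by
    have h8 : X * (N : ℝ) ^ θ = N := by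
      rw [hX, ← Real.rpow_add hN0]
      norm_num
    have h9 : M * L + κ ≤ (M + κ) * L := by nlinarith
    have h10 : (M + κ) * L * L ^ B ≤ (N : ℝ) ^ θ * (η / 2) := by
      have h11 : (M + κ) * (2 / η) * L ^ (B + 1) * (η / 2) ≤ (N : ℝ) ^ θ * (η / 2) := mul_le_mul_of_nonneg_right h2 (by linarith)
      refine le_trans (le_of_eq ?_) h11
      rw [pow_succ]
      field_simp
    have h12 : 0 < L ^ B := by positivity
    have h13 : X * (M * L + κ) * L ^ B ≤ S * (η / 2) * L ^ B := by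
      calc X * (M * L + κ) * L ^ B ≤ X * ((M + κ) * L) * L ^ B := by gcongr
        _ = X * ((M + κ) * L * L ^ B) := by ring
        _ ≤ X * ((N : ℝ) ^ θ * (η / 2)) := by gcongr
        _ = N * (η / 2) := by rw [← mul_assoc, h8]
        _ ≤ (S * L ^ B) * (η / 2) := mul_le_mul_of_nonneg_right h1 (by linarith)
        _ = _ := by ring
    exact le_of_mul_le_mul_right h13 h12
  have h14 : (((Icc 1 N).filter fun n => n ∈ range (⌊X⌋₊ + 1)).card : ℝ) * (M * L + κ) ≤ X * (M * L + κ) :=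
    mul_le_mul_of_nonneg_right hcard (by positivity)
  linarith

theorem gd_log (h : ℕ → ℝ) (lam : ℝ) (hl : 0 < lam) (hpos : ∀ᶠ n : ℕ in atTop, 0 < h n)
    (hh : ∀ θ : ℝ, 0 < θ → ∀ᶠ n : ℕ in atTop, |Real.log (h n) - lam * Real.log n| ≤ θ * Real.log n) (η : ℝ) (hη : 0 < η) :
    ∀ᶠ n : ℕ in atTop, |gd (h n) * Real.log n - 1 / lam| ≤ η := by
  obtain ⟨θ, hθ⟩ : ∃ θ, θ = min (lam / 2) (η * lam ^ 2 / 2) := ⟨_, rfl⟩
  have hθ0 : 0 < θ := by
    rw [hθ]
    positivity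
  have hθ1 : θ ≤ lam / 2 := by
    rw [hθ]
    exact min_le_left _ _
  have hθ2 : θ ≤ η * lam ^ 2 / 2 := by
    rw [hθ]
    exact min_le_right _ _
  filter_upwards [hh θ hθ0, hpos, ev_logge 1, ev_logge (2 / lam)] with n h1 h2 h3 h4
  obtain ⟨x, hx⟩ : ∃ x, x = Real.log (n : ℝ) := ⟨_, rfl⟩
  rw [← hx] at h1 h3 h4
  rw [← hx]
  rw [div_le_iff₀ hl] at h4
  have hb := abs_le.1 h1
  have h5 : lam / 2 * x ≤ Real.log (h n) := by nlinarith [hb.1]
  have h6 : 1 ≤ Real.log (h n) := by nlinarith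
  have h7 : 2 ≤ h n := by
    have h8 := (Real.le_log_iff_exp_le h2).1 h6
    have h9 := Real.add_one_le_exp (1 : ℝ)
    linarith
  have h10 : gd (h n) = 1 / Real.log (h n) := by
    unfold gd
    rw [if_pos h7]
  have h11 : 0 < Real.log (h n) := by linarith
  have e1 : 1 / Real.log (h n) * x - 1 / lam = -(Real.log (h n) - lam * x) / (lam * Real.log (h n)) := by
    field_simp
    ring
  rw [h10, e1, abs_div, abs_neg, abs_of_pos (show 0 < lam * Real.log (h n) by positivity), div_le_iff₀ (by positivity)]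
  calc |Real.log (h n) - lam * x| ≤ θ * x := h1
    _ ≤ (η * lam ^ 2 / 2) * x := mul_le_mul_of_nonneg_right hθ2 (by linarith)
    _ = η * (lam * (lam / 2 * x)) := by ring
    _ ≤ η * (lam * Real.log (h n)) := by gcongr

open Classical in
/-- indicator of the primes, real -/
noncomputable def pr (n : ℕ) : ℝ := if n.Prime then 1 else 0

theorem pr_ip (n : ℕ) : Pool.Agent.D0H91.MG.ip n = (pr n : ℂ) := by
  unfold pr Pool.Agent.D0H91.MG.ip
  split_ifs <;> simp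

theorem pr0 (n : ℕ) : 0 ≤ pr n := by
  unfold pr
  split_ifs <;> norm_num

theorem pr1 (n : ℕ) : pr n ≤ 1 := by
  unfold pr
  split_ifs <;> norm_num

theorem pr_sum (N : ℕ) : ∑ n ∈ Icc 1 N, pr n = Nat.primeCounting N := by
  induction N with
  | zero => simp
  | succ N ih =>
    rw [Finset.sum_Icc_succ_top (by omega), ih, pc_succ]
    unfold pr
    split_ifs <;> simp

theorem one_sum (N : ℕ) : ∑ n ∈ Icc 1 N, (1 : ℝ) = N := by
  rw [Finset.sum_const, Nat.card_Icc, Nat.add_sub_cancel, nsmul_eq_mul, mul_one]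

/-- the prime number theorem -/
theorem pnt (η : ℝ) (hη : 0 < η) : ∀ᶠ N : ℕ in atTop, |(Nat.primeCounting N : ℝ) * Real.log N - N| ≤ η * N := by
  have h1 := slow (fun _ => 1) (fun n => gd n) (fun _ => zero_le_one) (fun _ => le_rfl) 1 2 zero_le_one (by norm_num)
    (fun n => gd_nonneg _) (fun n => gd_le _) (fun θ hθ => by
      have := gd_log (fun n : ℕ => (n : ℝ)) 1 one_pos (by
        filter_upwards [eventually_ge_atTop 1] with n hn
        exact_mod_cast hn) (fun θ' hθ' => by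
          filter_upwards with n
          rw [one_mul, sub_self, abs_zero]
          exact mul_nonneg hθ'.le (Real.log_natCast_nonneg n)) θ hθ
      simpa using this) 0 (by
      filter_upwards with N
      rw [one_sum, pow_zero, mul_one]) (η / 2) (by positivity)
  filter_upwards [h1, ip_sum 2, ev_logge 1, ev_logge (2 / η), eventually_ge_atTop 2] with N g1 g2 g3 g4 hN
  have hN2 : (2 : ℝ) ≤ N := by exact_mod_cast hN
  simp only [one_mul, one_sum] at g1
  have e1 : ∑ n ∈ Icc 1 N, (Pool.Agent.D0H91.MG.ip n - (gd n : ℂ)) = ((Nat.primeCounting N - ∑ n ∈ Icc 1 N, gd n : ℝ) : ℂ) := by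
    rw [← pr_sum]
    push_cast
    rw [← Finset.sum_sub_distrib]
    refine Finset.sum_congr rfl fun n _ => ?_
    rw [pr_ip]
  rw [e1, Complex.norm_real, Real.norm_eq_abs] at g2
  obtain ⟨L, hL⟩ : ∃ L, L = Real.log (N : ℝ) := ⟨_, rfl⟩
  rw [← hL] at g1 g2 g3 g4
  rw [← hL]
  have hL0 : 0 < L := by linarith
  rw [div_le_iff₀ hη] at g4
  have g5 : |(Nat.primeCounting N - ∑ n ∈ Icc 1 N, gd n) * L| ≤ η / 2 * N := by
    rw [abs_mul, abs_of_pos hL0]
    calc _ ≤ (N / L ^ 2) * L := mul_le_mul_of_nonneg_right g2 hL0.le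
      _ = N * (1 / L) := by field_simp
      _ ≤ N * (η / 2) := by
          apply mul_le_mul_of_nonneg_left _ (by linarith)
          rw [div_le_iff₀ hL0]
          linarith
      _ = _ := mul_comm _ _
  have e2 : (Nat.primeCounting N : ℝ) * L - N = (Nat.primeCounting N - ∑ n ∈ Icc 1 N, gd n) * L +
      ((∑ n ∈ Icc 1 N, gd n) * L - N) := by ring
  rw [e2]
  refine (abs_add_le _ _).trans ?_
  linarith

/-- the set for Q2: primes `q` with `⌊c q²⌋` prime -/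
def Sq2 (c : ℝ) : Set ℕ := {q | q.Prime ∧ ⌊c * (q : ℝ) ^ 2⌋₊.Prime}

/-- the set for Q1: primes `q` with `⌊c (p_q - q + 1)⌋` prime -/
def Sq1 (c : ℝ) : Set ℕ := {q | q.Prime ∧ ⌊c * ((Nat.nth Nat.Prime (q - 1) - q + 1 : ℕ) : ℝ)⌋₊.Prime}

/-- density `κ / log²` -/
def HQ (Q : Set ℕ) (κ : ℝ) : Prop := ∀ η : ℝ, 0 < η → ∀ᶠ x : ℕ in atTop, |(Qc Q x : ℝ) * Real.log x ^ 2 - κ * x| ≤ η * x

theorem Qc_sum (Q : Set ℕ) (g : ℕ → ℝ) (hg : ∀ n, 1 ≤ n → ((n ∈ Q ∧ g n = 1) ∨ (n ∉ Q ∧ g n = 0))) (h0 : 0 ∉ Q) (x : ℕ) :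
    |(Qc Q x : ℝ) - ∑ n ∈ Icc 1 x, g n| ≤ 1 := by
  classical
  rcases Nat.eq_zero_or_pos x with h | h
  · rw [h]
    simp [Qc]
  · have e1 : (Qc Q x : ℝ) = ∑ n ∈ Ico 1 x, g n := by
      unfold Qc
      rw [Nat.ceil_natCast, Finset.card_filter]
      push_cast
      rw [Finset.range_eq_Ico, ← Finset.sum_subset (s₁ := Ico 1 x) (s₂ := Ico 0 x)]
      · refine Finset.sum_congr rfl fun n hn => ?_
        rw [Finset.mem_Ico] at hn
        rcases hg n hn.1 with h2 | h2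
        · rw [if_pos h2.1, h2.2]
        · rw [if_neg h2.1, h2.2]
      · intro n hn
        rw [Finset.mem_Ico] at hn ⊢
        omega
      · intro n hn hn2
        rw [Finset.mem_Ico] at hn hn2
        have : n = 0 := by omega
        rw [this, if_neg h0]
    have e2 : Icc 1 x = insert x (Ico 1 x) := by
      ext n
      rw [Finset.mem_insert, Finset.mem_Icc, Finset.mem_Ico]
      omega
    rw [e1, e2, Finset.sum_insert (by simp)]
    have e3 : ∑ n ∈ Ico 1 x, g n - (g x + ∑ n ∈ Ico 1 x, g n) = - g x := by ring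
    rw [e3, abs_neg]
    rcases hg x h with h2 | h2
    · rw [h2.2, abs_one]
    · rw [h2.2, abs_zero]
      exact zero_le_one

theorem hq2 : ∀ᵐ c : ℝ, 0 < c → HQ (Sq2 c) (1 / 2) := by
  filter_upwards [prime_one 2 (by norm_num) (fun n => (pr n : ℂ)) 1 (fun n => by
    rw [Complex.norm_real, Real.norm_eq_abs, abs_of_nonneg (pr0 n)]
    exact pr1 n)] with c hc hc0
  have hlc : ∀ θ : ℝ, 0 < θ → ∀ᶠ n : ℕ in atTop, |Real.log (c * (n : ℝ) ^ (2 : ℝ)) - 2 * Real.log n| ≤ θ * Real.log n := by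
    intro θ hθ
    filter_upwards [ev_logge (|Real.log c| / θ), eventually_ge_atTop 1] with n h1 h2
    have hn : (0 : ℝ) < n := by exact_mod_cast h2
    rw [Real.log_mul hc0.ne' (by positivity), Real.log_rpow hn, add_sub_cancel_right]
    rw [div_le_iff₀ hθ] at h1
    linarith
  have hsl := slow pr (fun n => gd (c * (n : ℝ) ^ (2 : ℝ))) pr0 pr1 (1 / 2) 2 (by norm_num) (by norm_num) (fun n => gd_nonneg _)
    (fun n => gd_le _) (fun θ hθ => gd_log (fun n : ℕ => c * (n : ℝ) ^ (2 : ℝ)) 2 (by norm_num) (by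
      filter_upwards [eventually_ge_atTop 1] with n hn
      have : (0 : ℝ) < n := by exact_mod_cast hn
      positivity) hlc θ hθ) 2 (by
      filter_upwards [pnt (1 / 2) (by norm_num), ev_logge 2, eventually_ge_atTop 2] with N h1 h2 hN
      rw [pr_sum]
      have hN2 : (2 : ℝ) ≤ N := by exact_mod_cast hN
      have h3 := (abs_le.1 h1).1
      have h4 : (N : ℝ) / 2 ≤ Nat.primeCounting N * Real.log N := by linarith
      nlinarith)
  intro η hη
  obtain ⟨θ, hθ⟩ : ∃ θ, θ = min (η / 8) 1 := ⟨_, rfl⟩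
  have hθ0 : 0 < θ := by
    rw [hθ]
    positivity
  have hθ1 : θ ≤ η / 8 := by
    rw [hθ]
    exact min_le_left _ _
  have hθ2 : θ ≤ 1 := by
    rw [hθ]
    exact min_le_right _ _
  filter_upwards [hc hc0 3, hsl θ hθ0, pnt θ hθ0, Pool.Agent.W301.SS.ev_log 2 (8 / η) 1 (by norm_num), ev_logge (8 / η),
    ev_logge 1, eventually_ge_atTop 2] with x h1 h2 h3 h4 h5 h6 hx
  rw [Real.rpow_one] at h4
  have hx2 : (2 : ℝ) ≤ x := by exact_mod_cast hx
  obtain ⟨L, hL⟩ : ∃ L, L = Real.log (x : ℝ) := ⟨_, rfl⟩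
  rw [← hL] at h1 h2 h3 h4 h5 h6
  rw [← hL]
  have hL0 : 0 < L := by linarith
  rw [pr_sum] at h2
  obtain ⟨S, hS⟩ : ∃ S, S = ∑ n ∈ Icc 1 x, pr n * pr ⌊c * (n : ℝ) ^ (2 : ℝ)⌋₊ := ⟨_, rfl⟩
  obtain ⟨G, hG⟩ : ∃ G, G = ∑ n ∈ Icc 1 x, pr n * gd (c * (n : ℝ) ^ (2 : ℝ)) := ⟨_, rfl⟩
  obtain ⟨P, hP⟩ : ∃ P : ℝ, P = Nat.primeCounting x := ⟨_, rfl⟩
  rw [← hG, ← hP] at h2
  rw [← hP] at h3
  have g1 : |S - G| ≤ x / L ^ 3 := by
    have e1 : ∑ n ∈ Icc 1 x, (pr n : ℂ) * (Pool.Agent.D0H91.MG.ip ⌊c * (n : ℝ) ^ (2 : ℝ)⌋₊ - (gd (c * (n : ℝ) ^ (2 : ℝ)) : ℂ)) =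
        ((S - G : ℝ) : ℂ) := by
      rw [hS, hG, ← Finset.sum_sub_distrib]
      push_cast
      refine Finset.sum_congr rfl fun n _ => ?_
      rw [pr_ip]
      ring
    rwa [e1, Complex.norm_real, Real.norm_eq_abs] at h1
  have g2 : |(Qc (Sq2 c) x : ℝ) - S| ≤ 1 := by
    rw [hS]
    refine Qc_sum _ (fun n => pr n * pr ⌊c * (n : ℝ) ^ (2 : ℝ)⌋₊) (fun n _ => ?_) (fun h => Nat.not_prime_zero h.1) x
    have e2 : (n : ℝ) ^ (2 : ℝ) = (n : ℝ) ^ 2 := by
      rw [← Real.rpow_natCast]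
      norm_num
    simp only [e2]
    unfold pr Sq2
    rw [Set.mem_setOf_eq]
    by_cases hp : n.Prime
    · by_cases hq : ⌊c * (n : ℝ) ^ 2⌋₊.Prime
      · left
        exact ⟨⟨hp, hq⟩, by rw [if_pos hp, if_pos hq, one_mul]⟩
      · right
        exact ⟨fun h => hq h.2, by rw [if_neg hq, mul_zero]⟩
    · right
      exact ⟨fun h => hp h.1, by rw [if_neg hp, zero_mul]⟩
  have hP0 : 0 ≤ P := by
    rw [hP]
    positivity
  have g3 : P * L ≤ 2 * x := by
    have := (abs_le.1 h3).2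
    nlinarith
  have t1 : |((Qc (Sq2 c) x : ℝ) - S) * L ^ 2| ≤ η / 8 * x := by
    rw [abs_mul, abs_of_nonneg (by positivity : 0 ≤ L ^ 2)]
    have h7 : L ^ 2 * (8 / η) ≤ x := by linarith
    calc _ ≤ 1 * L ^ 2 := mul_le_mul_of_nonneg_right g2 (by positivity)
      _ = η / 8 * (L ^ 2 * (8 / η)) := by field_simp
      _ ≤ η / 8 * x := mul_le_mul_of_nonneg_left h7 (by positivity)
  have t2 : |(S - G) * L ^ 2| ≤ η / 8 * x := by
    rw [abs_mul, abs_of_nonneg (by positivity : 0 ≤ L ^ 2)]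
    rw [div_le_iff₀ hη] at h5
    calc _ ≤ (x / L ^ 3) * L ^ 2 := mul_le_mul_of_nonneg_right g1 (by positivity)
      _ = x * (1 / L) := by field_simp
      _ ≤ x * (η / 8) := by
          apply mul_le_mul_of_nonneg_left _ (by linarith)
          rw [div_le_iff₀ hL0]
          linarith
      _ = _ := mul_comm _ _
  have t3 : |(G * L - 1 / 2 * P) * L| ≤ 2 * θ * x := by
    rw [abs_mul, abs_of_pos hL0]
    calc _ ≤ (θ * P) * L := mul_le_mul_of_nonneg_right h2 hL0.le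
      _ = θ * (P * L) := by ring
      _ ≤ θ * (2 * x) := mul_le_mul_of_nonneg_left g3 hθ0.le
      _ = _ := by ring
  have t4 : |1 / 2 * (P * L - x)| ≤ θ * x := by
    rw [abs_mul, abs_of_pos (by norm_num : (0 : ℝ) < 1 / 2)]
    have : 0 ≤ θ * (x : ℝ) := by positivity
    linarith
  have e3 : (Qc (Sq2 c) x : ℝ) * L ^ 2 - 1 / 2 * x = ((Qc (Sq2 c) x : ℝ) - S) * L ^ 2 + (S - G) * L ^ 2 +
      (G * L - 1 / 2 * P) * L + 1 / 2 * (P * L - x) := by ring
  rw [e3]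
  have h8 := abs_add_le (((Qc (Sq2 c) x : ℝ) - S) * L ^ 2 + (S - G) * L ^ 2 + (G * L - 1 / 2 * P) * L) (1 / 2 * (P * L - x))
  have h9 := abs_add_le (((Qc (Sq2 c) x : ℝ) - S) * L ^ 2 + (S - G) * L ^ 2) ((G * L - 1 / 2 * P) * L)
  have h10 := abs_add_le (((Qc (Sq2 c) x : ℝ) - S) * L ^ 2) ((S - G) * L ^ 2)
  have h11 : θ * (x : ℝ) ≤ η / 8 * x := mul_le_mul_of_nonneg_right hθ1 (by linarith)
  nlinarith

end Pool.Agent.D0H91.UB
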