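import Mathlib
import Pool.Agent.D0H91.UB.Qf

/-! The density of the set for Q1, and the final count. -/

set_option autoImplicit false

namespace Pool.Agent.D0H91.UB

open Finset MeasureTheory Filter Topology
open Pool.Agent.D0H91.MG (gd gd_nonneg gd_le ev_logge prime_one prime_seq ip_sum)
open Pool.Agent.D0H91.US

/-- `p_q - q + 1` -/
noncomputable def gq (q : ℕ) : ℕ := Nat.nth Nat.Prime (q - 1) - q + 1

/-- along the primes -/
noncomputable def fq (n : ℕ) : ℕ := gq (Nat.nth Nat.Prime n)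

theorem nth_sm : StrictMono (Nat.nth Nat.Prime) := Nat.nth_strictMono Nat.infinite_setOf_prime

theorem nth_ge (n : ℕ) : n + 2 ≤ Nat.nth Nat.Prime n := by
  induction n with
  | zero =>
    have := (Nat.prime_nth_prime 0).two_le
    omega
  | succ n ih =>
    have := nth_sm (Nat.lt_succ_self n)
    rw [Nat.succ_eq_add_one] at this
    omega

theorem gq_step (j : ℕ) (hj : 2 ≤ j) : gq j < gq (j + 1) := by
  unfold gq
  obtain ⟨i, hi⟩ : ∃ i, j = i + 1 := ⟨j - 1, by omega⟩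
  rw [hi, show i + 1 - 1 = i by omega, show i + 1 + 1 - 1 = i + 1 by omega]
  have h1 := nth_ge i
  have h2 := nth_sm (Nat.lt_succ_self i)
  have hp := Nat.prime_nth_prime i
  have hq := Nat.prime_nth_prime (i + 1)
  obtain ⟨a, ha⟩ : ∃ a, a = Nat.nth Nat.Prime i := ⟨_, rfl⟩
  obtain ⟨b, hb⟩ : ∃ b, b = Nat.nth Nat.Prime (i + 1) := ⟨_, rfl⟩
  rw [← ha] at h1 h2 hp
  rw [← hb] at hq
  rw [Nat.succ_eq_add_one, ← hb] at h2
  rw [← ha, ← hb]
  have h3 := hp.eq_two_or_odd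
  have h4 := hq.eq_two_or_odd
  omega

theorem gq_mono (j : ℕ) (hj : 2 ≤ j) (d : ℕ) : gq j < gq (j + 1 + d) := by
  induction d with
  | zero => exact gq_step j hj
  | succ d ih => exact ih.trans (gq_step (j + 1 + d) (by omega))

theorem fq_mono : StrictMono fq := by
  apply strictMono_nat_of_lt_succ
  intro n
  unfold fq
  have h1 := nth_sm (Nat.lt_succ_self n)
  have h2 := (Nat.prime_nth_prime n).two_le
  rw [Nat.succ_eq_add_one] at h1
  have h3 := gq_mono (Nat.nth Nat.Prime n) h2 (Nat.nth Nat.Prime (n + 1) - (Nat.nth Nat.Prime n + 1))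
  rwa [show Nat.nth Nat.Prime n + 1 + (Nat.nth Nat.Prime (n + 1) - (Nat.nth Nat.Prime n + 1)) = Nat.nth Nat.Prime (n + 1) by
    omega] at h3

theorem nth_tendsto : Tendsto (fun n => Nat.nth Nat.Prime n) atTop atTop :=
  nth_sm.tendsto_atTop

theorem nth_up : ∀ᶠ n : ℕ in atTop, (Nat.nth Nat.Prime n : ℝ) ≤ n * Real.log n ^ 2 := by
  filter_upwards [nth_tendsto.eventually (pnt (1 / 2) (by norm_num)), nth_tendsto.eventually (pc_low (1 / 2) (by norm_num)),
    ev_logge 16, eventually_ge_atTop 2] with n h1 h2 h3 hn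
  have hn2 : (2 : ℝ) ≤ n := by exact_mod_cast hn
  obtain ⟨x, hx⟩ : ∃ x, x = Nat.nth Nat.Prime n := ⟨_, rfl⟩
  have hpc : Nat.primeCounting x = n + 1 := by
    rw [hx]
    exact pc_nth (n + 1) (Nat.succ_pos n)
  rw [← hx] at h1 h2 ⊢
  rw [hpc] at h1 h2
  push_cast at h1 h2
  have hx2 : (2 : ℝ) ≤ x := by
    have := (Nat.prime_nth_prime n).two_le
    rw [← hx] at this
    exact_mod_cast this
  have h4 : (x : ℝ) ≤ 2 * ((n + 1) * Real.log x) := by
    have := (abs_le.1 h1).1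
    linarith
  have h5 : Real.log x ≤ 2 * Real.log ((n : ℝ) + 1) := by linarith
  have h6 : Real.log ((n : ℝ) + 1) ≤ 2 * Real.log n := by
    have := Real.log_le_log (by positivity) (show (n : ℝ) + 1 ≤ (n : ℝ) ^ 2 by nlinarith)
    rw [Real.log_pow] at this
    exact_mod_cast this
  have hl0 : 0 ≤ Real.log (n : ℝ) := by linarith
  calc (x : ℝ) ≤ 2 * ((n + 1) * Real.log x) := h4
    _ ≤ 2 * ((2 * n) * (4 * Real.log n)) := by
        have h7 : (n : ℝ) + 1 ≤ 2 * n := by linarith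
        have h8 : Real.log x ≤ 4 * Real.log n := by linarith
        have h9 : 0 ≤ Real.log (x : ℝ) := Real.log_natCast_nonneg x
        gcongr
    _ = n * (16 * Real.log n) := by ring
    _ ≤ n * (Real.log n ^ 2) := by
        apply mul_le_mul_of_nonneg_left _ (by linarith)
        nlinarith

theorem fq_up : ∀ᶠ n : ℕ in atTop, (fq n : ℝ) ≤ n * Real.log n ^ 5 := by
  filter_upwards [nth_up, nth_tendsto.eventually nth_up, ev_logge 4, Pool.Agent.W301.SS.ev_log 2 1 1 (by norm_num),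
    eventually_ge_atTop 2] with n h1 h2 h3 h4 hn
  rw [one_mul, Real.rpow_one] at h4
  have hn2 : (2 : ℝ) ≤ n := by exact_mod_cast hn
  obtain ⟨q, hq⟩ : ∃ q, q = Nat.nth Nat.Prime n := ⟨_, rfl⟩
  have hq2 : (2 : ℝ) ≤ q := by
    have := (Nat.prime_nth_prime n).two_le
    rw [← hq] at this
    exact_mod_cast this
  rw [← hq] at h1 h2
  have hl0 : 0 ≤ Real.log (n : ℝ) := by linarith
  have h5 : (q : ℝ) ≤ (n : ℝ) ^ 2 := by nlinarith
  have h6 : Real.log q ≤ 2 * Real.log n := by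
    have := Real.log_le_log (by linarith) h5
    rw [Real.log_pow] at this
    exact_mod_cast this
  have h7 : (fq n : ℝ) ≤ Nat.nth Nat.Prime q := by
    have h8 : fq n ≤ Nat.nth Nat.Prime q := by
      unfold fq gq
      rw [← hq]
      have h9 := nth_sm (show q - 1 < q by
        have : 2 ≤ q := by exact_mod_cast hq2
        omega)
      omega
    exact_mod_cast h8
  have h10 : 0 ≤ Real.log (q : ℝ) := Real.log_natCast_nonneg q
  calc (fq n : ℝ) ≤ q * Real.log q ^ 2 := h7.trans h2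
    _ ≤ (n * Real.log n ^ 2) * (2 * Real.log n) ^ 2 := by gcongr
    _ = n * (4 * Real.log n ^ 4) := by ring
    _ ≤ n * (Real.log n ^ 5) := by
        apply mul_le_mul_of_nonneg_left _ (by linarith)
        rw [pow_succ (Real.log (n : ℝ)) 4]
        have : 0 ≤ Real.log (n : ℝ) ^ 4 := by positivity
        nlinarith

theorem sum_primes (G : ℕ → ℝ) (x : ℕ) : ∑ q ∈ range x, (if q.Prime then G q else 0) =
    ∑ n ∈ range (Nat.primeCounting' x), G (Nat.nth Nat.Prime n) := by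
  induction x with
  | zero => simp [Nat.primeCounting']
  | succ x ih =>
    have h1 : Nat.primeCounting' (x + 1) = Nat.primeCounting' x + if x.Prime then 1 else 0 := by
      unfold Nat.primeCounting'
      rw [Nat.count_succ]
    rw [Finset.sum_range_succ, ih, h1]
    split_ifs with hp
    · rw [Finset.sum_range_succ]
      congr 2
      unfold Nat.primeCounting'
      exact (Nat.nth_count hp).symm
    · rw [add_zero, add_zero]

theorem hq1 : ∀ᵐ c : ℝ, 0 < c → HQ (Sq1 c) 1 := by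
  filter_upwards [prime_seq 1 one_pos fq fq_mono 5 fq_up (fun _ => 1) 1 (fun _ => by simp)] with c hc hc0
  have hpos : ∀ n, 0 < fq n := by
    intro n
    unfold fq gq
    omega
  have hlc : ∀ θ : ℝ, 0 < θ → ∀ᶠ n : ℕ in atTop, |Real.log (c * (fq n : ℝ) ^ (1 : ℝ)) - 1 * Real.log n| ≤ θ * Real.log n := by
    intro θ hθ
    filter_upwards [ev_logge (2 * |Real.log c| / θ), fq_up, Pool.Agent.W301.SS.ev_log 5 1 (θ / 2) (by positivity), ev_logge 1,
      eventually_ge_atTop 1] with n h1 h2 h3 h4 hn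
    rw [one_mul] at h3
    have hn0 : (0 : ℝ) < n := by exact_mod_cast hn
    have hf0 : (0 : ℝ) < fq n := by exact_mod_cast hpos n
    have hl0 : 0 < Real.log (n : ℝ) := by linarith
    rw [Real.rpow_one, Real.log_mul hc0.ne' hf0.ne', one_mul]
    rw [div_le_iff₀ hθ] at h1
    have h5 : Real.log n ≤ Real.log (fq n) := by
      apply Real.log_le_log hn0
      exact_mod_cast fq_mono.le_apply
    have h6 : Real.log (fq n) ≤ Real.log n + θ / 2 * Real.log n := by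
      have h7 : (fq n : ℝ) ≤ n * (n : ℝ) ^ (θ / 2) := h2.trans (mul_le_mul_of_nonneg_left h3 hn0.le)
      have h8 := Real.log_le_log hf0 h7
      rwa [Real.log_mul hn0.ne' (by positivity), Real.log_rpow hn0] at h8
    have h9 := abs_le.1 (le_refl |Real.log c|)
    rw [abs_le]
    constructor <;> nlinarith [h9.1, h9.2]
  have hsl := slow (fun _ => 1) (fun n => gd (c * (fq n : ℝ) ^ (1 : ℝ))) (fun _ => zero_le_one) (fun _ => le_rfl) (1 / 1) 2
    (by norm_num) (by norm_num) (fun n => gd_nonneg _) (fun n => gd_le _)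
    (fun θ hθ => gd_log (fun n : ℕ => c * (fq n : ℝ) ^ (1 : ℝ)) 1 (by norm_num) (by
      filter_upwards with n
      have : (0 : ℝ) < fq n := by exact_mod_cast hpos n
      positivity) hlc θ hθ) 0 (by
      filter_upwards with N
      rw [one_sum, pow_zero, mul_one])
  intro η hη
  obtain ⟨θ, hθ⟩ : ∃ θ, θ = min (η / 16) (1 / 8) := ⟨_, rfl⟩
  have hθ0 : 0 < θ := by
    rw [hθ]
    positivity
  have hθ1 : θ ≤ η / 16 := by
    rw [hθ]
    exact min_le_left _ _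
  have hθ2 : θ ≤ 1 / 8 := by
    rw [hθ]
    exact min_le_right _ _
  have htP := Nat.tendsto_primeCounting'
  filter_upwards [htP.eventually (hc hc0 3), htP.eventually (hsl θ hθ0), htP.eventually (eventually_ge_atTop 3), pnt θ hθ0,
    Pool.Agent.W301.SS.ev_log 2 (1 / θ) 1 (by norm_num), Pool.Agent.W301.SS.ev_log 1 2 θ hθ0, ev_logge (16 / θ),
    ev_logge 1, eventually_ge_atTop 2] with x h1 h2 h2' h3 h4 h5 h6 h7 hx
  rw [Real.rpow_one] at h4
  rw [pow_one] at h5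
  have hx2 : (2 : ℝ) ≤ x := by exact_mod_cast hx
  have hx0 : (0 : ℝ) < x := by linarith
  obtain ⟨L, hL⟩ : ∃ L, L = Real.log (x : ℝ) := ⟨_, rfl⟩
  have hL' : Real.log (x : ℝ) = L := hL.symm
  rw [hL'] at h3 h4 h5 h6 h7
  rw [hL']
  have hL0 : 0 < L := by linarith
  obtain ⟨p, hp⟩ : ∃ p, p = Nat.primeCounting' x := ⟨_, rfl⟩
  rw [← hp] at h1 h2 h2'
  obtain ⟨P, hP⟩ : ∃ P : ℝ, P = p := ⟨_, rfl⟩
  rw [one_sum, ← hP, div_one, one_mul] at h2
  rw [← hP] at h1
  have hP3 : (3 : ℝ) ≤ P := by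
    rw [hP]
    exact_mod_cast h2'
  obtain ⟨ℓ, hℓ⟩ : ∃ ℓ, ℓ = Real.log P := ⟨_, rfl⟩
  rw [← hℓ] at h1 h2
  obtain ⟨S, hS⟩ : ∃ S, S = ∑ n ∈ Icc 1 p, pr ⌊c * (fq n : ℝ) ^ (1 : ℝ)⌋₊ := ⟨_, rfl⟩
  obtain ⟨G, hG⟩ : ∃ G, G = ∑ n ∈ Icc 1 p, gd (c * (fq n : ℝ) ^ (1 : ℝ)) := ⟨_, rfl⟩
  simp only [one_mul] at h2
  rw [← hG] at h2
  have hG0 : 0 ≤ G := by
    rw [hG]
    exact Finset.sum_nonneg fun n _ => gd_nonneg _
  have g1 : |S - G| ≤ P / ℓ ^ 3 := by
    have e1 : ∑ n ∈ Icc 1 p, (1 : ℂ) * (Pool.Agent.D0H91.MG.ip ⌊c * (fq n : ℝ) ^ (1 : ℝ)⌋₊ - (gd (c * (fq n : ℝ) ^ (1 : ℝ)) : ℂ)) =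
        ((S - G : ℝ) : ℂ) := by
      rw [hS, hG, ← Finset.sum_sub_distrib]
      push_cast
      refine Finset.sum_congr rfl fun n _ => ?_
      rw [pr_ip]
      ring
    rwa [e1, Complex.norm_real, Real.norm_eq_abs] at h1
  have g2 : |(Qc (Sq1 c) x : ℝ) - S| ≤ 1 := by
    classical
    have e1 : (Qc (Sq1 c) x : ℝ) = ∑ n ∈ range p, pr ⌊c * (fq n : ℝ) ^ (1 : ℝ)⌋₊ := by
      have e2 := sum_primes (fun q => pr ⌊c * (gq q : ℝ) ^ (1 : ℝ)⌋₊) x
      rw [← hp] at e2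
      have e3 : ∑ n ∈ range p, pr ⌊c * (fq n : ℝ) ^ (1 : ℝ)⌋₊ = ∑ n ∈ range p, pr ⌊c * (gq (Nat.nth Nat.Prime n) : ℝ) ^ (1 : ℝ)⌋₊ := rfl
      rw [e3, ← e2]
      unfold Qc
      rw [Nat.ceil_natCast, Finset.card_filter]
      push_cast
      refine Finset.sum_congr rfl fun q _ => ?_
      simp only [Real.rpow_one]
      unfold Sq1 pr gq
      simp only [Set.mem_setOf_eq]
      by_cases h8 : q.Prime
      · by_cases h9 : ⌊c * ((Nat.nth Nat.Prime (q - 1) - q + 1 : ℕ) : ℝ)⌋₊.Prime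
        · rw [if_pos ⟨h8, h9⟩, if_pos h8, if_pos h9]
        · rw [if_neg (fun h => h9 h.2), if_pos h8, if_neg h9]
      · rw [if_neg (fun h => h8 h.1), if_neg h8]
    have e4 : range p = insert 0 (Ico 1 p) := by
      ext n
      rw [Finset.mem_insert, Finset.mem_range, Finset.mem_Ico]
      omega
    have e5 : Icc 1 p = insert p (Ico 1 p) := by
      ext n
      rw [Finset.mem_insert, Finset.mem_Icc, Finset.mem_Ico]
      omega
    rw [e1, hS, e4, e5, Finset.sum_insert (by simp), Finset.sum_insert (by simp)]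
    have a1 := pr0 ⌊c * (fq 0 : ℝ) ^ (1 : ℝ)⌋₊
    have a2 := pr1 ⌊c * (fq 0 : ℝ) ^ (1 : ℝ)⌋₊
    have a3 := pr0 ⌊c * (fq p : ℝ) ^ (1 : ℝ)⌋₊
    have a4 := pr1 ⌊c * (fq p : ℝ) ^ (1 : ℝ)⌋₊
    rw [abs_le]
    constructor <;> linarith
  -- P log x
  have hPπ : P ≤ Nat.primeCounting x ∧ (Nat.primeCounting x : ℝ) ≤ P + 1 := by
    rw [hP, hp]
    have e1 : Nat.primeCounting x = Nat.primeCounting' x + if x.Prime then 1 else 0 := by
      unfold Nat.primeCounting Nat.primeCounting'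
      rw [Nat.count_succ]
    constructor
    · have : Nat.primeCounting' x ≤ Nat.primeCounting x := by omega
      exact_mod_cast this
    · have : Nat.primeCounting x ≤ Nat.primeCounting' x + 1 := by
        rw [e1]
        split_ifs <;> omega
      exact_mod_cast this
  have hLx : L ≤ θ * x := by
    have : 1 / θ * L ≤ x := by
      refine le_trans ?_ h4
      apply mul_le_mul_of_nonneg_left _ (by positivity)
      nlinarith
    rw [one_div, inv_mul_le_iff₀ hθ0] at this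
    exact this
  have g3 : |P * L - x| ≤ 2 * θ * x := by
    have a1 := abs_le.1 h3
    have a2 : P * L ≤ Nat.primeCounting x * L := mul_le_mul_of_nonneg_right hPπ.1 hL0.le
    have a3 : (Nat.primeCounting x : ℝ) * L ≤ (P + 1) * L := mul_le_mul_of_nonneg_right hPπ.2 hL0.le
    rw [abs_le]
    constructor
    · linarith [a1.1]
    · have : 0 ≤ θ * (x : ℝ) := by positivity
      linarith [a1.2]
  have g3' := abs_le.1 g3
  have hPL1 : (x : ℝ) / 2 ≤ P * L := by nlinarith [g3'.1]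
  have hPL2 : P * L ≤ 2 * x := by nlinarith [g3'.2]
  have hℓ1 : ℓ ≤ L := by
    rw [hℓ, hL]
    apply Real.log_le_log (by linarith)
    refine hPπ.1.trans ?_
    exact_mod_cast pc_le x
  have hℓ2 : (1 - θ) * L ≤ ℓ := by
    have a1 : (x : ℝ) ^ (1 - θ) ≤ P := by
      have a2 : (x : ℝ) ^ (1 - θ) * (x : ℝ) ^ θ = x := by
        rw [← Real.rpow_add hx0]
        norm_num
      have a3 : (x : ℝ) ^ (1 - θ) * (2 * L) ≤ P * (2 * L) := by
        calc (x : ℝ) ^ (1 - θ) * (2 * L) ≤ (x : ℝ) ^ (1 - θ) * (x : ℝ) ^ θ := by gcongr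
          _ = x := a2
          _ ≤ P * (2 * L) := by linarith
      exact le_of_mul_le_mul_right a3 (by linarith)
    have a4 := Real.log_le_log (by positivity) a1
    rwa [Real.log_rpow hx0, hL', ← hℓ] at a4
  have hℓ0 : L / 2 ≤ ℓ := by nlinarith
  have h2' := abs_le.1 h2
  have t1 : |((Qc (Sq1 c) x : ℝ) - S) * L ^ 2| ≤ θ * x := by
    rw [abs_mul, abs_of_nonneg (by positivity : 0 ≤ L ^ 2)]
    calc _ ≤ 1 * L ^ 2 := mul_le_mul_of_nonneg_right g2 (by positivity)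
      _ = θ * (1 / θ * L ^ 2) := by field_simp
      _ ≤ θ * x := mul_le_mul_of_nonneg_left h4 hθ0.le
  have t2 : |(S - G) * L ^ 2| ≤ θ * x := by
    rw [abs_mul, abs_of_nonneg (by positivity : 0 ≤ L ^ 2)]
    rw [div_le_iff₀ hθ0] at h6
    calc _ ≤ (P / ℓ ^ 3) * L ^ 2 := mul_le_mul_of_nonneg_right g1 (by positivity)
      _ ≤ (P / (L / 2) ^ 3) * L ^ 2 := by
          gcongr
      _ = (P * L) * (8 / L ^ 2) := by
          field_simp
          ring
      _ ≤ (2 * x) * (8 / L ^ 2) := by gcongr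
      _ = x * (16 / L ^ 2) := by ring
      _ ≤ x * θ := by
          apply mul_le_mul_of_nonneg_left _ hx0.le
          rw [div_le_iff₀ (by positivity)]
          nlinarith
      _ = _ := mul_comm _ _
  have hGL1 : (1 - θ) * P ≤ G * L := by
    have a1 : G * ℓ ≤ G * L := mul_le_mul_of_nonneg_left hℓ1 hG0
    linarith [h2'.1]
  have hGL2 : G * L ≤ (1 + 4 * θ) * P := by
    have a1 : G * ((1 - θ) * L) ≤ G * ℓ := mul_le_mul_of_nonneg_left hℓ2 hG0
    have a2 : (G * L) * (1 - θ) ≤ ((1 + 4 * θ) * P) * (1 - θ) := by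
      have a3 : (1 + θ) * P ≤ ((1 + 4 * θ) * (1 - θ)) * P := mul_le_mul_of_nonneg_right (by nlinarith) (by linarith)
      calc (G * L) * (1 - θ) = G * ((1 - θ) * L) := by ring
        _ ≤ (1 + θ) * P := by linarith [h2'.2]
        _ ≤ _ := a3
        _ = _ := by ring
    exact le_of_mul_le_mul_right a2 (by linarith)
  have t3 : |G * L ^ 2 - x| ≤ 14 * θ * x := by
    have a1 : (1 - θ) * P * L ≤ G * L * L := mul_le_mul_of_nonneg_right hGL1 hL0.le
    have a2 : G * L * L ≤ (1 + 4 * θ) * P * L := mul_le_mul_of_nonneg_right hGL2 hL0.le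
    have a3 : (1 - θ) * ((1 - 2 * θ) * x) ≤ (1 - θ) * (P * L) := mul_le_mul_of_nonneg_left (by linarith [g3'.1]) (by linarith)
    have a4 : (1 + 4 * θ) * (P * L) ≤ (1 + 4 * θ) * ((1 + 2 * θ) * x) :=
      mul_le_mul_of_nonneg_left (by linarith [g3'.2]) (by linarith)
    have a5 : 0 ≤ θ * (x : ℝ) := by positivity
    have a6 : θ * θ * (x : ℝ) ≤ θ * x * (1 / 8) := by
      have := mul_le_mul_of_nonneg_left hθ2 a5
      linarith
    have a7 : 0 ≤ θ * θ * (x : ℝ) := by positivity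
    rw [abs_le]
    constructor <;> nlinarith
  have e3 : (Qc (Sq1 c) x : ℝ) * L ^ 2 - 1 * x = ((Qc (Sq1 c) x : ℝ) - S) * L ^ 2 + (S - G) * L ^ 2 + (G * L ^ 2 - x) := by ring
  rw [e3]
  have h9 := abs_add_le (((Qc (Sq1 c) x : ℝ) - S) * L ^ 2 + (S - G) * L ^ 2) (G * L ^ 2 - x)
  have h10 := abs_add_le (((Qc (Sq1 c) x : ℝ) - S) * L ^ 2) ((S - G) * L ^ 2)
  have h11 : θ * (x : ℝ) ≤ η / 16 * x := mul_le_mul_of_nonneg_right hθ1 (by linarith)
  linarith

/-- the final count -/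
theorem fin_count (Q : Set ℕ) (κ : ℝ) (hκ : 0 < κ) (hQ : HQ Q κ) {m : ℝ} (hm : 0 < m)
    (h : ∀ A : ℕ, ∀ᶠ N : ℕ in atTop, (Ex (fun n => |∑ p ∈ So Q m n, Real.log p - m * Qc Q (n / m)|) A N : ℝ) ≤
      N / Real.log N ^ A) (ε : ℝ) (hε : 0 < ε) (A : ℕ) :
    ∀ᶠ N : ℕ in atTop, (((Icc 1 N).filter fun n : ℕ => ¬ ((1 - ε) * (κ * n) ≤ (So Q m n).card * Real.log n ^ 3 ∧
      (So Q m n).card * Real.log n ^ 3 ≤ (1 + ε) * (κ * n))).card : ℝ) ≤ N / Real.log N ^ A := by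
  classical
  obtain ⟨θ, hθ⟩ : ∃ θ, θ = min ε 1 / 32 := ⟨_, rfl⟩
  have hθ0 : 0 < θ := by
    rw [hθ]
    positivity
  have hθ1 : θ ≤ 1 / 32 := by
    rw [hθ]
    linarith [min_le_right ε 1]
  have hθε : 32 * θ ≤ ε := by
    rw [hθ]
    linarith [min_le_left ε 1]
  have hC : ∀ᶠ x : ℕ in atTop, (x : ℝ) ≤ Qc Q x * Real.log x ^ 3 := by
    filter_upwards [hQ (κ / 2) (by positivity), ev_logge (2 / κ), ev_logge 1, eventually_ge_atTop 1] with x h1 h2 h3 h4
    have hx0 : (0 : ℝ) < x := by exact_mod_cast h4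
    have h5 := (abs_le.1 h1).1
    rw [div_le_iff₀ hκ] at h2
    have h6 : κ / 2 * x ≤ Qc Q x * Real.log x ^ 2 := by linarith
    have h7 : κ / 2 * x * Real.log x ≤ Qc Q x * Real.log x ^ 2 * Real.log x := mul_le_mul_of_nonneg_right h6 (by linarith)
    calc (x : ℝ) ≤ κ / 2 * x * Real.log x := by nlinarith
      _ ≤ Qc Q x * Real.log x ^ 2 * Real.log x := h7
      _ = _ := by ring
  have ht : Tendsto (fun n : ℕ => ⌈(n : ℝ) / m⌉₊) atTop atTop :=
    tendsto_nat_ceil_atTop.comp (tendsto_natCast_atTop_atTop.atTop_div_const hm)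
  have hP : ∀ᶠ n : ℕ in atTop, (1 - 4 * θ) * (κ * n) ≤ m * Qc Q (n / m) * Real.log n ^ 2 ∧
      m * Qc Q (n / m) * Real.log n ^ 2 ≤ (1 + 8 * θ) * (κ * n) := by
    filter_upwards [ht.eventually (hQ (θ * κ) (by positivity)), ev_logge ((|Real.log m| + 1) / θ), ev_logge 1,
      eventually_ge_atTop (⌈m⌉₊ + ⌈m / θ⌉₊ + 1)] with n h1 h2 h3 h4
    obtain ⟨y, hy⟩ : ∃ y : ℕ, y = ⌈(n : ℝ) / m⌉₊ := ⟨_, rfl⟩
    have hQy : Qc Q ((n : ℝ) / m) = Qc Q (y : ℝ) := by
      unfold Qc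
      rw [Nat.ceil_natCast, hy]
    rw [hQy]
    rw [← hy] at h1
    have hn1 : (1 : ℝ) ≤ n := by exact_mod_cast (by omega : 1 ≤ n)
    have hnm : m ≤ n := by
      have a1 := Nat.le_ceil m
      have a2 : ((⌈m⌉₊ : ℕ) : ℝ) ≤ n := by exact_mod_cast (by omega : ⌈m⌉₊ ≤ n)
      linarith
    have hnθ : m ≤ θ * n := by
      have a1 := Nat.le_ceil (m / θ)
      have a2 : ((⌈m / θ⌉₊ : ℕ) : ℝ) ≤ n := by exact_mod_cast (by omega : ⌈m / θ⌉₊ ≤ n)
      have a3 : m / θ ≤ n := a1.trans a2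
      rw [div_le_iff₀ hθ0] at a3
      linarith
    have hn0 : (0 : ℝ) < n := by linarith
    have hy1 : (n : ℝ) / m ≤ y := by
      rw [hy]
      exact Nat.le_ceil _
    have hy2 : (y : ℝ) < n / m + 1 := by
      rw [hy]
      exact Nat.ceil_lt_add_one (by positivity)
    have hy0 : (0 : ℝ) < y := lt_of_lt_of_le (by positivity) hy1
    obtain ⟨x, hx⟩ : ∃ x, x = Real.log (n : ℝ) := ⟨_, rfl⟩
    obtain ⟨ℓ, hℓ⟩ : ∃ ℓ, ℓ = Real.log (y : ℝ) := ⟨_, rfl⟩
    rw [← hx] at h2 h3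
    rw [← hx]
    rw [← hℓ] at h1
    have hx0 : 0 < x := by linarith
    rw [div_le_iff₀ hθ0] at h2
    have hℓ1 : (1 - θ) * x ≤ ℓ := by
      have a1 := Real.log_le_log (by positivity) hy1
      rw [Real.log_div hn0.ne' hm.ne', ← hx, ← hℓ] at a1
      have a2 := le_abs_self (Real.log m)
      linarith
    have hℓ2 : ℓ ≤ (1 + θ) * x := by
      have a3 : (y : ℝ) ≤ 2 * (n / m) := by
        have a4 : 1 ≤ (n : ℝ) / m := by
          rw [le_div_iff₀ hm]
          linarith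
        linarith
      have a1 := Real.log_le_log hy0 a3
      rw [Real.log_mul (by norm_num) (by positivity), Real.log_div hn0.ne' hm.ne', ← hx, ← hℓ] at a1
      have a2 := neg_abs_le (Real.log m)
      have a5 : Real.log 2 ≤ 1 := by
        have := Real.log_two_lt_d9
        linarith
      linarith
    have hb := abs_le.1 h1
    obtain ⟨V, hV⟩ : ∃ V : ℝ, V = Qc Q (y : ℝ) := ⟨_, rfl⟩
    rw [← hV] at hb ⊢
    have hV0 : 0 ≤ V := by
      rw [hV]
      positivity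
    have hmy1 : (n : ℝ) ≤ m * y := by
      rw [div_le_iff₀ hm] at hy1
      linarith
    have hmy2 : m * y ≤ (1 + θ) * n := by
      have : m * (y : ℝ) ≤ m * (n / m + 1) := mul_le_mul_of_nonneg_left hy2.le hm.le
      have e : m * ((n : ℝ) / m + 1) = n + m := by field_simp
      linarith
    have hℓ0 : 0 ≤ ℓ := le_trans (mul_nonneg (by linarith) hx0.le) hℓ1
    constructor
    · have a1 : ℓ ^ 2 ≤ (1 + 3 * θ) * x ^ 2 := by
        calc ℓ ^ 2 ≤ ((1 + θ) * x) ^ 2 := pow_le_pow_left₀ hℓ0 hℓ2 2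
          _ = (1 + θ) ^ 2 * x ^ 2 := by ring
          _ ≤ _ := mul_le_mul_of_nonneg_right (by nlinarith) (by positivity)
      have a2 : (1 - θ) * (κ * n) ≤ (m * V) * ℓ ^ 2 := by
        have a3 : κ * (1 - θ) * y ≤ V * ℓ ^ 2 := by linarith [hb.1]
        have a4 := mul_le_mul_of_nonneg_left a3 hm.le
        have a5 : κ * (1 - θ) * n ≤ κ * (1 - θ) * (m * y) := mul_le_mul_of_nonneg_left hmy1 (mul_nonneg hκ.le (by linarith))
        calc (1 - θ) * (κ * n) = κ * (1 - θ) * n := by ring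
          _ ≤ κ * (1 - θ) * (m * y) := a5
          _ = m * (κ * (1 - θ) * y) := by ring
          _ ≤ m * (V * ℓ ^ 2) := a4
          _ = _ := by ring
      have a6 : (m * V) * ℓ ^ 2 ≤ (m * V) * ((1 + 3 * θ) * x ^ 2) := mul_le_mul_of_nonneg_left a1 (by positivity)
      have a7 : ((1 - 4 * θ) * (κ * n)) * (1 + 3 * θ) ≤ (m * V * x ^ 2) * (1 + 3 * θ) := by
        have a8 : (1 - 4 * θ) * (1 + 3 * θ) ≤ 1 - θ := by nlinarith
        have a9 : ((1 - 4 * θ) * (1 + 3 * θ)) * (κ * n) ≤ (1 - θ) * (κ * n) := mul_le_mul_of_nonneg_right a8 (by positivity)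
        calc ((1 - 4 * θ) * (κ * n)) * (1 + 3 * θ) = ((1 - 4 * θ) * (1 + 3 * θ)) * (κ * n) := by ring
          _ ≤ (1 - θ) * (κ * n) := a9
          _ ≤ (m * V) * ℓ ^ 2 := a2
          _ ≤ (m * V) * ((1 + 3 * θ) * x ^ 2) := a6
          _ = _ := by ring
      exact le_of_mul_le_mul_right a7 (by linarith)
    · have a1 : (1 - 2 * θ) * x ^ 2 ≤ ℓ ^ 2 := by
        calc (1 - 2 * θ) * x ^ 2 ≤ (1 - θ) ^ 2 * x ^ 2 := mul_le_mul_of_nonneg_right (by nlinarith) (by positivity)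
          _ = ((1 - θ) * x) ^ 2 := by ring
          _ ≤ ℓ ^ 2 := pow_le_pow_left₀ (mul_nonneg (by linarith) hx0.le) hℓ1 2
      have a2 : (m * V) * ℓ ^ 2 ≤ (1 + 3 * θ) * (κ * n) := by
        have a3 : V * ℓ ^ 2 ≤ κ * (1 + θ) * y := by linarith [hb.2]
        have a4 := mul_le_mul_of_nonneg_left a3 hm.le
        have a5 : κ * (1 + θ) * (m * y) ≤ κ * (1 + θ) * ((1 + θ) * n) := mul_le_mul_of_nonneg_left hmy2 (by positivity)
        calc (m * V) * ℓ ^ 2 = m * (V * ℓ ^ 2) := by ring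
          _ ≤ m * (κ * (1 + θ) * y) := a4
          _ = κ * (1 + θ) * (m * y) := by ring
          _ ≤ κ * (1 + θ) * ((1 + θ) * n) := a5
          _ = (1 + θ) ^ 2 * (κ * n) := by ring
          _ ≤ _ := mul_le_mul_of_nonneg_right (by nlinarith) (by positivity)
      have a6 : (m * V) * ((1 - 2 * θ) * x ^ 2) ≤ (m * V) * ℓ ^ 2 := mul_le_mul_of_nonneg_left a1 (by positivity)
      have a7 : (m * V * x ^ 2) * (1 - 2 * θ) ≤ ((1 + 8 * θ) * (κ * n)) * (1 - 2 * θ) := by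
        have a8 : 1 + 3 * θ ≤ (1 + 8 * θ) * (1 - 2 * θ) := by nlinarith
        have a9 : (1 + 3 * θ) * (κ * n) ≤ ((1 + 8 * θ) * (1 - 2 * θ)) * (κ * n) := mul_le_mul_of_nonneg_right a8 (by positivity)
        calc (m * V * x ^ 2) * (1 - 2 * θ) = (m * V) * ((1 - 2 * θ) * x ^ 2) := by ring
          _ ≤ (m * V) * ℓ ^ 2 := a6
          _ ≤ (1 + 3 * θ) * (κ * n) := a2
          _ ≤ ((1 + 8 * θ) * (1 - 2 * θ)) * (κ * n) := a9
          _ = _ := by ring
      exact le_of_mul_le_mul_right a7 (by linarith)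
  filter_upwards [qe Q hm 3 hC h _ hP θ hθ0 A] with N hN
  refine le_trans ?_ hN
  have hsub : ((Icc 1 N).filter fun n : ℕ => ¬ ((1 - ε) * (κ * n) ≤ (So Q m n).card * Real.log n ^ 3 ∧
      (So Q m n).card * Real.log n ^ 3 ≤ (1 + ε) * (κ * n))) ⊆
      ((Icc 1 N).filter fun n : ℕ => ¬ (((1 - 4 * θ) * (κ * n) ≤ m * Qc Q (n / m) * Real.log n ^ 2 ∧
      m * Qc Q (n / m) * Real.log n ^ 2 ≤ (1 + 8 * θ) * (κ * n)) ∧ (1 - θ) * (m * Qc Q (n / m)) ≤ (So Q m n).card * Real.log n ∧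
      (So Q m n).card * Real.log n ≤ (1 + θ) * (m * Qc Q (n / m)))) := by
    intro n hn
    rw [Finset.mem_filter] at hn ⊢
    refine ⟨hn.1, fun hgood => hn.2 ?_⟩
    obtain ⟨⟨b1, b2⟩, b3, b4⟩ := hgood
    have hx0 : 0 ≤ Real.log (n : ℝ) ^ 2 := by positivity
    have hκn : 0 ≤ κ * (n : ℝ) := by positivity
    have c3 := mul_le_mul_of_nonneg_right b3 hx0
    have c4 := mul_le_mul_of_nonneg_right b4 hx0
    have c1 := mul_le_mul_of_nonneg_left b1 (show 0 ≤ 1 - θ by linarith)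
    have c2 := mul_le_mul_of_nonneg_left b2 (show 0 ≤ 1 + θ by linarith)
    have e1 : ((So Q m n).card : ℝ) * Real.log n ^ 3 = (So Q m n).card * Real.log n * Real.log n ^ 2 := by ring
    rw [e1]
    constructor
    · have d1 : (1 - ε) * (κ * n) ≤ ((1 - θ) * (1 - 4 * θ)) * (κ * n) := mul_le_mul_of_nonneg_right (by nlinarith) hκn
      calc (1 - ε) * (κ * n) ≤ ((1 - θ) * (1 - 4 * θ)) * (κ * n) := d1
        _ = (1 - θ) * ((1 - 4 * θ) * (κ * n)) := by ring
        _ ≤ (1 - θ) * (m * Qc Q (n / m) * Real.log n ^ 2) := c1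
        _ = (1 - θ) * (m * Qc Q (n / m)) * Real.log n ^ 2 := by ring
        _ ≤ _ := c3
    · have d1 : ((1 + θ) * (1 + 8 * θ)) * (κ * n) ≤ (1 + ε) * (κ * n) := mul_le_mul_of_nonneg_right (by nlinarith) hκn
      calc _ ≤ (1 + θ) * (m * Qc Q (n / m)) * Real.log n ^ 2 := c4
        _ = (1 + θ) * (m * Qc Q (n / m) * Real.log n ^ 2) := by ring
        _ ≤ (1 + θ) * ((1 + 8 * θ) * (κ * n)) := c2
        _ = ((1 + θ) * (1 + 8 * θ)) * (κ * n) := by ring
        _ ≤ _ := d1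
  exact_mod_cast Finset.card_le_card hsub

end Pool.Agent.D0H91.UB
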